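import Mathlib

set_option autoImplicit false

open Finset

namespace Pool.Agent.Lib.MP_3ae5b0_nt

/-- The divisor bound `d(m) ≤ C m^ε`. -/
theorem divisor_bound (ε : ℝ) (hε : 0 < ε) :
    ∃ C : ℝ, 1 ≤ C ∧ ∀ m : ℕ, m ≠ 0 → (#m.divisors : ℝ) ≤ C * (m : ℝ) ^ ε := by
  classical
  -- a constant for small primes
  set A : ℝ := 1 / (ε * Real.log 2) + 1 with hA
  have hl2 : 0 < Real.log 2 := Real.log_pos (by norm_num)
  have hA1 : 1 ≤ A := by
    have : 0 < 1 / (ε * Real.log 2) := by positivity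
    linarith
  obtain ⟨K, hK⟩ := exists_nat_ge ((2:ℝ) ^ (1 / ε))
  refine ⟨A ^ K, one_le_pow₀ hA1, ?_⟩
  intro m hm
  -- local bounds
  have hsmall : ∀ p : ℕ, 2 ≤ p → ∀ a : ℕ, ((a : ℝ) + 1) ≤ A * ((p : ℝ) ^ a) ^ ε := by
    intro p hp a
    have hp' : (2:ℝ) ≤ p := by exact_mod_cast hp
    have hp0 : (0:ℝ) < p := by linarith
    have h1 : ((p : ℝ) ^ a) ^ ε = Real.exp (a * ε * Real.log p) := by
      rw [← Real.rpow_natCast, ← Real.rpow_mul hp0.le, Real.rpow_def_of_pos hp0]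
      congr 1; ring
    have h2 : (a:ℝ) * ε * Real.log 2 ≤ a * ε * Real.log p := by
      have : Real.log 2 ≤ Real.log p := Real.log_le_log (by norm_num) hp'
      have ha : (0:ℝ) ≤ a * ε := by positivity
      exact mul_le_mul_of_nonneg_left this ha
    have h3 : (a:ℝ) * ε * Real.log 2 + 1 ≤ Real.exp (a * ε * Real.log p) :=
      le_trans (by linarith [Real.add_one_le_exp ((a:ℝ) * ε * Real.log 2)])
        (Real.exp_le_exp.2 h2 |> fun h => h) |> fun h => by
          have := Real.add_one_le_exp ((a:ℝ) * ε * Real.log 2)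
          exact le_trans this (Real.exp_le_exp.2 h2)
    rw [h1]
    have h4 : A * ((a:ℝ) * ε * Real.log 2 + 1) ≤ A * Real.exp (a * ε * Real.log p) :=
      mul_le_mul_of_nonneg_left h3 (by linarith)
    refine le_trans ?_ h4
    have h5 : A * ((a:ℝ) * ε * Real.log 2 + 1) = (a:ℝ) + 1 + (a:ℝ) * ε * Real.log 2
        + 1 / (ε * Real.log 2) := by
      rw [hA]; field_simp; ring
    rw [h5]
    have : 0 ≤ (a:ℝ) * ε * Real.log 2 := by positivity
    have : 0 < 1 / (ε * Real.log 2) := by positivity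
    linarith
  have hlarge : ∀ p : ℕ, K ≤ p → ∀ a : ℕ, ((a : ℝ) + 1) ≤ ((p : ℝ) ^ a) ^ ε := by
    intro p hp a
    have hp' : ((2:ℝ) ^ (1 / ε)) ≤ p := le_trans hK (by exact_mod_cast hp)
    have h1 : (2:ℝ) ^ (a:ℝ) ≤ ((p : ℝ) ^ a) ^ ε := by
      have h2 : ((p : ℝ) ^ a) ^ ε = ((p:ℝ) ^ ε) ^ (a:ℝ) := by
        rw [← Real.rpow_natCast, ← Real.rpow_mul (Nat.cast_nonneg p), ← Real.rpow_mul (Nat.cast_nonneg p)]
        congr 1; ring
      rw [h2]
      refine Real.rpow_le_rpow (by norm_num) ?_ (Nat.cast_nonneg a)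
      have h3 : ((2:ℝ) ^ (1 / ε)) ^ ε = 2 := by
        rw [← Real.rpow_mul (by norm_num)]
        rw [one_div, inv_mul_cancel₀ hε.ne', Real.rpow_one]
      calc (2:ℝ) = ((2:ℝ) ^ (1 / ε)) ^ ε := h3.symm
        _ ≤ (p:ℝ) ^ ε := Real.rpow_le_rpow (by positivity) hp' hε.le
    refine le_trans ?_ h1
    rw [Real.rpow_natCast]
    have : a + 1 ≤ 2 ^ a := Nat.lt_two_pow_self
    exact_mod_cast this
  have hmfac : (m:ℝ) = ∏ p ∈ m.primeFactors, ((p:ℝ) ^ (m.factorization p)) := by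
    conv_lhs => rw [← Nat.prod_factorization_pow_eq_self hm]
    rw [Finsupp.prod]
    push_cast
    rfl
  rw [Nat.card_divisors hm]
  push_cast
  have hstep : ∏ p ∈ m.primeFactors, ((m.factorization p : ℝ) + 1) ≤
      ∏ p ∈ m.primeFactors, ((if p < K then A else 1) * ((p:ℝ) ^ (m.factorization p)) ^ ε) := by
    refine Finset.prod_le_prod (fun p _ => by positivity) ?_
    intro p hp
    have hpp := Nat.prime_of_mem_primeFactors hp
    by_cases h : p < K
    · rw [if_pos h]; exact hsmall p hpp.two_le _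
    · rw [if_neg h, one_mul]; exact hlarge p (not_lt.1 h) _
  refine le_trans hstep ?_
  rw [Finset.prod_mul_distrib]
  have h6 : ∏ p ∈ m.primeFactors, (((p:ℝ) ^ (m.factorization p)) ^ ε) = (m:ℝ) ^ ε := by
    rw [Real.finsetProd_rpow]
    · rw [← hmfac]
    · intro p _; positivity
  rw [h6]
  refine mul_le_mul_of_nonneg_right ?_ (by positivity)
  have h7 : ∏ p ∈ m.primeFactors, (if p < K then A else (1:ℝ)) =
      ∏ p ∈ m.primeFactors.filter (fun p => p < K), A := by
    rw [Finset.prod_filter]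
  rw [h7, Finset.prod_const]
  refine pow_le_pow_right₀ hA1 ?_
  calc #(m.primeFactors.filter (fun p => p < K)) ≤ #(range K) := by
        refine Finset.card_le_card ?_
        intro p hp
        rw [Finset.mem_filter] at hp
        exact Finset.mem_range.2 hp.2
    _ = K := Finset.card_range K

end Pool.Agent.Lib.MP_3ae5b0_nt
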