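import Mathlib
import Pool.Agent.Lib.MP_6bc78b_nt.Kusmin
import Pool.Agent.Lib.MP_6bc78b_nt.VanDerCorput
import Pool.Agent.Lib.MP_6bc78b_nt.WeylDiff

set_option autoImplicit false

open Finset

namespace Pool.Agent.Lib.MP_3ae5b0_nt

open Pool.Agent.Lib.MP_6bc78b_nt

lemma norm_sum_ei_neg (s : Finset ℕ) (φ : ℕ → ℝ) :
    ‖∑ z ∈ s, ei (φ z)‖ = ‖∑ z ∈ s, ei (-(φ z))‖ := by
  have h : (starRingEnd ℂ) (∑ z ∈ s, ei (φ z)) = ∑ z ∈ s, ei (-(φ z)) := by
    rw [map_sum]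
    exact Finset.sum_congr rfl (fun z _ => conj_ei _)
  rw [← h, RCLike.norm_conj]

/-- second difference of `c / z - c / (z + r)` -/
lemma second_diff (c z r : ℝ) (hz : 0 < z) (hr : 0 ≤ r) :
    ((c / (z + 2) - c / (z + 2 + r)) - (c / (z + 1) - c / (z + 1 + r))) -
      ((c / (z + 1) - c / (z + 1 + r)) - (c / z - c / (z + r))) =
    2 * c * (((z + r) * (z + r + 1) * (z + r + 2) - z * (z + 1) * (z + 2)) /
      ((z * (z + 1) * (z + 2)) * ((z + r) * (z + r + 1) * (z + r + 2)))) := by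
  have h1 : z ≠ 0 := hz.ne'
  have h2 : z + 1 ≠ 0 := by linarith
  have h3 : z + 2 ≠ 0 := by linarith
  have h4 : z + r ≠ 0 := by linarith
  have h5 : z + r + 1 ≠ 0 := by linarith
  have h6 : z + r + 2 ≠ 0 := by linarith
  have h7 : z + 1 + r ≠ 0 := by linarith
  have h8 : z + 2 + r ≠ 0 := by linarith
  rw [show z + 1 + r = z + r + 1 by ring, show z + 2 + r = z + r + 2 by ring]
  field_simp
  ring

lemma second_diff_bounds (c Z z r : ℝ) (hc : 0 < c) (hZ : 1 ≤ Z) (hzZ : Z ≤ z) (hr : 0 ≤ r)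
    (hzr : z + r + 2 ≤ 2 * Z) :
    3 / 32 * c * r / Z ^ 4 ≤
      2 * c * (((z + r) * (z + r + 1) * (z + r + 2) - z * (z + 1) * (z + 2)) /
      ((z * (z + 1) * (z + 2)) * ((z + r) * (z + r + 1) * (z + r + 2)))) ∧
      2 * c * (((z + r) * (z + r + 1) * (z + r + 2) - z * (z + 1) * (z + 2)) /
      ((z * (z + 1) * (z + 2)) * ((z + r) * (z + r + 1) * (z + r + 2)))) ≤
      256 * (3 / 32 * c * r / Z ^ 4) := by
  have hZ0 : 0 < Z := by linarith
  have hz0 : 0 < z := by linarith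
  set A := z * (z + 1) * (z + 2) with hA
  set B := (z + r) * (z + r + 1) * (z + r + 2) with hB
  have hA0 : 0 < A := by positivity
  have hB0 : 0 < B := by positivity
  have hAlo : Z ^ 3 ≤ A := by
    rw [hA]
    calc Z ^ 3 = Z * Z * Z := by ring
      _ ≤ z * (z + 1) * (z + 2) := by gcongr <;> linarith
  have hBlo : Z ^ 3 ≤ B := by
    rw [hB]
    calc Z ^ 3 = Z * Z * Z := by ring
      _ ≤ (z + r) * (z + r + 1) * (z + r + 2) := by gcongr <;> linarith
  have hAhi : A ≤ (2 * Z) ^ 3 := by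
    rw [hA]
    calc z * (z + 1) * (z + 2) ≤ (2 * Z) * (2 * Z) * (2 * Z) := by gcongr <;> linarith
      _ = (2 * Z) ^ 3 := by ring
  have hBhi : B ≤ (2 * Z) ^ 3 := by
    rw [hB]
    calc (z + r) * (z + r + 1) * (z + r + 2) ≤ (2 * Z) * (2 * Z) * (2 * Z) := by
          gcongr <;> linarith
      _ = (2 * Z) ^ 3 := by ring
  have hdiff : B - A = r * (3 * z ^ 2 + 6 * z + 2 + r * (3 * z + 3) + r ^ 2) := by
    rw [hA, hB]; ring
  have hlo : r * (3 * Z ^ 2) ≤ B - A := by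
    rw [hdiff]
    refine mul_le_mul_of_nonneg_left ?_ hr
    have : Z ^ 2 ≤ z ^ 2 := by gcongr
    have : 0 ≤ r * (3 * z + 3) := by positivity
    have : 0 ≤ r ^ 2 := by positivity
    linarith
  have hhi : B - A ≤ r * (12 * Z ^ 2) := by
    rw [hdiff]
    refine mul_le_mul_of_nonneg_left ?_ hr
    have h1 : (z + r + 2) ^ 2 ≤ (2 * Z) ^ 2 := by
      have : 0 ≤ z + r + 2 := by linarith
      gcongr
    nlinarith [mul_nonneg hr hz0.le, mul_nonneg hr hr]
  have hAB : A * B ≤ 64 * Z ^ 6 := by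
    calc A * B ≤ (2 * Z) ^ 3 * (2 * Z) ^ 3 := by gcongr
      _ = 64 * Z ^ 6 := by ring
  have hAB2 : Z ^ 6 ≤ A * B := by
    calc Z ^ 6 = Z ^ 3 * Z ^ 3 := by ring
      _ ≤ A * B := by gcongr
  constructor
  · calc 3 / 32 * c * r / Z ^ 4 = 2 * c * ((r * (3 * Z ^ 2)) / (64 * Z ^ 6)) := by
          field_simp; ring
      _ ≤ 2 * c * ((B - A) / (A * B)) := by
          refine mul_le_mul_of_nonneg_left ?_ (by positivity)
          have h0 : 0 ≤ B - A := le_trans (by positivity) hlo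
          exact div_le_div₀ h0 hlo (by positivity) hAB
  · calc 2 * c * ((B - A) / (A * B)) ≤ 2 * c * ((r * (12 * Z ^ 2)) / (Z ^ 6)) := by
          refine mul_le_mul_of_nonneg_left ?_ (by positivity)
          exact div_le_div₀ (by positivity) hhi (by positivity) hAB2
      _ = 256 * (3 / 32 * c * r / Z ^ 4) := by
          field_simp; ring

lemma sum_inv_sqrt_succ (m : ℕ) :
    ∑ r ∈ Ico 1 (m + 1), 1 / Real.sqrt r ≤ 2 * Real.sqrt m := by
  induction m with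
  | zero => simp
  | succ m ih =>
    rw [Finset.sum_Ico_succ_top (by omega)]
    have hm : (0:ℝ) ≤ m := Nat.cast_nonneg m
    have h1 : 0 ≤ Real.sqrt m := Real.sqrt_nonneg _
    have h2 : Real.sqrt m * Real.sqrt m = m := Real.mul_self_sqrt hm
    have h3 : 0 < Real.sqrt ((m + 1 : ℕ) : ℝ) := Real.sqrt_pos.2 (by positivity)
    have h4 : Real.sqrt ((m + 1 : ℕ) : ℝ) * Real.sqrt ((m + 1 : ℕ) : ℝ) = m + 1 := by
      rw [Real.mul_self_sqrt (by positivity)]; push_cast; ring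
    have h5 : Real.sqrt m ≤ Real.sqrt ((m + 1 : ℕ) : ℝ) :=
      Real.sqrt_le_sqrt (by push_cast; linarith)
    set x := Real.sqrt m with hx
    set y := Real.sqrt ((m + 1 : ℕ) : ℝ) with hy
    have h6 : 1 / y ≤ 2 * y - 2 * x := by
      rw [div_le_iff₀ h3]
      nlinarith
    linarith

lemma sum_inv_sqrt (H : ℕ) : ∑ r ∈ Ico 1 H, 1 / Real.sqrt r ≤ 2 * Real.sqrt H := by
  rcases Nat.eq_zero_or_pos H with h | h
  · subst h; simp
  · obtain ⟨m, rfl⟩ : ∃ m, H = m + 1 := ⟨H - 1, by omega⟩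
    refine le_trans (sum_inv_sqrt_succ m) ?_
    have : Real.sqrt m ≤ Real.sqrt ((m + 1 : ℕ) : ℝ) :=
      Real.sqrt_le_sqrt (by push_cast; linarith)
    linarith

/-- The bound for `∑_{Z ≤ z < 2Z} e(b z + c / z)`. -/
theorem expsum_pos (b c : ℝ) (hc : 0 < c) (Z H : ℕ) (hH : 1 ≤ H) (hHZ : H ≤ Z) :
    ‖∑ z ∈ Ico Z (2 * Z), ei (b * z + c / z)‖ ^ 2 ≤
      2 * (Z:ℝ) ^ 2 / H + 2048 * (Z:ℝ) ^ 2 * Real.sqrt (3 / 32 * c * H / (Z:ℝ) ^ 4) +
        192 * Z / Real.sqrt (3 / 32 * c * H / (Z:ℝ) ^ 4) := by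
  have hZ1 : 1 ≤ Z := le_trans hH hHZ
  have hZ1' : (1:ℝ) ≤ Z := by exact_mod_cast hZ1
  have hZ0 : (0:ℝ) < Z := by linarith
  have hH1' : (1:ℝ) ≤ H := by exact_mod_cast hH
  have hH0 : (0:ℝ) < H := by linarith
  have hHZ' : (H:ℝ) ≤ Z := by exact_mod_cast hHZ
  set M : ℝ := 3 / 32 * c * H / (Z:ℝ) ^ 4 with hM
  have hM0 : 0 < M := by positivity
  set S := ∑ z ∈ Ico Z (2 * Z), ei (b * z + c / z) with hS
  have htriv : ‖S‖ ≤ Z := by
    refine le_trans (norm_sum_le _ _) ?_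
    simp only [norm_ei, Finset.sum_const, Nat.card_Ico, nsmul_eq_mul, mul_one]
    rw [show 2 * Z - Z = Z by omega]
  by_cases hM1 : 1 < M
  · have h1 : 1 ≤ Real.sqrt M := Real.one_le_sqrt.2 hM1.le
    have h2 : ‖S‖ ^ 2 ≤ (Z:ℝ) ^ 2 := by gcongr
    have h3 : (Z:ℝ) ^ 2 ≤ 2048 * (Z:ℝ) ^ 2 * Real.sqrt M := by nlinarith [sq_nonneg (Z:ℝ)]
    have h4 : 0 ≤ 2 * (Z:ℝ) ^ 2 / H := by positivity
    have h5 : 0 ≤ 192 * Z / Real.sqrt M := by positivity
    linarith
  push Not at hM1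
  have hsM : 0 < Real.sqrt M := Real.sqrt_pos.2 hM0
  set m : ℝ := 3 / 32 * c / (Z:ℝ) ^ 4 with hm
  have hm0 : 0 < m := by positivity
  have hmM : M = m * H := by rw [hM, hm]; ring
  set B : ℕ → ℝ := fun r => 512 * Z * Real.sqrt M + 24 / Real.sqrt m * (1 / Real.sqrt r) with hB
  have hmain := weyl_vdc (fun z => b * z + c / z) Z (2 * Z) H hH hHZ (by omega) B (by
    intro r hr1 hrH
    have hr1' : (1:ℝ) ≤ r := by exact_mod_cast hr1
    have hr0 : (0:ℝ) < r := by linarith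
    have hrH' : (r:ℝ) ≤ H := by exact_mod_cast hrH.le
    rw [norm_sum_ei_neg]
    set μ : ℝ := 3 / 32 * c * r / (Z:ℝ) ^ 4 with hμ
    have hμ0 : 0 < μ := by positivity
    have hμm : μ = m * r := by rw [hμ, hm]; ring
    have hμM : μ ≤ M := by rw [hμm, hmM]; gcongr
    have key := vdc2 (fun n => -((b * ((n + r : ℕ) : ℝ) + c / ((n + r : ℕ) : ℝ)) - (b * n + c / n)))
      Z (2 * Z - r) (by omega) μ 256 hμ0 (by linarith) (by norm_num) (by
        intro n hn1 hn2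
        have hn1' : (Z:ℝ) ≤ n := by exact_mod_cast hn1
        have hn0 : (0:ℝ) < n := by linarith
        have hn2' : (n:ℝ) + r + 2 ≤ 2 * Z := by
          have : n + r + 2 ≤ 2 * Z := by omega
          exact_mod_cast this
        have e1 := second_diff c n r hn0 hr0.le
        have e2 := (second_diff_bounds c Z n r hc hZ1' hn1' hr0.le hn2').1
        rw [← e1] at e2
        refine le_trans e2 (le_of_eq ?_)
        push_cast
        ring) (by
        intro n hn1 hn2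
        have hn1' : (Z:ℝ) ≤ n := by exact_mod_cast hn1
        have hn0 : (0:ℝ) < n := by linarith
        have hn2' : (n:ℝ) + r + 2 ≤ 2 * Z := by
          have : n + r + 2 ≤ 2 * Z := by omega
          exact_mod_cast this
        have e1 := second_diff c n r hn0 hr0.le
        have e2 := (second_diff_bounds c Z n r hc hZ1' hn1' hr0.le hn2').2
        rw [← e1] at e2
        refine le_trans (le_of_eq ?_) e2
        push_cast
        ring)
    refine le_trans key ?_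
    have hsμ : 0 < Real.sqrt μ := Real.sqrt_pos.2 hμ0
    have hsμ2 : Real.sqrt μ * Real.sqrt μ = μ := Real.mul_self_sqrt hμ0.le
    have hcast : ((2 * Z - r : ℕ) : ℝ) - Z = Z - r := by
      rw [Nat.cast_sub (by omega)]; push_cast; ring
    rw [hcast]
    have h1 : (256 * μ * ((Z:ℝ) - r) / 6 + 2) * (12 / Real.sqrt μ) =
        512 * ((Z:ℝ) - r) * Real.sqrt μ + 24 / Real.sqrt μ := by
      have : μ / Real.sqrt μ = Real.sqrt μ := by
        rw [div_eq_iff hsμ.ne']; exact hsμ2.symm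
      calc (256 * μ * ((Z:ℝ) - r) / 6 + 2) * (12 / Real.sqrt μ)
          = 512 * ((Z:ℝ) - r) * (μ / Real.sqrt μ) + 24 / Real.sqrt μ := by ring
        _ = _ := by rw [this]
    rw [h1, hB]
    have h2 : Real.sqrt μ ≤ Real.sqrt M := Real.sqrt_le_sqrt hμM
    have h3 : Real.sqrt μ = Real.sqrt m * Real.sqrt r := by
      rw [hμm, Real.sqrt_mul hm0.le]
    have h4 : 24 / Real.sqrt μ = 24 / Real.sqrt m * (1 / Real.sqrt r) := by
      rw [h3]
      rw [div_mul_div_comm, mul_one]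
    rw [h4]
    have h5 : 512 * ((Z:ℝ) - r) * Real.sqrt μ ≤ 512 * Z * Real.sqrt M := by
      have : (Z:ℝ) - r ≤ Z := by linarith
      have h0 : 0 ≤ (Z:ℝ) - r := by linarith
      gcongr
    linarith)
  have hsum : ∑ r ∈ Ico 1 H, B r ≤ 512 * Z * H * Real.sqrt M + 48 * H / Real.sqrt M := by
    have hsplit : ∑ r ∈ Ico 1 H, B r = ∑ r ∈ Ico 1 H, 512 * (Z:ℝ) * Real.sqrt M +
        24 / Real.sqrt m * ∑ r ∈ Ico 1 H, 1 / Real.sqrt r := by
      rw [Finset.mul_sum, ← Finset.sum_add_distrib]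
    rw [hsplit]
    have h1 : ∑ r ∈ Ico 1 H, 512 * (Z:ℝ) * Real.sqrt M ≤ 512 * Z * H * Real.sqrt M := by
      rw [Finset.sum_const, Nat.card_Ico, nsmul_eq_mul]
      have : ((H - 1 : ℕ) : ℝ) ≤ H := by exact_mod_cast Nat.sub_le H 1
      calc ((H - 1 : ℕ) : ℝ) * (512 * Z * Real.sqrt M) ≤ H * (512 * Z * Real.sqrt M) := by gcongr
        _ = _ := by ring
    have h2 : 24 / Real.sqrt m * ∑ r ∈ Ico 1 H, 1 / Real.sqrt r ≤ 48 * H / Real.sqrt M := by
      have h3 : Real.sqrt M = Real.sqrt m * Real.sqrt H := by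
        rw [hmM, Real.sqrt_mul hm0.le]
      have hsH : 0 < Real.sqrt H := Real.sqrt_pos.2 hH0
      have hsH2 : Real.sqrt H * Real.sqrt H = H := Real.mul_self_sqrt hH0.le
      have hsm : 0 < Real.sqrt m := Real.sqrt_pos.2 hm0
      calc 24 / Real.sqrt m * ∑ r ∈ Ico 1 H, 1 / Real.sqrt r
          ≤ 24 / Real.sqrt m * (2 * Real.sqrt H) := by
            gcongr
            exact sum_inv_sqrt H
        _ = 48 * (Real.sqrt H * Real.sqrt H) / (Real.sqrt m * Real.sqrt H) := by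
            field_simp; ring
        _ = 48 * H / Real.sqrt M := by rw [hsH2, h3]
    linarith
  have hcast2 : (((2 * Z : ℕ) : ℝ) - Z) = Z := by push_cast; ring
  rw [hcast2] at hmain
  have hmain2 : ‖S‖ ^ 2 * H ≤ (2 * Z) * (Z + 2 * (512 * Z * H * Real.sqrt M + 48 * H / Real.sqrt M)) := by
    refine le_trans hmain ?_
    have h0 : 0 ≤ ∑ r ∈ Ico 1 H, B r := by
      refine Finset.sum_nonneg (fun r _ => ?_)
      rw [hB]; positivity
    have h1 : (Z:ℝ) + H ≤ 2 * Z := by linarith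
    gcongr
  have h6 : ‖S‖ ^ 2 ≤ ((2 * Z) * (Z + 2 * (512 * Z * H * Real.sqrt M + 48 * H / Real.sqrt M))) / H := by
    rw [le_div_iff₀ hH0]; exact hmain2
  refine le_trans h6 (le_of_eq ?_)
  field_simp
  ring

end Pool.Agent.Lib.MP_3ae5b0_nt
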