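import Mathlib
import Pool.Agent.Lib.MP_6bc78b_nt.Kusmin

set_option autoImplicit false

open Finset

namespace Pool.Agent.Lib.MP_3ae5b0_nt

open Pool.Agent.Lib.MP_6bc78b_nt

/-- Gaussian weight. -/
noncomputable def gw (a v : ℝ) (D : ℤ) : ℝ := Real.exp (-Real.pi * a * ((D : ℝ) - v) ^ 2)

lemma gw_pos (a v : ℝ) (D : ℤ) : 0 < gw a v D := Real.exp_pos _

lemma summable_gw (a v : ℝ) (ha : 0 < a) : Summable (gw a v) := by
  have h := HurwitzKernelBounds.summable_f_int 0 (-v) ha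
  refine h.congr (fun n => ?_)
  unfold gw HurwitzKernelBounds.f_int
  rw [pow_zero, one_mul]
  congr 1
  ring

lemma summable_gw_mul (a v : ℝ) (ha : 0 < a) (f : ℤ → ℂ) (hf : ∀ D, ‖f D‖ ≤ 1) :
    Summable (fun D => (gw a v D : ℂ) * f D) := by
  refine Summable.of_norm_bounded (summable_gw a v ha) (fun D => ?_)
  rw [norm_mul, Complex.norm_real, Real.norm_eq_abs, abs_of_pos (gw_pos _ _ _)]
  calc gw a v D * ‖f D‖ ≤ gw a v D * 1 := by
        gcongr
        · exact (gw_pos _ _ _).le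
        · exact hf D
    _ = gw a v D := mul_one _

/-- Poisson summation for a shifted, twisted Gaussian. -/
lemma poisson_gw (a v α : ℝ) (ha : 0 < a) :
    ∑' D : ℤ, (gw a v D : ℂ) * ei (2 * Real.pi * α * D) =
      ((1 / Real.sqrt a : ℝ) : ℂ) *
        ∑' l : ℤ, (gw (1 / a) α l : ℂ) * ei (2 * Real.pi * (α - l) * v) := by
  have ha' : 0 < ((a : ℂ)).re := by simpa using ha
  have key := Complex.tsum_exp_neg_quadratic ha' (((a * v : ℝ) : ℂ) + Complex.I * (α : ℂ))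
  have haC : (a : ℂ) ≠ 0 := by exact_mod_cast ha.ne'
  have hE : Complex.exp (((Real.pi * a * v ^ 2 : ℝ)) : ℂ) ≠ 0 := Complex.exp_ne_zero _
  have hL : ∀ n : ℤ, Complex.exp (-↑Real.pi * a * ↑n ^ 2 +
      2 * ↑Real.pi * (((a * v : ℝ) : ℂ) + Complex.I * (α : ℂ)) * ↑n) =
      Complex.exp (((Real.pi * a * v ^ 2 : ℝ)) : ℂ) *
        ((gw a v n : ℂ) * ei (2 * Real.pi * α * n)) := by
    intro n
    unfold gw ei
    rw [Complex.ofReal_exp, ← Complex.exp_add, ← Complex.exp_add]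
    congr 1
    push_cast
    ring
  have hR : ∀ n : ℤ, Complex.exp (-↑Real.pi / a * (↑n + Complex.I *
      (((a * v : ℝ) : ℂ) + Complex.I * (α : ℂ))) ^ 2) =
      Complex.exp (((Real.pi * a * v ^ 2 : ℝ)) : ℂ) *
        ((gw (1 / a) α n : ℂ) * ei (2 * Real.pi * (α - n) * v)) := by
    intro n
    unfold gw ei
    rw [Complex.ofReal_exp, ← Complex.exp_add, ← Complex.exp_add]
    congr 1
    push_cast
    have e : (↑n + Complex.I * ((a:ℂ) * v + Complex.I * (α : ℂ))) =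
      (n - α) + Complex.I * (a * v) := by
      linear_combination (α : ℂ) * Complex.I_sq
    rw [e]
    have e2 : ((n:ℂ) - α + Complex.I * (a * v)) ^ 2 =
      ((n:ℂ) - α) ^ 2 + 2 * Complex.I * (a * v) * (n - α) - a ^ 2 * v ^ 2 := by
      linear_combination ((a:ℂ) * v) ^ 2 * Complex.I_sq
    rw [e2]
    field_simp
    ring
  simp_rw [hL, hR] at key
  rw [tsum_mul_left, tsum_mul_left] at key
  have hs : (1 / (a : ℂ) ^ (1 / 2 : ℂ)) = ((1 / Real.sqrt a : ℝ) : ℂ) := by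
    rw [Real.sqrt_eq_rpow]
    push_cast
    rw [Complex.ofReal_cpow ha.le]
    push_cast
    rfl
  rw [hs] at key
  apply mul_left_cancel₀ hE
  rw [key]
  ring

end Pool.Agent.Lib.MP_3ae5b0_nt
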