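import Mathlib
import Pool.Agent.Lib.MP_6bc78b_nt.Kusmin
import Pool.Agent.Lib.MP_3ae5b0_nt.Gauss
import Pool.Agent.Lib.MP_3ae5b0_nt.ExpSum

set_option autoImplicit false

open Finset

namespace Pool.Agent.Lib.MP_3ae5b0_nt

open Pool.Agent.Lib.MP_6bc78b_nt

/-- An absolute constant: the sum of the Gaussian over the integers. -/
noncomputable def cG : ℝ := ∑' D : ℤ, gw 1 0 D

lemma cG_pos : 0 < cG :=
  (summable_gw 1 0 one_pos).tsum_pos (fun _ => (gw_pos _ _ _).le) 0 (gw_pos _ _ _)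

/-- Uniform bound for `τ ∑ exp(-π τ² (l-α)²)`. -/
lemma tau_sum_le (τ α : ℝ) (hτ : 0 < τ) (hτ1 : τ ≤ 1) :
    τ * ∑' l : ℤ, gw (τ ^ 2) α l ≤ cG := by
  have ha : 0 < 1 / τ ^ 2 := by positivity
  have h := poisson_gw (1 / τ ^ 2) 0 α ha
  rw [one_div_one_div] at h
  have h1 : ∀ l : ℤ, (gw (τ ^ 2) α l : ℂ) * ei (2 * Real.pi * (α - l) * 0) =
      ((gw (τ ^ 2) α l : ℝ) : ℂ) := by
    intro l
    rw [mul_zero]
    unfold ei
    simp
  simp_rw [h1] at h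
  rw [← Complex.ofReal_tsum] at h
  have h2 : 1 / Real.sqrt (1 / τ ^ 2) = τ := by
    rw [Real.sqrt_div (by norm_num), Real.sqrt_one, Real.sqrt_sq hτ.le, one_div_one_div]
  rw [h2, ← Complex.ofReal_mul] at h
  have h3 : ‖∑' D : ℤ, (gw (1 / τ ^ 2) 0 D : ℂ) * ei (2 * Real.pi * α * D)‖ ≤
      ∑' D : ℤ, gw (1 / τ ^ 2) 0 D := by
    have hn : ∀ D : ℤ, ‖(gw (1 / τ ^ 2) 0 D : ℂ) * ei (2 * Real.pi * α * D)‖ =
        gw (1 / τ ^ 2) 0 D := by
      intro D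
      rw [norm_mul, norm_ei, mul_one, Complex.norm_real, Real.norm_eq_abs,
        abs_of_pos (gw_pos _ _ _)]
    have := norm_tsum_le_tsum_norm (f := fun D : ℤ =>
      (gw (1 / τ ^ 2) 0 D : ℂ) * ei (2 * Real.pi * α * D)) (by
        simp_rw [hn]; exact summable_gw _ _ ha)
    simp_rw [hn] at this
    exact this
  rw [h, Complex.norm_real, Real.norm_eq_abs] at h3
  refine le_trans (le_abs_self _) (le_trans h3 ?_)
  unfold cG
  refine (summable_gw _ _ ha).tsum_le_tsum (fun D => ?_) (summable_gw 1 0 one_pos)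
  unfold gw
  apply Real.exp_le_exp.2
  have h4 : 1 ≤ 1 / τ ^ 2 := by
    rw [le_div_iff₀ (by positivity)]
    nlinarith
  have h5 : 0 ≤ Real.pi * ((D:ℝ) - 0) ^ 2 := by positivity
  nlinarith

/-- fourth root -/
noncomputable def qr (x : ℝ) : ℝ := Real.sqrt (Real.sqrt x)

lemma qr_nonneg (x : ℝ) : 0 ≤ qr x := Real.sqrt_nonneg _

lemma qr_pos {x : ℝ} (hx : 0 < x) : 0 < qr x := Real.sqrt_pos.2 (Real.sqrt_pos.2 hx)

lemma qr_sq (x : ℝ) : qr x ^ 2 = Real.sqrt x := by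
  unfold qr; exact Real.sq_sqrt (Real.sqrt_nonneg _)

lemma qr_mul {x : ℝ} (hx : 0 ≤ x) (y : ℝ) : qr (x * y) = qr x * qr y := by
  unfold qr
  rw [Real.sqrt_mul hx, Real.sqrt_mul (Real.sqrt_nonneg _)]

lemma qr_mono {x y : ℝ} (h : x ≤ y) : qr x ≤ qr y :=
  Real.sqrt_le_sqrt (Real.sqrt_le_sqrt h)

lemma qr_le_exp {u : ℝ} (_hu : 0 ≤ u) : qr u ≤ Real.exp (Real.pi / 2 * u ^ 2) := by
  have h1 : qr u ≤ 1 + u ^ 2 := by
    unfold qr
    rw [Real.sqrt_le_left (by positivity), Real.sqrt_le_left (by positivity)]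
    nlinarith [sq_nonneg (u - 1), sq_nonneg (u ^ 2), sq_nonneg (u ^ 2 + 1), sq_nonneg (u^2 + u)]
  have h2 : u ^ 2 + 1 ≤ Real.exp (u ^ 2) := Real.add_one_le_exp _
  have h3 : Real.exp (u ^ 2) ≤ Real.exp (Real.pi / 2 * u ^ 2) := by
    apply Real.exp_le_exp.2
    have : 1 ≤ Real.pi / 2 := by linarith [Real.pi_gt_three]
    nlinarith [sq_nonneg u]
  linarith

/-- Uniform bound for the sum with a fourth root inserted. -/
lemma tau_sum_qr_le (τ α : ℝ) (hτ : 0 < τ) (hτ1 : τ ≤ 1) :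
    Summable (fun l : ℤ => gw (τ ^ 2) α l * qr |α - l|) ∧
    τ * ∑' l : ℤ, gw (τ ^ 2) α l * qr |α - l| ≤ 2 * cG / qr τ := by
  have hs2 : Real.sqrt 2 * Real.sqrt 2 = 2 := Real.mul_self_sqrt (by norm_num)
  have hs1 : 1 ≤ Real.sqrt 2 := Real.one_le_sqrt.2 (by norm_num)
  have hs0 : 0 < Real.sqrt 2 := by linarith
  set σ := τ / Real.sqrt 2 with hσ
  have hσ0 : 0 < σ := by positivity
  have hσ1 : σ ≤ 1 := by
    rw [hσ, div_le_one hs0]; linarith
  have hσ2 : σ ^ 2 = τ ^ 2 / 2 := by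
    rw [hσ, div_pow, Real.sq_sqrt (by norm_num)]
  have hq := qr_pos hτ
  have hterm : ∀ l : ℤ, gw (τ ^ 2) α l * qr |α - l| ≤ (1 / qr τ) * gw (σ ^ 2) α l := by
    intro l
    have h1 : qr τ * qr |α - l| = qr (τ * |α - l|) := (qr_mul hτ.le _).symm
    have h2 : qr (τ * |α - l|) ≤ Real.exp (Real.pi / 2 * (τ * |α - l|) ^ 2) :=
      qr_le_exp (by positivity)
    have h3 : gw (τ ^ 2) α l * Real.exp (Real.pi / 2 * (τ * |α - l|) ^ 2) = gw (σ ^ 2) α l := by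
      unfold gw
      rw [← Real.exp_add, hσ2]
      congr 1
      rw [mul_pow, sq_abs]
      ring
    have h4 : gw (τ ^ 2) α l * (qr τ * qr |α - l|) ≤ gw (σ ^ 2) α l := by
      rw [h1, ← h3]
      exact mul_le_mul_of_nonneg_left h2 (gw_pos _ _ _).le
    rw [one_div, ← div_eq_inv_mul, le_div_iff₀ hq]
    calc gw (τ ^ 2) α l * qr |α - l| * qr τ = gw (τ ^ 2) α l * (qr τ * qr |α - l|) := by ring
      _ ≤ _ := h4
  have hsum : Summable (fun l : ℤ => gw (τ ^ 2) α l * qr |α - l|) :=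
    Summable.of_nonneg_of_le (fun l => mul_nonneg (gw_pos _ _ _).le (qr_nonneg _)) hterm
      ((summable_gw (σ ^ 2) α (by positivity)).mul_left _)
  refine ⟨hsum, ?_⟩
  have h5 := hsum.tsum_le_tsum hterm ((summable_gw (σ ^ 2) α (by positivity)).mul_left _)
  rw [tsum_mul_left] at h5
  have h6 := tau_sum_le σ α hσ0 hσ1
  have h7 : τ = Real.sqrt 2 * σ := by rw [hσ]; field_simp
  have h8 : τ * ∑' l : ℤ, gw (σ ^ 2) α l ≤ 2 * cG := by
    rw [h7, mul_assoc]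
    have : Real.sqrt 2 ≤ 2 := by nlinarith
    have hp : 0 ≤ σ * ∑' l : ℤ, gw (σ ^ 2) α l :=
      mul_nonneg hσ0.le (tsum_nonneg (fun l => (gw_pos _ _ _).le))
    calc Real.sqrt 2 * (σ * ∑' l : ℤ, gw (σ ^ 2) α l) ≤ 2 * (σ * ∑' l : ℤ, gw (σ ^ 2) α l) := by
          gcongr
      _ ≤ 2 * cG := by gcongr
  calc τ * ∑' l : ℤ, gw (τ ^ 2) α l * qr |α - l|
      ≤ τ * (1 / qr τ * ∑' l : ℤ, gw (σ ^ 2) α l) := by gcongr
    _ = (1 / qr τ) * (τ * ∑' l : ℤ, gw (σ ^ 2) α l) := by ring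
    _ ≤ (1 / qr τ) * (2 * cG) := by gcongr
    _ = 2 * cG / qr τ := by ring

/-- The parameter `m₀ = (3/32) 2π T H / Z⁴`. -/
noncomputable def m0 (T : ℝ) (Z H : ℕ) : ℝ := 3 / 32 * (2 * Real.pi * T) * H / (Z:ℝ) ^ 4

noncomputable def A1 (Z H : ℕ) : ℝ := 2 * Z / Real.sqrt H
noncomputable def A2 (T : ℝ) (Z H : ℕ) : ℝ := 46 * Z * qr (m0 T Z H)
noncomputable def A3 (T : ℝ) (Z H : ℕ) : ℝ := 14 * Real.sqrt Z / qr (m0 T Z H)

lemma norm_swap (β c : ℝ) (s : Finset ℕ) :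
    ‖∑ z ∈ s, ei (β * z + c / z)‖ = ‖∑ z ∈ s, ei ((-β) * z + (-c) / z)‖ := by
  rw [norm_sum_ei_neg]
  congr 1
  refine Finset.sum_congr rfl (fun z _ => ?_)
  congr 1
  ring

lemma esum_bound (T β γ : ℝ) (hT : 0 < T) (Z H : ℕ) (hH : 1 ≤ H) (hHZ : H ≤ Z) (hγ : γ ≠ 0) :
    ‖∑ z ∈ Ico Z (2 * Z), ei (2 * Real.pi * (β * z + γ * (T / z)))‖ ≤
      A1 Z H + A2 T Z H * qr |γ| + A3 T Z H / qr |γ| := by
  have hZ1 : 1 ≤ Z := le_trans hH hHZ
  have hZ0 : (0:ℝ) < Z := by exact_mod_cast hZ1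
  have hH0 : (0:ℝ) < H := by exact_mod_cast hH
  have hg : 0 < |γ| := abs_pos.2 hγ
  have hm0 : 0 < m0 T Z H := by unfold m0; positivity
  set c : ℝ := 2 * Real.pi * T * |γ| with hc
  have hc0 : 0 < c := by positivity
  have hM : 3 / 32 * c * H / (Z:ℝ) ^ 4 = m0 T Z H * |γ| := by
    rw [hc]; unfold m0; ring
  have hbound : ∀ b : ℝ, ‖∑ z ∈ Ico Z (2 * Z), ei (b * z + c / z)‖ ≤
      A1 Z H + A2 T Z H * qr |γ| + A3 T Z H / qr |γ| := by
    intro b
    have h := expsum_pos b c hc0 Z H hH hHZ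
    rw [hM] at h
    set x := ‖∑ z ∈ Ico Z (2 * Z), ei (b * z + c / z)‖ with hx
    have hq1 : 0 < qr (m0 T Z H) := qr_pos hm0
    have hq2 : 0 < qr |γ| := qr_pos hg
    have hsq : Real.sqrt (m0 T Z H * |γ|) = (qr (m0 T Z H) * qr |γ|) ^ 2 := by
      rw [← qr_mul hm0.le, qr_sq]
    rw [hsq] at h
    have ha : 0 ≤ A1 Z H := by unfold A1; positivity
    have hb : 0 ≤ A2 T Z H * qr |γ| := by unfold A2; positivity
    have hc' : 0 ≤ A3 T Z H / qr |γ| := by unfold A3; positivity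
    have h1 : 2 * (Z:ℝ) ^ 2 / H ≤ A1 Z H ^ 2 := by
      unfold A1
      rw [div_pow, Real.sq_sqrt hH0.le, mul_pow]
      gcongr
      norm_num
    have h2 : 2048 * (Z:ℝ) ^ 2 * (qr (m0 T Z H) * qr |γ|) ^ 2 ≤ (A2 T Z H * qr |γ|) ^ 2 := by
      unfold A2
      have : 0 ≤ (Z:ℝ) ^ 2 * (qr (m0 T Z H) * qr |γ|) ^ 2 := by positivity
      nlinarith
    have h3 : 192 * (Z:ℝ) / (qr (m0 T Z H) * qr |γ|) ^ 2 ≤ (A3 T Z H / qr |γ|) ^ 2 := by
      have e : (14 * Real.sqrt (Z:ℝ)) ^ 2 = 196 * Z := by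
        rw [mul_pow, Real.sq_sqrt hZ0.le]; norm_num
      unfold A3
      rw [div_div, div_pow, e]
      gcongr
      norm_num
    have h4 : x ^ 2 ≤ (A1 Z H + A2 T Z H * qr |γ| + A3 T Z H / qr |γ|) ^ 2 := by
      nlinarith [mul_nonneg ha hb, mul_nonneg ha hc', mul_nonneg hb hc']
    exact le_of_sq_le_sq h4 (by positivity)
  rcases lt_or_gt_of_ne hγ with h | h
  · have e : ∑ z ∈ Ico Z (2 * Z), ei (2 * Real.pi * (β * z + γ * (T / z))) =
        ∑ z ∈ Ico Z (2 * Z), ei ((2 * Real.pi * β) * z + (-c) / z) := by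
      refine Finset.sum_congr rfl (fun z _ => ?_)
      congr 1
      rw [hc, abs_of_neg h]; ring
    rw [e, norm_swap, neg_neg]
    exact hbound _
  · have e : ∑ z ∈ Ico Z (2 * Z), ei (2 * Real.pi * (β * z + γ * (T / z))) =
        ∑ z ∈ Ico Z (2 * Z), ei ((2 * Real.pi * β) * z + c / z) := by
      refine Finset.sum_congr rfl (fun z _ => ?_)
      congr 1
      rw [hc, abs_of_pos h]; ring
    rw [e]
    exact hbound _

/-- The kernel of the dual form. -/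
noncomputable def Ker (T τ : ℝ) (Z : ℕ) (α β : ℝ) : ℂ :=
  ∑ z ∈ Ico Z (2 * Z), ∑' D : ℤ, (gw (1 / τ ^ 2) (T / z) D : ℂ) *
    ei (2 * Real.pi * (β * z + α * D))

lemma Ker_eq (T τ : ℝ) (hτ : 0 < τ) (Z : ℕ) (α β : ℝ) :
    Ker T τ Z α β = (τ : ℂ) * ∑' l : ℤ, (gw (τ ^ 2) α l : ℂ) *
      ∑ z ∈ Ico Z (2 * Z), ei (2 * Real.pi * (β * z + (α - l) * (T / z))) := by
  have ha : 0 < 1 / τ ^ 2 := by positivity
  have hat : 0 < τ ^ 2 := by positivity
  have h2 : 1 / Real.sqrt (1 / τ ^ 2) = τ := by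
    rw [Real.sqrt_div (by norm_num), Real.sqrt_one, Real.sqrt_sq hτ.le, one_div_one_div]
  unfold Ker
  have h3 : ∀ z ∈ Ico Z (2 * Z), ∑' D : ℤ, (gw (1 / τ ^ 2) (T / z) D : ℂ) *
      ei (2 * Real.pi * (β * z + α * D)) = (τ : ℂ) * ∑' l : ℤ, (gw (τ ^ 2) α l : ℂ) *
        ei (2 * Real.pi * (β * z + (α - l) * (T / z))) := by
    intro z _
    have h4 : ∀ D : ℤ, (gw (1 / τ ^ 2) (T / z) D : ℂ) * ei (2 * Real.pi * (β * z + α * D)) =
        ei (2 * Real.pi * (β * z)) * ((gw (1 / τ ^ 2) (T / z) D : ℂ) *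
          ei (2 * Real.pi * α * D)) := by
      intro D
      rw [show 2 * Real.pi * (β * z + α * D) = 2 * Real.pi * (β * z) + 2 * Real.pi * α * D by ring,
        ei_add]
      ring
    simp_rw [h4]
    rw [tsum_mul_left, poisson_gw _ _ _ ha, h2, one_div_one_div]
    rw [← mul_assoc, mul_comm (ei _) (τ : ℂ), mul_assoc, ← tsum_mul_left]
    congr 1
    refine tsum_congr (fun l => ?_)
    rw [show 2 * Real.pi * (β * z + (α - l) * (T / z)) = 2 * Real.pi * (β * z) +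
      2 * Real.pi * (α - l) * (T / z) by ring, ei_add]
    ring
  rw [Finset.sum_congr rfl h3, ← Finset.mul_sum]
  congr 1
  rw [← Summable.tsum_finsetSum]
  · refine tsum_congr (fun l => ?_)
    rw [Finset.mul_sum]
  · intro z _
    exact summable_gw_mul _ _ hat _ (fun l => (norm_ei _).le)

lemma esum_triv (Z : ℕ) (f : ℕ → ℝ) : ‖∑ z ∈ Ico Z (2 * Z), ei (f z)‖ ≤ Z := by
  refine le_trans (norm_sum_le _ _) ?_
  simp only [norm_ei, Finset.sum_const, Nat.card_Ico, nsmul_eq_mul, mul_one]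
  rw [show 2 * Z - Z = Z by omega]

/-- Bound of the kernel away from the integers, and with the zero frequency separated. -/
lemma Ker_bound (T τ : ℝ) (hT : 0 < T) (hτ : 0 < τ) (hτ1 : τ ≤ 1) (Z H : ℕ) (hH : 1 ≤ H)
    (hHZ : H ≤ Z) (α β δ W : ℝ) (hδ : 0 < δ) (hW : 0 ≤ W)
    (h : ∀ l : ℤ, δ ≤ |α - l| ∨
      (α - l = 0 ∧ ‖∑ z ∈ Ico Z (2 * Z), ei (2 * Real.pi * (β * z))‖ ≤ W)) :
    ‖Ker T τ Z α β‖ ≤ cG * A1 Z H + 2 * cG * A2 T Z H / qr τ + cG * A3 T Z H / qr δ + τ * W := by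
  have hZ1 : 1 ≤ Z := le_trans hH hHZ
  have hZ0 : (0:ℝ) < Z := by exact_mod_cast hZ1
  have hH0 : (0:ℝ) < H := by exact_mod_cast hH
  have hat : 0 < τ ^ 2 := by positivity
  have hA1 : 0 ≤ A1 Z H := by unfold A1; positivity
  have hm0 : 0 < m0 T Z H := by unfold m0; positivity
  have hA2 : 0 ≤ A2 T Z H := by
    unfold A2; exact mul_nonneg (by positivity) (qr_nonneg _)
  have hA3 : 0 ≤ A3 T Z H := by
    unfold A3; exact div_nonneg (by positivity) (qr_nonneg _)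
  have hqδ := qr_pos hδ
  set S : ℤ → ℂ := fun l => ∑ z ∈ Ico Z (2 * Z), ei (2 * Real.pi * (β * z + (α - l) * (T / z)))
    with hS
  have hgs : Summable (gw (τ ^ 2) α) := summable_gw _ _ hat
  obtain ⟨hqs, hqb⟩ := tau_sum_qr_le τ α hτ hτ1
  have hnorm : ∀ l : ℤ, ‖(gw (τ ^ 2) α l : ℂ) * S l‖ = gw (τ ^ 2) α l * ‖S l‖ := by
    intro l
    rw [norm_mul, Complex.norm_real, Real.norm_eq_abs, abs_of_pos (gw_pos _ _ _)]
  have hsummable : Summable (fun l : ℤ => gw (τ ^ 2) α l * ‖S l‖) := by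
    refine Summable.of_nonneg_of_le (fun l => mul_nonneg (gw_pos _ _ _).le (norm_nonneg _)) ?_
      (hgs.mul_right (Z:ℝ))
    intro l
    exact mul_le_mul_of_nonneg_left (esum_triv Z _) (gw_pos _ _ _).le
  have hKer : ‖Ker T τ Z α β‖ ≤ τ * ∑' l : ℤ, gw (τ ^ 2) α l * ‖S l‖ := by
    rw [Ker_eq T τ hτ, norm_mul, Complex.norm_real, Real.norm_eq_abs, abs_of_pos hτ]
    refine mul_le_mul_of_nonneg_left ?_ hτ.le
    have h1 := norm_tsum_le_tsum_norm (f := fun l : ℤ => (gw (τ ^ 2) α l : ℂ) * S l) (by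
      simp_rw [hnorm]; exact hsummable)
    simp_rw [hnorm] at h1
    exact h1
  refine le_trans hKer ?_
  -- the pointwise bound
  obtain ⟨g, hgsum, hgle, hg⟩ : ∃ g : ℤ → ℝ, Summable g ∧ ∑' l, g l ≤ W ∧
      ∀ l, gw (τ ^ 2) α l * ‖S l‖ ≤ (A1 Z H + A3 T Z H / qr δ) * gw (τ ^ 2) α l +
        A2 T Z H * (gw (τ ^ 2) α l * qr |α - l|) + g l := by
    have hcase : ∀ l : ℤ, δ ≤ |α - l| → gw (τ ^ 2) α l * ‖S l‖ ≤
        (A1 Z H + A3 T Z H / qr δ) * gw (τ ^ 2) α l +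
        A2 T Z H * (gw (τ ^ 2) α l * qr |α - l|) := by
      intro l hl
      have hne : α - l ≠ 0 := by
        intro h0
        rw [h0, abs_zero] at hl
        linarith
      have h1 := esum_bound T β (α - l) hT Z H hH hHZ hne
      have h2 : A3 T Z H / qr |α - l| ≤ A3 T Z H / qr δ :=
        div_le_div_of_nonneg_left hA3 hqδ (qr_mono hl)
      have h3 : ‖S l‖ ≤ A1 Z H + A2 T Z H * qr |α - l| + A3 T Z H / qr δ := by
        rw [hS]; linarith
      calc gw (τ ^ 2) α l * ‖S l‖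
          ≤ gw (τ ^ 2) α l * (A1 Z H + A2 T Z H * qr |α - l| + A3 T Z H / qr δ) :=
            mul_le_mul_of_nonneg_left h3 (gw_pos _ _ _).le
        _ = _ := by ring
    by_cases hint : ∃ l₀ : ℤ, α = l₀
    · obtain ⟨l₀, hl₀⟩ := hint
      refine ⟨fun l => if l = l₀ then W else 0, ?_, ?_, ?_⟩
      · exact (hasSum_ite_eq l₀ W).summable
      · rw [tsum_ite_eq]
      · intro l
        by_cases hl : l = l₀
        · simp only [hl, if_true]
          rcases h l₀ with h1 | ⟨h1, h2⟩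
          · have := hcase l₀ h1
            linarith
          · have h3 : gw (τ ^ 2) α l₀ = 1 := by
              unfold gw
              rw [hl₀, sub_self]
              simp
            have h4 : ‖S l₀‖ ≤ W := by
              refine le_trans (le_of_eq ?_) h2
              rw [hS]
              simp only [h1, zero_mul, add_zero]
            have h5 : 0 ≤ (A1 Z H + A3 T Z H / qr δ) * gw (τ ^ 2) α l₀ :=
              mul_nonneg (by positivity) (gw_pos _ _ _).le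
            have h6 : 0 ≤ A2 T Z H * (gw (τ ^ 2) α l₀ * qr |α - l₀|) :=
              mul_nonneg hA2 (mul_nonneg (gw_pos _ _ _).le (qr_nonneg _))
            have h7 : gw (τ ^ 2) α l₀ * ‖S l₀‖ ≤ W := by rw [h3, one_mul]; exact h4
            linarith
        · simp only [hl, if_false, add_zero]
          rcases h l with h1 | ⟨h1, _⟩
          · exact hcase l h1
          · exfalso
            apply hl
            have : (l : ℝ) = (l₀ : ℝ) := by rw [← hl₀]; linarith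
            exact_mod_cast this
    · refine ⟨fun _ => 0, summable_zero, by simpa using hW, ?_⟩
      intro l
      rcases h l with h1 | ⟨h1, _⟩
      · have := hcase l h1
        linarith
      · exact absurd ⟨l, by linarith⟩ hint
  have hs1 : Summable (fun l : ℤ => (A1 Z H + A3 T Z H / qr δ) * gw (τ ^ 2) α l) :=
    hgs.mul_left _
  have hs2 : Summable (fun l : ℤ => A2 T Z H * (gw (τ ^ 2) α l * qr |α - l|)) :=
    hqs.mul_left _
  have hle := hsummable.tsum_le_tsum hg ((hs1.add hs2).add hgsum)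
  rw [(hs1.add hs2).tsum_add hgsum, hs1.tsum_add hs2, tsum_mul_left, tsum_mul_left] at hle
  have hG := tau_sum_le τ α hτ hτ1
  calc τ * ∑' l : ℤ, gw (τ ^ 2) α l * ‖S l‖
      ≤ τ * ((A1 Z H + A3 T Z H / qr δ) * ∑' l : ℤ, gw (τ ^ 2) α l +
        A2 T Z H * ∑' l : ℤ, gw (τ ^ 2) α l * qr |α - l| + ∑' l, g l) := by gcongr
    _ = (A1 Z H + A3 T Z H / qr δ) * (τ * ∑' l : ℤ, gw (τ ^ 2) α l) +
        A2 T Z H * (τ * ∑' l : ℤ, gw (τ ^ 2) α l * qr |α - l|) + τ * ∑' l, g l := by ring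
    _ ≤ (A1 Z H + A3 T Z H / qr δ) * cG + A2 T Z H * (2 * cG / qr τ) + τ * W := by
        gcongr
    _ = _ := by ring

end Pool.Agent.Lib.MP_3ae5b0_nt
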