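import Mathlib
import Pool.Agent.Lib.MP_6bc78b_nt.Kusmin
import Pool.Agent.Lib.MP_3ae5b0_nt.Kernel

set_option autoImplicit false

open Finset

open scoped ComplexConjugate

namespace Pool.Agent.Lib.MP_3ae5b0_nt

open Pool.Agent.Lib.MP_6bc78b_nt

lemma ei_mul_conj (x y : ℝ) : ei x * conj (ei y) = ei (x - y) := by
  rw [conj_ei, ← ei_add]; congr 1

/-- trigonometric polynomial attached to coefficients. -/
noncomputable def tp {ι : Type*} (R : Finset ι) (α β : ι → ℝ) (c : ι → ℂ) (z : ℕ) (D : ℤ) : ℂ :=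
  ∑ r ∈ R, c r * ei (2 * Real.pi * (β r * z + α r * D))

lemma tp_norm_sq {ι : Type*} (R : Finset ι) (α β : ι → ℝ) (c : ι → ℂ) (z : ℕ) (D : ℤ) :
    ((‖tp R α β c z D‖ ^ 2 : ℝ) : ℂ) = ∑ r ∈ R, ∑ r' ∈ R, c r * conj (c r') *
      ei (2 * Real.pi * ((β r - β r') * z + (α r - α r') * D)) := by
  rw [← Complex.normSq_eq_norm_sq, ← Complex.mul_conj]
  unfold tp
  rw [map_sum, Finset.sum_mul_sum]
  refine Finset.sum_congr rfl (fun r _ => Finset.sum_congr rfl (fun r' _ => ?_))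
  rw [map_mul, mul_mul_mul_comm, ei_mul_conj]
  congr 2
  ring

lemma quad_form {ι : Type*} (T τ : ℝ) (hτ : 0 < τ) (Z : ℕ) (R : Finset ι) (α β : ι → ℝ)
    (c : ι → ℂ) :
    ((∑ z ∈ Ico Z (2 * Z), ∑' D : ℤ, gw (1 / τ ^ 2) (T / z) D * ‖tp R α β c z D‖ ^ 2 : ℝ) : ℂ) =
      ∑ r ∈ R, ∑ r' ∈ R, c r * conj (c r') * Ker T τ Z (α r - α r') (β r - β r') := by
  have ha : 0 < 1 / τ ^ 2 := by positivity
  have hsumm : ∀ (z : ℕ) (r r' : ι), Summable (fun D : ℤ => (gw (1 / τ ^ 2) (T / z) D : ℂ) *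
      ei (2 * Real.pi * ((β r - β r') * z + (α r - α r') * D))) := by
    intro z r r'
    exact summable_gw_mul _ _ ha _ (fun l => (norm_ei _).le)
  have hz : ∀ z ∈ Ico Z (2 * Z),
      ((∑' D : ℤ, gw (1 / τ ^ 2) (T / z) D * ‖tp R α β c z D‖ ^ 2 : ℝ) : ℂ) =
      ∑ r ∈ R, ∑ r' ∈ R, c r * conj (c r') * ∑' D : ℤ, (gw (1 / τ ^ 2) (T / z) D : ℂ) *
        ei (2 * Real.pi * ((β r - β r') * z + (α r - α r') * D)) := by
    intro z _
    rw [Complex.ofReal_tsum]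
    have h1 : ∀ D : ℤ, ((gw (1 / τ ^ 2) (T / z) D * ‖tp R α β c z D‖ ^ 2 : ℝ) : ℂ) =
        ∑ r ∈ R, ∑ r' ∈ R, c r * conj (c r') * ((gw (1 / τ ^ 2) (T / z) D : ℂ) *
        ei (2 * Real.pi * ((β r - β r') * z + (α r - α r') * D))) := by
      intro D
      rw [Complex.ofReal_mul, tp_norm_sq, Finset.mul_sum]
      refine Finset.sum_congr rfl (fun r _ => ?_)
      rw [Finset.mul_sum]
      refine Finset.sum_congr rfl (fun r' _ => ?_)
      ring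
    simp_rw [h1]
    rw [Summable.tsum_finsetSum]
    · refine Finset.sum_congr rfl (fun r _ => ?_)
      rw [Summable.tsum_finsetSum]
      · refine Finset.sum_congr rfl (fun r' _ => ?_)
        rw [tsum_mul_left]
      · intro r' _
        exact (hsumm z r r').mul_left _
    · intro r _
      refine summable_sum (fun r' _ => ?_)
      exact (hsumm z r r').mul_left _
  rw [Complex.ofReal_sum, Finset.sum_congr rfl hz, Finset.sum_comm]
  refine Finset.sum_congr rfl (fun r _ => ?_)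
  rw [Finset.sum_comm]
  refine Finset.sum_congr rfl (fun r' _ => ?_)
  unfold Ker
  rw [Finset.mul_sum]

lemma summable_quad {ι : Type*} (T τ : ℝ) (hτ : 0 < τ) (R : Finset ι) (α β : ι → ℝ)
    (c : ι → ℂ) (z : ℕ) :
    Summable (fun D : ℤ => gw (1 / τ ^ 2) (T / z) D * ‖tp R α β c z D‖ ^ 2) := by
  have ha : 0 < 1 / τ ^ 2 := by positivity
  refine Summable.of_nonneg_of_le (fun D => mul_nonneg (gw_pos _ _ _).le (by positivity)) ?_
    ((summable_gw (1 / τ ^ 2) (T / z) ha).mul_right ((∑ r ∈ R, ‖c r‖) ^ 2))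
  intro D
  refine mul_le_mul_of_nonneg_left ?_ (gw_pos _ _ _).le
  have : ‖tp R α β c z D‖ ≤ ∑ r ∈ R, ‖c r‖ := by
    unfold tp
    refine le_trans (norm_sum_le _ _) (Finset.sum_le_sum (fun r _ => ?_))
    rw [norm_mul, norm_ei, mul_one]
  gcongr

/-- Dual large sieve inequality. -/
theorem large_sieve {ι : Type*} (T τ : ℝ) (hτ : 0 < τ) (Z : ℕ) (R : Finset ι) (α β : ι → ℝ)
    (Kd K0 : ℝ) (hK0 : 0 ≤ K0)
    (hd : ‖Ker T τ Z 0 0‖ ≤ Kd)
    (hoff : ∀ r ∈ R, ∀ r' ∈ R, r ≠ r' → ‖Ker T τ Z (α r - α r') (β r - β r')‖ ≤ K0)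
    (Sol : Finset (ℕ × ℤ))
    (hSol : ∀ s ∈ Sol, s.1 ∈ Ico Z (2 * Z) ∧ |(s.2 : ℝ) - T / s.1| ≤ 4 * τ) :
    ∑ r ∈ R, ‖∑ s ∈ Sol, ei (2 * Real.pi * (β r * s.1 + α r * s.2))‖ ^ 2 ≤
      Real.exp (16 * Real.pi) * (Kd + #R * K0) * #Sol := by
  classical
  set S : ι → ℂ := fun r => ∑ s ∈ Sol, ei (2 * Real.pi * (β r * s.1 + α r * s.2)) with hS
  set c : ι → ℂ := fun r => conj (S r) with hc
  set X : ℝ := ∑ r ∈ R, ‖S r‖ ^ 2 with hX
  have hX0 : 0 ≤ X := Finset.sum_nonneg (fun r _ => by positivity)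
  have hKd : 0 ≤ Kd := le_trans (norm_nonneg _) hd
  -- step 1
  have h1 : ∑ s ∈ Sol, tp R α β c s.1 s.2 = (X : ℂ) := by
    unfold tp
    rw [Finset.sum_comm, hX, Complex.ofReal_sum]
    refine Finset.sum_congr rfl (fun r _ => ?_)
    rw [← Finset.mul_sum, ← Complex.normSq_eq_norm_sq, ← Complex.mul_conj, mul_comm]
  -- step 2
  have h2 : X ^ 2 ≤ #Sol * ∑ s ∈ Sol, ‖tp R α β c s.1 s.2‖ ^ 2 := by
    have h3 : X ≤ ∑ s ∈ Sol, ‖tp R α β c s.1 s.2‖ := by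
      have := norm_sum_le Sol (fun s => tp R α β c s.1 s.2)
      rw [h1, Complex.norm_real, Real.norm_eq_abs, abs_of_nonneg hX0] at this
      exact this
    calc X ^ 2 ≤ (∑ s ∈ Sol, ‖tp R α β c s.1 s.2‖) ^ 2 := by gcongr
      _ ≤ _ := sq_sum_le_card_mul_sum_sq
  -- step 3
  have hw : ∀ s ∈ Sol, Real.exp (-(16 * Real.pi)) ≤ gw (1 / τ ^ 2) (T / s.1) s.2 := by
    intro s hs
    obtain ⟨_, h4⟩ := hSol s hs
    unfold gw
    apply Real.exp_le_exp.2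
    have h5 : ((s.2 : ℝ) - T / s.1) ^ 2 ≤ (4 * τ) ^ 2 := by
      rw [← sq_abs]; gcongr
    have h6 : Real.pi * (1 / τ ^ 2) * ((s.2 : ℝ) - T / s.1) ^ 2 ≤ 16 * Real.pi := by
      calc Real.pi * (1 / τ ^ 2) * ((s.2 : ℝ) - T / s.1) ^ 2
          ≤ Real.pi * (1 / τ ^ 2) * (4 * τ) ^ 2 := by gcongr
        _ = 16 * Real.pi := by field_simp; ring
    linarith
  have h3 : ∑ s ∈ Sol, ‖tp R α β c s.1 s.2‖ ^ 2 ≤ Real.exp (16 * Real.pi) *
      ∑ s ∈ Sol, gw (1 / τ ^ 2) (T / s.1) s.2 * ‖tp R α β c s.1 s.2‖ ^ 2 := by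
    rw [Finset.mul_sum]
    refine Finset.sum_le_sum (fun s hs => ?_)
    have h4 := hw s hs
    have h5 : 1 ≤ Real.exp (16 * Real.pi) * gw (1 / τ ^ 2) (T / s.1) s.2 := by
      calc (1:ℝ) = Real.exp (16 * Real.pi) * Real.exp (-(16 * Real.pi)) := by
            rw [← Real.exp_add]; simp
        _ ≤ _ := by gcongr
    calc ‖tp R α β c s.1 s.2‖ ^ 2 = 1 * ‖tp R α β c s.1 s.2‖ ^ 2 := (one_mul _).symm
      _ ≤ (Real.exp (16 * Real.pi) * gw (1 / τ ^ 2) (T / s.1) s.2) *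
          ‖tp R α β c s.1 s.2‖ ^ 2 := by gcongr
      _ = _ := by ring
  -- step 4
  have h4 : ∑ s ∈ Sol, gw (1 / τ ^ 2) (T / s.1) s.2 * ‖tp R α β c s.1 s.2‖ ^ 2 ≤
      ∑ z ∈ Ico Z (2 * Z), ∑' D : ℤ, gw (1 / τ ^ 2) (T / z) D * ‖tp R α β c z D‖ ^ 2 := by
    have hsub : Sol ⊆ Ico Z (2 * Z) ×ˢ (Sol.image Prod.snd) := by
      intro s hs
      rw [Finset.mem_product]
      exact ⟨(hSol s hs).1, Finset.mem_image_of_mem _ hs⟩
    refine le_trans (Finset.sum_le_sum_of_subset_of_nonneg hsub (fun s _ _ => ?_)) ?_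
    · exact mul_nonneg (gw_pos _ _ _).le (by positivity)
    rw [Finset.sum_product]
    refine Finset.sum_le_sum (fun z _ => ?_)
    exact (summable_quad T τ hτ R α β c z).sum_le_tsum _
      (fun D _ => mul_nonneg (gw_pos _ _ _).le (by positivity))
  -- step 5
  have h5 : ∑ z ∈ Ico Z (2 * Z), ∑' D : ℤ, gw (1 / τ ^ 2) (T / z) D * ‖tp R α β c z D‖ ^ 2 ≤
      (Kd + #R * K0) * X := by
    have hq := quad_form T τ hτ Z R α β c
    have hnn : 0 ≤ ∑ z ∈ Ico Z (2 * Z), ∑' D : ℤ,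
        gw (1 / τ ^ 2) (T / z) D * ‖tp R α β c z D‖ ^ 2 :=
      Finset.sum_nonneg (fun z _ => tsum_nonneg (fun D => mul_nonneg (gw_pos _ _ _).le (by positivity)))
    have h6 : ∑ z ∈ Ico Z (2 * Z), ∑' D : ℤ,
        gw (1 / τ ^ 2) (T / z) D * ‖tp R α β c z D‖ ^ 2 ≤
        ∑ r ∈ R, ∑ r' ∈ R, ‖c r‖ * ‖c r'‖ * ((if r = r' then Kd else 0) + K0) := by
      have h7 := congrArg norm hq
      rw [Complex.norm_real, Real.norm_eq_abs, abs_of_nonneg hnn] at h7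
      rw [h7]
      refine le_trans (norm_sum_le _ _) (Finset.sum_le_sum (fun r hr => ?_))
      refine le_trans (norm_sum_le _ _) (Finset.sum_le_sum (fun r' hr' => ?_))
      have hcc : ‖conj (c r')‖ = ‖c r'‖ := RCLike.norm_conj _
      rw [norm_mul, norm_mul, hcc]
      have hpos : 0 ≤ ‖c r‖ * ‖c r'‖ := by positivity
      refine mul_le_mul_of_nonneg_left ?_ hpos
      by_cases hrr : r = r'
      · subst hrr
        rw [sub_self, sub_self, if_pos rfl]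
        linarith
      · rw [if_neg hrr, zero_add]
        exact hoff r hr r' hr' hrr
    refine le_trans h6 ?_
    have h8 : ∑ r ∈ R, ∑ r' ∈ R, ‖c r‖ * ‖c r'‖ * ((if r = r' then Kd else 0) + K0) =
        Kd * ∑ r ∈ R, ‖c r‖ ^ 2 + K0 * (∑ r ∈ R, ‖c r‖) ^ 2 := by
      rw [sq (∑ r ∈ R, ‖c r‖), Finset.sum_mul_sum, Finset.mul_sum, Finset.mul_sum,
        ← Finset.sum_add_distrib]
      refine Finset.sum_congr rfl (fun r hr => ?_)
      have : ∀ r' ∈ R, ‖c r‖ * ‖c r'‖ * ((if r = r' then Kd else 0) + K0) =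
          (if r = r' then Kd * ‖c r‖ ^ 2 else 0) + K0 * (‖c r‖ * ‖c r'‖) := by
        intro r' _
        by_cases hrr : r = r'
        · subst hrr; rw [if_pos rfl, if_pos rfl]; ring
        · rw [if_neg hrr, if_neg hrr]; ring
      rw [Finset.sum_congr rfl this, Finset.sum_add_distrib, Finset.sum_ite_eq, if_pos hr,
        Finset.mul_sum]
    rw [h8]
    have h9 : ∑ r ∈ R, ‖c r‖ ^ 2 = X := by
      rw [hX]
      refine Finset.sum_congr rfl (fun r _ => ?_)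
      rw [hc, RCLike.norm_conj]
    have h10 : (∑ r ∈ R, ‖c r‖) ^ 2 ≤ #R * X := by
      rw [← h9]; exact sq_sum_le_card_mul_sum_sq
    rw [h9]
    calc Kd * X + K0 * (∑ r ∈ R, ‖c r‖) ^ 2 ≤ Kd * X + K0 * (#R * X) := by gcongr
      _ = _ := by ring
  -- conclusion
  have h6 : X ^ 2 ≤ (Real.exp (16 * Real.pi) * (Kd + #R * K0) * #Sol) * X := by
    calc X ^ 2 ≤ #Sol * ∑ s ∈ Sol, ‖tp R α β c s.1 s.2‖ ^ 2 := h2
      _ ≤ #Sol * (Real.exp (16 * Real.pi) * ((Kd + #R * K0) * X)) := by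
          gcongr
          exact le_trans h3 (by gcongr; exact le_trans h4 h5)
      _ = _ := by ring
  rcases hX0.eq_or_lt with h | h
  · rw [← h]; positivity
  · have : X * X ≤ (Real.exp (16 * Real.pi) * (Kd + #R * K0) * #Sol) * X := by
      rw [← sq]; exact h6
    exact le_of_mul_le_mul_right this h

end Pool.Agent.Lib.MP_3ae5b0_nt
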