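import Mathlib

set_option autoImplicit false

open Finset

namespace Pool.Agent.Lib.MP_3ae5b0_nt

section local_count

variable (p : ℕ) [hp : Fact p.Prime] (ν : ZMod p)

/-- The surface modulo `p`. -/
def surf : Finset (ZMod p × ZMod p × ZMod p) :=
  Finset.univ.filter (fun s => s.1 * s.2.1 * s.2.2 + s.1 + s.2.1 + s.2.2 = ν)

/-- The special pairs. -/
def spec : Finset (ZMod p × ZMod p) :=
  Finset.univ.filter (fun s => s.1 * s.2 = -1 ∧ s.1 + s.2 = ν)

lemma spec_card : #(spec p ν) ≤ 2 := by
  rcases (spec p ν).eq_empty_or_nonempty with h | ⟨⟨x, y⟩, h⟩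
  · rw [h]; simp
  · have hxy : x * y = -1 ∧ x + y = ν := by simpa [spec] using h
    have hsub : spec p ν ⊆ {(x, y), (y, x)} := by
      rintro ⟨a, b⟩ hab
      have hab' : a * b = -1 ∧ a + b = ν := by simpa [spec] using hab
      have h1 : (a - x) * (a - y) = 0 := by
        linear_combination hxy.1 - a * hxy.2 - hab'.1 + a * hab'.2
      rcases mul_eq_zero.1 h1 with h2 | h2
      · have hax : a = x := sub_eq_zero.1 h2
        have hby : b = y := by linear_combination hab'.2 - hxy.2 - hax
        simp [hax, hby]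
      · have hay : a = y := sub_eq_zero.1 h2
        have hbx : b = x := by linear_combination hab'.2 - hxy.2 - hay
        simp [hay, hbx]
    exact le_trans (Finset.card_le_card hsub) Finset.card_le_two

/-- Fibres of the surface over pairs `(x, y)`. -/
lemma fibre_card (x y : ZMod p) :
    #((surf p ν).filter (fun s => (s.1, s.2.1) = (x, y))) ≤
      1 + if (x, y) ∈ spec p ν then p else 0 := by
  classical
  by_cases h : x * y + 1 = 0
  · by_cases h2 : x + y = ν
    · have hm : (x, y) ∈ spec p ν := by
        simp only [spec, Finset.mem_filter, Finset.mem_univ, true_and]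
        exact ⟨by linear_combination h, h2⟩
      rw [if_pos hm]
      have hsub : (surf p ν).filter (fun s => (s.1, s.2.1) = (x, y)) ⊆
          (Finset.univ : Finset (ZMod p)).image (fun z => (x, y, z)) := by
        rintro ⟨a, b, c⟩ habc
        simp only [Finset.mem_filter, Prod.mk.injEq] at habc
        obtain ⟨_, rfl, rfl⟩ := habc
        exact Finset.mem_image_of_mem _ (Finset.mem_univ _)
      refine le_trans (Finset.card_le_card hsub) (le_trans Finset.card_image_le ?_)
      rw [Finset.card_univ, ZMod.card]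
      omega
    · have he : (surf p ν).filter (fun s => (s.1, s.2.1) = (x, y)) = ∅ := by
        rw [Finset.filter_eq_empty_iff]
        rintro ⟨a, b, c⟩ habc hh
        simp only [Prod.mk.injEq] at hh
        obtain ⟨rfl, rfl⟩ := hh
        simp only [surf, Finset.mem_filter, Finset.mem_univ, true_and] at habc
        apply h2
        linear_combination habc - c * h
      rw [he]; simp
  · refine le_trans ?_ (Nat.le_add_right 1 _)
    rw [Finset.card_le_one]
    rintro ⟨a, b, c⟩ h1 ⟨a', b', c'⟩ h2
    simp only [surf, Finset.mem_filter, Finset.mem_univ, true_and, Prod.mk.injEq] at h1 h2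
    obtain ⟨h1, rfl, rfl⟩ := h1
    obtain ⟨h2, rfl, rfl⟩ := h2
    have : (a' * b' + 1) * (c - c') = 0 := by linear_combination h1 - h2
    rcases mul_eq_zero.1 this with h3 | h3
    · exact absurd h3 h
    · rw [sub_eq_zero.1 h3]

lemma surf_over (P : Finset (ZMod p × ZMod p)) :
    #((surf p ν).filter (fun s => (s.1, s.2.1) ∈ P)) ≤ #P + 2 * p := by
  classical
  have hmaps : Set.MapsTo (fun s : ZMod p × ZMod p × ZMod p => (s.1, s.2.1))
      ((surf p ν).filter (fun s => (s.1, s.2.1) ∈ P) : Finset _) (P : Set (ZMod p × ZMod p)) := by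
    intro s hs
    rw [Finset.mem_coe, Finset.mem_filter] at hs
    exact hs.2
  rw [Finset.card_eq_sum_card_fiberwise hmaps]
  have h1 : ∀ q ∈ P, #(((surf p ν).filter (fun s => (s.1, s.2.1) ∈ P)).filter
      (fun s => (s.1, s.2.1) = q)) ≤ 1 + if q ∈ spec p ν then p else 0 := by
    rintro ⟨x, y⟩ _
    refine le_trans (Finset.card_le_card ?_) (fibre_card p ν x y)
    intro s hs
    simp only [Finset.mem_filter] at hs ⊢
    exact ⟨hs.1.1, hs.2⟩
  refine le_trans (Finset.sum_le_sum h1) ?_
  rw [Finset.sum_add_distrib, Finset.sum_const, smul_eq_mul, mul_one]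
  have h2 : ∑ q ∈ P, (if q ∈ spec p ν then p else 0) ≤ 2 * p := by
    rw [← Finset.sum_filter, Finset.sum_const, smul_eq_mul]
    refine Nat.mul_le_mul_right p (le_trans (Finset.card_le_card ?_) (spec_card p ν))
    intro q hq
    exact (Finset.mem_filter.1 hq).2
  omega

/-- The residue classes met by `(z, x y + 1)`. -/
def Om : Finset (ZMod p × ZMod p) := (surf p ν).image (fun s => (s.2.2, s.1 * s.2.1 + 1))

lemma Om_card : 2 * #(Om p ν) ≤ p ^ 2 + 5 * p := by
  classical
  set φ : ZMod p × ZMod p × ZMod p → ZMod p × ZMod p := fun s => (s.2.2, s.1 * s.2.1 + 1) with hφ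
  set Fx : Finset (ZMod p × ZMod p × ZMod p) := (surf p ν).filter (fun s => (s.1, s.2.1) ∈
    (Finset.univ : Finset (ZMod p)).image (fun x => (x, x))) with hFx
  have h1 : #(surf p ν) ≤ p ^ 2 + 2 * p := by
    have := surf_over p ν Finset.univ
    rw [Finset.filter_true_of_mem (fun s _ => Finset.mem_univ _), Finset.card_univ,
      Fintype.card_prod, ZMod.card, ← sq] at this
    exact this
  have h2 : #Fx ≤ 3 * p := by
    have h0 : #Fx ≤ #((Finset.univ : Finset (ZMod p)).image (fun x => (x, x))) + 2 * p :=
      surf_over p ν ((Finset.univ : Finset (ZMod p)).image (fun x => (x, x)))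
    have h3 : #((Finset.univ : Finset (ZMod p)).image (fun x => (x, x))) ≤ p := by
      refine le_trans Finset.card_image_le ?_
      rw [Finset.card_univ, ZMod.card]
    omega
  have hm1 : Set.MapsTo φ (surf p ν : Finset _) (Om p ν : Set (ZMod p × ZMod p)) := by
    intro s hs
    rw [Finset.mem_coe] at hs ⊢
    exact Finset.mem_image_of_mem _ hs
  have hm2 : Set.MapsTo φ (Fx : Set _) (Om p ν : Set (ZMod p × ZMod p)) := by
    intro s hs
    rw [Finset.mem_coe] at hs ⊢
    exact Finset.mem_image_of_mem _ (Finset.mem_filter.1 hs).1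
  have e1 := Finset.card_eq_sum_card_fiberwise hm1
  have e2 := Finset.card_eq_sum_card_fiberwise hm2
  have h3 : ∀ w ∈ Om p ν, 2 ≤ #((surf p ν).filter (fun s => φ s = w)) +
      #(Fx.filter (fun s => φ s = w)) := by
    intro w hw
    obtain ⟨⟨x, y, z⟩, hs, rfl⟩ := Finset.mem_image.1 hw
    by_cases hxy : x = y
    · have a1 : 1 ≤ #((surf p ν).filter (fun s => φ s = (z, x * y + 1))) :=
        Finset.card_pos.2 ⟨(x, y, z), Finset.mem_filter.2 ⟨hs, rfl⟩⟩
      have a2 : 1 ≤ #(Fx.filter (fun s => φ s = (z, x * y + 1))) := by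
        refine Finset.card_pos.2 ⟨(x, y, z), Finset.mem_filter.2 ⟨?_, rfl⟩⟩
        rw [hFx, Finset.mem_filter]
        refine ⟨hs, ?_⟩
        rw [Finset.mem_image]
        exact ⟨x, Finset.mem_univ _, by simp [hxy]⟩
      show 2 ≤ #((surf p ν).filter (fun s => φ s = (z, x * y + 1))) +
        #(Fx.filter (fun s => φ s = (z, x * y + 1)))
      omega
    · have a1 : 2 ≤ #((surf p ν).filter (fun s => φ s = (z, x * y + 1))) := by
        have hsub : ({(x, y, z), (y, x, z)} : Finset (ZMod p × ZMod p × ZMod p)) ⊆
            (surf p ν).filter (fun s => φ s = (z, x * y + 1)) := by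
          intro s hs'
          rw [Finset.mem_insert, Finset.mem_singleton] at hs'
          rcases hs' with rfl | rfl
          · exact Finset.mem_filter.2 ⟨hs, rfl⟩
          · refine Finset.mem_filter.2 ⟨?_, ?_⟩
            · simp only [surf, Finset.mem_filter, Finset.mem_univ, true_and] at hs ⊢
              linear_combination hs
            · simp only [hφ, Prod.mk.injEq, true_and]
              ring
        refine le_trans ?_ (Finset.card_le_card hsub)
        rw [Finset.card_pair]
        intro h
        apply hxy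
        exact (Prod.mk.inj h).1
      show 2 ≤ #((surf p ν).filter (fun s => φ s = (z, x * y + 1))) +
        #(Fx.filter (fun s => φ s = (z, x * y + 1)))
      omega
  have h4 := Finset.sum_le_sum h3
  rw [Finset.sum_add_distrib, ← e1, ← e2, Finset.sum_const, smul_eq_mul] at h4
  omega

lemma Om_card_le (h11 : 11 ≤ p) : (4:ℝ) * #(Om p ν) ≤ 3 * (p:ℝ) ^ 2 := by
  have h := Om_card p ν
  have h' : (2:ℝ) * #(Om p ν) ≤ (p:ℝ) ^ 2 + 5 * p := by exact_mod_cast h
  have h2 : (11:ℝ) ≤ p := by exact_mod_cast h11
  nlinarith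

end local_count

end Pool.Agent.Lib.MP_3ae5b0_nt
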