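import Mathlib
import Pool.Agent.Lib.MP_6bc78b_nt.Kusmin
import Pool.Agent.Lib.MP_6bc78b_nt.WeylDiff
import Pool.Agent.Lib.MP_3ae5b0_nt.Local

set_option autoImplicit false

open Finset

open scoped ComplexConjugate

namespace Pool.Agent.Lib.MP_3ae5b0_nt

open Pool.Agent.Lib.MP_6bc78b_nt

lemma ei_nat_mul (h : ℕ) (x : ℝ) : ei (h * x) = ei x ^ h := by
  unfold ei
  rw [← Complex.exp_nat_mul]
  congr 1
  push_cast
  ring

lemma ei_two_pi_int (m : ℤ) : ei (2 * Real.pi * m) = 1 := by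
  unfold ei
  rw [Complex.exp_eq_one_iff]
  exact ⟨m, by push_cast; ring⟩

/-- Orthogonality. -/
lemma ortho (p : ℕ) (hp : 0 < p) (m : ℤ) :
    ∑ h ∈ range p, ei (2 * Real.pi * ((h / p : ℝ) * m)) = if (p : ℤ) ∣ m then (p : ℂ) else 0 := by
  have hp0 : (p : ℝ) ≠ 0 := by exact_mod_cast hp.ne'
  have e : ∀ h ∈ range p, ei (2 * Real.pi * ((h / p : ℝ) * m)) = ei (2 * Real.pi * (m / p)) ^ h := by
    intro h _
    rw [← ei_nat_mul]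
    congr 1
    ring
  rw [Finset.sum_congr rfl e]
  by_cases hd : (p : ℤ) ∣ m
  · obtain ⟨k, rfl⟩ := hd
    rw [if_pos (dvd_mul_right _ _)]
    have : ei (2 * Real.pi * ((((p:ℤ) * k : ℤ) : ℝ) / p)) = 1 := by
      rw [← ei_two_pi_int k]
      congr 1
      push_cast
      field_simp
    rw [this]
    simp
  · rw [if_neg hd]
    have hne : ei (2 * Real.pi * (m / p)) ≠ 1 := by
      intro h1
      unfold ei at h1
      rw [Complex.exp_eq_one_iff] at h1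
      obtain ⟨k, hk⟩ := h1
      apply hd
      refine ⟨k, ?_⟩
      have hpi : (2 * Real.pi * Complex.I : ℂ) ≠ 0 := Complex.two_pi_I_ne_zero
      have h2 : ((m / p : ℝ) : ℂ) = k := by
        apply mul_left_cancel₀ hpi
        rw [mul_comm _ (k:ℂ), ← hk]
        push_cast
        ring
      have h3 : (m / p : ℝ) = k := by exact_mod_cast h2
      rw [div_eq_iff hp0] at h3
      have h4 : (m : ℝ) = ((p * k : ℤ) : ℝ) := by rw [h3]; push_cast; ring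
      exact_mod_cast h4
    rw [geom_sum_eq hne, ← ei_nat_mul]
    have : ei ((p:ℝ) * (2 * Real.pi * (m / p))) = 1 := by
      rw [← ei_two_pi_int m]
      congr 1
      field_simp
    rw [this, sub_self, zero_div]

/-- Parseval modulo `p`. -/
lemma parseval (p : ℕ) (hp : 0 < p) (Sol : Finset (ℕ × ℤ)) :
    ∑ h ∈ range p, ∑ k ∈ range p,
      ‖∑ s ∈ Sol, ei (2 * Real.pi * ((h / p : ℝ) * s.1 + (k / p : ℝ) * s.2))‖ ^ 2 =
    (p:ℝ) ^ 2 * #((Sol ×ˢ Sol).filter (fun t => (p:ℤ) ∣ ((t.1.1 : ℤ) - t.2.1) ∧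
      (p:ℤ) ∣ (t.1.2 - t.2.2))) := by
  classical
  have hC : ((∑ h ∈ range p, ∑ k ∈ range p,
      ‖∑ s ∈ Sol, ei (2 * Real.pi * ((h / p : ℝ) * s.1 + (k / p : ℝ) * s.2))‖ ^ 2 : ℝ) : ℂ) =
      (((p:ℝ) ^ 2 * #((Sol ×ˢ Sol).filter (fun t => (p:ℤ) ∣ ((t.1.1 : ℤ) - t.2.1) ∧
      (p:ℤ) ∣ (t.1.2 - t.2.2))) : ℝ) : ℂ) := by
    have h1 : ∀ h k : ℕ,
        ((‖∑ s ∈ Sol, ei (2 * Real.pi * ((h / p : ℝ) * s.1 + (k / p : ℝ) * s.2))‖ ^ 2 : ℝ) : ℂ) =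
        ∑ t ∈ Sol ×ˢ Sol, ei (2 * Real.pi * ((h / p : ℝ) * (((t.1.1 : ℤ) - t.2.1 : ℤ) : ℝ))) *
          ei (2 * Real.pi * ((k / p : ℝ) * ((t.1.2 - t.2.2 : ℤ) : ℝ))) := by
      intro h k
      rw [← Complex.normSq_eq_norm_sq, ← Complex.mul_conj, map_sum, Finset.sum_mul_sum,
        Finset.sum_product]
      refine Finset.sum_congr rfl (fun s _ => Finset.sum_congr rfl (fun s' _ => ?_))
      rw [conj_ei, ← ei_add, ← ei_add]
      congr 1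
      push_cast
      ring
    push_cast
    have h2 : ∑ h ∈ range p, ∑ k ∈ range p,
        ((‖∑ s ∈ Sol, ei (2 * Real.pi * ((h / p : ℝ) * s.1 + (k / p : ℝ) * s.2))‖ : ℂ)) ^ 2 =
        ∑ t ∈ Sol ×ˢ Sol, (∑ h ∈ range p,
          ei (2 * Real.pi * ((h / p : ℝ) * (((t.1.1 : ℤ) - t.2.1 : ℤ) : ℝ)))) *
          ∑ k ∈ range p, ei (2 * Real.pi * ((k / p : ℝ) * ((t.1.2 - t.2.2 : ℤ) : ℝ))) := by
      have h3 : ∀ h ∈ range p, ∀ k ∈ range p,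
          ((‖∑ s ∈ Sol, ei (2 * Real.pi * ((h / p : ℝ) * s.1 + (k / p : ℝ) * s.2))‖ : ℂ)) ^ 2 =
          ∑ t ∈ Sol ×ˢ Sol, ei (2 * Real.pi * ((h / p : ℝ) * (((t.1.1 : ℤ) - t.2.1 : ℤ) : ℝ))) *
          ei (2 * Real.pi * ((k / p : ℝ) * ((t.1.2 - t.2.2 : ℤ) : ℝ))) := by
        intro h _ k _
        rw [← h1 h k]
        push_cast
        rfl
      rw [Finset.sum_congr rfl (fun h hh => Finset.sum_congr rfl (fun k hk => h3 h hh k hk))]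
      have h4 : ∀ h ∈ range p, ∑ k ∈ range p, ∑ t ∈ Sol ×ˢ Sol,
          ei (2 * Real.pi * ((h / p : ℝ) * (((t.1.1 : ℤ) - t.2.1 : ℤ) : ℝ))) *
          ei (2 * Real.pi * ((k / p : ℝ) * ((t.1.2 - t.2.2 : ℤ) : ℝ))) =
          ∑ t ∈ Sol ×ˢ Sol, ei (2 * Real.pi * ((h / p : ℝ) * (((t.1.1 : ℤ) - t.2.1 : ℤ) : ℝ))) *
          ∑ k ∈ range p, ei (2 * Real.pi * ((k / p : ℝ) * ((t.1.2 - t.2.2 : ℤ) : ℝ))) := by
        intro h _
        rw [Finset.sum_comm]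
        refine Finset.sum_congr rfl (fun t _ => ?_)
        rw [Finset.mul_sum]
      rw [Finset.sum_congr rfl h4, Finset.sum_comm]
      refine Finset.sum_congr rfl (fun t _ => ?_)
      rw [Finset.sum_mul]
    rw [h2, Finset.card_filter]
    push_cast
    rw [Finset.mul_sum]
    refine Finset.sum_congr rfl (fun t _ => ?_)
    have o1 := ortho p hp ((t.1.1 : ℤ) - t.2.1)
    have o2 := ortho p hp (t.1.2 - t.2.2)
    push_cast at o1 o2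
    rw [o1, o2]
    by_cases a1 : (p:ℤ) ∣ ((t.1.1 : ℤ) - t.2.1)
    · by_cases a2 : (p:ℤ) ∣ (t.1.2 - t.2.2)
      · rw [if_pos a1, if_pos a2, if_pos ⟨a1, a2⟩]; ring
      · rw [if_pos a1, if_neg a2, if_neg (fun hh => a2 (And.right hh))]; ring
    · rw [if_neg a1, if_neg (fun hh => a1 (And.left hh))]; ring
  exact_mod_cast hC

/-- Lower bound for the number of congruent pairs. -/
lemma pairs_ge (p : ℕ) [hp : Fact p.Prime] (Sol : Finset (ℕ × ℤ)) (Ω : Finset (ZMod p × ZMod p))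
    (hΩ : ∀ s ∈ Sol, ((s.1 : ZMod p), (s.2 : ZMod p)) ∈ Ω) :
    (#Sol : ℝ) ^ 2 ≤ #Ω * #((Sol ×ˢ Sol).filter (fun t => (p:ℤ) ∣ ((t.1.1 : ℤ) - t.2.1) ∧
      (p:ℤ) ∣ (t.1.2 - t.2.2))) := by
  classical
  set π : ℕ × ℤ → ZMod p × ZMod p := fun s => ((s.1 : ZMod p), (s.2 : ZMod p)) with hπ
  have hm : Set.MapsTo π (Sol : Set _) (Ω : Set (ZMod p × ZMod p)) := by
    intro s hs
    exact hΩ s hs
  have e1 : #Sol = ∑ w ∈ Ω, #(Sol.filter (fun s => π s = w)) :=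
    Finset.card_eq_sum_card_fiberwise hm
  have hcong : ∀ t : (ℕ × ℤ) × (ℕ × ℤ), ((p:ℤ) ∣ ((t.1.1 : ℤ) - t.2.1) ∧
      (p:ℤ) ∣ (t.1.2 - t.2.2)) ↔ π t.1 = π t.2 := by
    rintro ⟨⟨a, b⟩, ⟨c, d⟩⟩
    simp only [hπ, Prod.mk.injEq]
    constructor
    · rintro ⟨h1, h2⟩
      constructor
      · have := (ZMod.intCast_zmod_eq_zero_iff_dvd _ p).2 h1
        push_cast at this
        exact sub_eq_zero.1 this
      · have := (ZMod.intCast_zmod_eq_zero_iff_dvd _ p).2 h2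
        push_cast at this
        exact sub_eq_zero.1 this
    · rintro ⟨h1, h2⟩
      constructor
      · rw [← ZMod.intCast_zmod_eq_zero_iff_dvd]
        push_cast
        rw [h1, sub_self]
      · rw [← ZMod.intCast_zmod_eq_zero_iff_dvd]
        push_cast
        rw [h2, sub_self]
  have hset : (Sol ×ˢ Sol).filter (fun t => (p:ℤ) ∣ ((t.1.1 : ℤ) - t.2.1) ∧
      (p:ℤ) ∣ (t.1.2 - t.2.2)) = (Sol ×ˢ Sol).filter (fun t => π t.1 = π t.2) := by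
    refine Finset.filter_congr (fun t _ => hcong t)
  have e2 : #((Sol ×ˢ Sol).filter (fun t => π t.1 = π t.2)) =
      ∑ w ∈ Ω, #(Sol.filter (fun s => π s = w)) ^ 2 := by
    have hm2 : Set.MapsTo (fun t : (ℕ × ℤ) × (ℕ × ℤ) => π t.1)
        ((Sol ×ˢ Sol).filter (fun t => π t.1 = π t.2) : Set _) (Ω : Set (ZMod p × ZMod p)) := by
      intro t ht
      have := (Finset.mem_filter.1 ht).1
      exact hΩ _ (Finset.mem_product.1 this).1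
    rw [Finset.card_eq_sum_card_fiberwise hm2]
    refine Finset.sum_congr rfl (fun w _ => ?_)
    rw [sq, ← Finset.card_product]
    congr 1
    ext t
    simp only [Finset.mem_filter, Finset.mem_product]
    constructor
    · rintro ⟨⟨⟨h1, h2⟩, h3⟩, h4⟩
      exact ⟨⟨h1, h4⟩, ⟨h2, by rw [← h3]; exact h4⟩⟩
    · rintro ⟨⟨h1, h2⟩, ⟨h3, h4⟩⟩
      exact ⟨⟨⟨h1, h3⟩, by rw [h2, h4]⟩, h2⟩
  rw [hset, e2, e1]
  push_cast
  exact sq_sum_le_card_mul_sum_sq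

/-- The local lower bound of the large sieve. -/
lemma local_lower (p : ℕ) [hp : Fact p.Prime] (Sol : Finset (ℕ × ℤ))
    (Ω : Finset (ZMod p × ZMod p))
    (hΩ : ∀ s ∈ Sol, ((s.1 : ZMod p), (s.2 : ZMod p)) ∈ Ω)
    (hc : (4:ℝ) * #Ω ≤ 3 * (p:ℝ) ^ 2) :
    (#Sol : ℝ) ^ 2 / 3 ≤ ∑ q ∈ (range p ×ˢ range p).erase (0, 0),
      ‖∑ s ∈ Sol, ei (2 * Real.pi * ((q.1 / p : ℝ) * s.1 + (q.2 / p : ℝ) * s.2))‖ ^ 2 := by
  classical
  have hp0 : 0 < p := hp.out.pos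
  have h1 := parseval p hp0 Sol
  have h2 := pairs_ge p Sol Ω hΩ
  set Q : ℝ := ((#((Sol ×ˢ Sol).filter (fun t => (p:ℤ) ∣ ((t.1.1 : ℤ) - t.2.1) ∧
      (p:ℤ) ∣ (t.1.2 - t.2.2))) : ℕ) : ℝ) with hQ
  have hQ0 : 0 ≤ Q := Nat.cast_nonneg _
  have h1' : ∑ q ∈ range p ×ˢ range p,
      ‖∑ s ∈ Sol, ei (2 * Real.pi * ((q.1 / p : ℝ) * s.1 + (q.2 / p : ℝ) * s.2))‖ ^ 2 =
      (p:ℝ) ^ 2 * Q := by
    rw [Finset.sum_product]
    exact h1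
  have hmem : ((0, 0) : ℕ × ℕ) ∈ range p ×ˢ range p := by
    rw [Finset.mem_product]
    exact ⟨Finset.mem_range.2 hp0, Finset.mem_range.2 hp0⟩
  have h3 := Finset.add_sum_erase (range p ×ˢ range p) (fun q : ℕ × ℕ =>
    ‖∑ s ∈ Sol, ei (2 * Real.pi * ((q.1 / p : ℝ) * s.1 + (q.2 / p : ℝ) * s.2))‖ ^ 2) hmem
  have h4 : ‖∑ s ∈ Sol, ei (2 * Real.pi * ((((0, 0) : ℕ × ℕ).1 / p : ℝ) * s.1 +
      (((0, 0) : ℕ × ℕ).2 / p : ℝ) * s.2))‖ ^ 2 = (#Sol : ℝ) ^ 2 := by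
    have : ∀ s ∈ Sol, ei (2 * Real.pi * ((((0, 0) : ℕ × ℕ).1 / p : ℝ) * s.1 +
      (((0, 0) : ℕ × ℕ).2 / p : ℝ) * s.2)) = 1 := by
      intro s _
      have : (2 * Real.pi * ((((0, 0) : ℕ × ℕ).1 / p : ℝ) * s.1 +
        (((0, 0) : ℕ × ℕ).2 / p : ℝ) * s.2)) = 2 * Real.pi * ((0 : ℤ) : ℝ) := by
        simp
      rw [this, ei_two_pi_int]
    rw [Finset.sum_congr rfl this]
    simp
  rw [h4] at h3
  have h5 : ∑ q ∈ (range p ×ˢ range p).erase (0, 0),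
      ‖∑ s ∈ Sol, ei (2 * Real.pi * ((q.1 / p : ℝ) * s.1 + (q.2 / p : ℝ) * s.2))‖ ^ 2 =
      (p:ℝ) ^ 2 * Q - (#Sol : ℝ) ^ 2 := by
    rw [← h1', ← h3]; ring
  rw [h5]
  have h6 : 4 * (#Sol : ℝ) ^ 2 ≤ 3 * (p:ℝ) ^ 2 * Q := by
    calc 4 * (#Sol : ℝ) ^ 2 ≤ 4 * (#Ω * Q) := by gcongr
      _ = (4 * #Ω) * Q := by ring
      _ ≤ 3 * (p:ℝ) ^ 2 * Q := by gcongr
  linarith

end Pool.Agent.Lib.MP_3ae5b0_nt
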