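import Mathlib
import Pool.Agent.Lib.MP_6bc78b_nt.Kusmin
import Pool.Agent.Lib.MP_3ae5b0_nt.Kernel
import Pool.Agent.Lib.MP_3ae5b0_nt.LargeSieve
import Pool.Agent.Lib.MP_3ae5b0_nt.Parseval

set_option autoImplicit false

open Finset

namespace Pool.Agent.Lib.MP_3ae5b0_nt

open Pool.Agent.Lib.MP_6bc78b_nt

lemma lin_sum_bound (N : ℕ) (hN : 2 ≤ N) (m : ℤ) (hm : m ≠ 0) (hmN : |m| < N) (Z : ℕ) :
    ‖∑ z ∈ Ico Z (2 * Z), ei (2 * Real.pi * (((m : ℝ) / N) * z))‖ ≤ N := by
  have hN0 : (0:ℝ) < N := by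
    have : 0 < N := by omega
    exact_mod_cast this
  have hN2 : (2:ℝ) ≤ N := by exact_mod_cast hN
  have hpi := Real.pi_pos
  have hlam : 0 < 2 * Real.pi / N := by positivity
  have hlampi : 2 * Real.pi / N ≤ Real.pi := by
    rw [div_le_iff₀ hN0]; nlinarith
  have hfin : 2 * Real.pi / (2 * Real.pi / N) = N := by field_simp
  have hincr : ∀ n : ℕ, 2 * Real.pi * (((m : ℝ) / N) * ((n + 1 : ℕ) : ℝ)) -
      2 * Real.pi * (((m : ℝ) / N) * (n : ℝ)) = 2 * Real.pi / N * m := by
    intro n; push_cast; ring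
  have hN' : 2 * Real.pi / N * N = 2 * Real.pi := by field_simp
  rcases lt_or_gt_of_ne hm with h | h
  · have h1 : (m:ℝ) ≤ -1 := by
      have : m ≤ -1 := by omega
      exact_mod_cast this
    have h2 : -(N:ℝ) + 1 ≤ m := by
      have := (abs_lt.1 hmN).1
      have : -(N:ℤ) + 1 ≤ m := by omega
      exact_mod_cast this
    have key := kusmin_landau (fun z => 2 * Real.pi * (((m : ℝ) / N) * z)) Z (2 * Z)
      (2 * Real.pi / N) hlam hlampi (-1) (by
        intro n _
        simp only [hincr]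
        push_cast
        have := mul_le_mul_of_nonneg_left h2 hlam.le
        linarith) (by
        intro n _
        simp only [hincr]
        push_cast
        have := mul_le_mul_of_nonneg_left h1 hlam.le
        linarith) (by
        intro n _ _
        refine le_of_eq ?_
        push_cast
        ring)
    rw [hfin] at key
    exact key
  · have h1 : (1:ℝ) ≤ m := by
      have : 1 ≤ m := by omega
      exact_mod_cast this
    have h2 : (m:ℝ) ≤ N - 1 := by
      have := (abs_lt.1 hmN).2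
      have : m ≤ (N:ℤ) - 1 := by omega
      exact_mod_cast this
    have key := kusmin_landau (fun z => 2 * Real.pi * (((m : ℝ) / N) * z)) Z (2 * Z)
      (2 * Real.pi / N) hlam hlampi 0 (by
        intro n _
        simp only [hincr]
        push_cast
        have := mul_le_mul_of_nonneg_left h1 hlam.le
        linarith) (by
        intro n _
        simp only [hincr]
        push_cast
        have := mul_le_mul_of_nonneg_left h2 hlam.le
        linarith) (by
        intro n _ _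
        refine le_of_eq ?_
        push_cast
        ring)
    rw [hfin] at key
    exact key

/-- index type: `(p, h, k)`. -/
def Rset (PP : Finset ℕ) : Finset (Σ _ : ℕ, ℕ × ℕ) :=
  PP.sigma (fun p => (range p ×ˢ range p).erase (0, 0))

noncomputable def al (r : Σ _ : ℕ, ℕ × ℕ) : ℝ := (r.2.2 : ℝ) / r.1
noncomputable def be (r : Σ _ : ℕ, ℕ × ℕ) : ℝ := (r.2.1 : ℝ) / r.1

/-- separation of two fractions -/
lemma frac_sep (p p' k k' P : ℕ) (hp : 0 < p) (hp' : 0 < p') (hpP : p ≤ P) (hpP' : p' ≤ P)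
    (hk : k < p) (hk' : k' < p') (hne : k * p' ≠ k' * p) (l : ℤ) :
    1 / (P:ℝ) ^ 2 ≤ |((k:ℝ) / p - (k':ℝ) / p') - l| := by
  have hp0 : (0:ℝ) < p := by exact_mod_cast hp
  have hp0' : (0:ℝ) < p' := by exact_mod_cast hp'
  have e : ((k:ℝ) / p - (k':ℝ) / p') - l = (((k * p' - k' * p - l * (p * p') : ℤ)) : ℝ) / (p * p') := by
    push_cast; field_simp
  have hm : (k * p' - k' * p - l * (p * p') : ℤ) ≠ 0 := by
    intro h
    have h1 : (k * p' : ℤ) < p * p' := by exact_mod_cast Nat.mul_lt_mul_of_pos_right hk hp'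
    have h2 : (k' * p : ℤ) < p * p' := by
      have := Nat.mul_lt_mul_of_pos_right hk' hp
      rw [mul_comm p' p] at this
      exact_mod_cast this
    have h3 : (0:ℤ) ≤ k * p' := by positivity
    have h4 : (0:ℤ) ≤ k' * p := by positivity
    have hpp : (0:ℤ) < p * p' := by
      have : 0 < p * p' := Nat.mul_pos hp hp'
      exact_mod_cast this
    have hl : l = 0 := by
      by_contra hl0
      rcases lt_or_gt_of_ne hl0 with h5 | h5
      · have : l * (p * p') ≤ -1 * (p * p' : ℤ) := mul_le_mul_of_nonneg_right (by omega) hpp.le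
        linarith
      · have : 1 * (p * p' : ℤ) ≤ l * (p * p') := mul_le_mul_of_nonneg_right (by omega) hpp.le
        linarith
    rw [hl, zero_mul, sub_zero] at h
    apply hne
    have : (k * p' : ℤ) = k' * p := by linarith
    exact_mod_cast this
  rw [e, abs_div, abs_of_pos (by positivity : (0:ℝ) < p * p')]
  have h6 : (1:ℝ) ≤ |(((k * p' - k' * p - l * (p * p') : ℤ)) : ℝ)| := by
    have := Int.one_le_abs hm
    exact_mod_cast this
  have hpP1 : (p:ℝ) ≤ P := by exact_mod_cast hpP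
  have hpP2 : (p':ℝ) ≤ P := by exact_mod_cast hpP'
  have h7 : (p:ℝ) * p' ≤ (P:ℝ) ^ 2 := by
    rw [sq]; gcongr
  exact div_le_div₀ (by positivity) h6 (by positivity) h7

lemma cross_ne {p p' h h' k k' : ℕ} (hp : p.Prime) (hp' : p'.Prime) (hh : h < p) (hh' : h' < p')
    (hk : k < p) (hk' : k' < p') (h0 : (h, k) ≠ (0, 0))
    (hne : ¬ (p = p' ∧ h = h' ∧ k = k')) (hkk : k * p' = k' * p) : h * p' ≠ h' * p := by
  intro hcon
  by_cases hpp : p = p'
  · subst hpp
    apply hne
    exact ⟨rfl, Nat.eq_of_mul_eq_mul_right hp.pos hcon, Nat.eq_of_mul_eq_mul_right hp.pos hkk⟩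
  · have hcop : Nat.Coprime p p' := (Nat.coprime_primes hp hp').2 hpp
    have e1 : p ∣ k * p' := by rw [hkk]; exact dvd_mul_left _ _
    have e2 : p ∣ k := hcop.dvd_of_dvd_mul_right e1
    have e3 : k = 0 := Nat.eq_zero_of_dvd_of_lt e2 hk
    have e4 : p ∣ h * p' := by rw [hcon]; exact dvd_mul_left _ _
    have e5 : p ∣ h := hcop.dvd_of_dvd_mul_right e4
    have e6 : h = 0 := Nat.eq_zero_of_dvd_of_lt e5 hh
    apply h0
    rw [e3, e6]

/-- The bound of the off-diagonal kernel. -/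
noncomputable def K0 (T τ : ℝ) (Z H P : ℕ) : ℝ :=
  cG * A1 Z H + 2 * cG * A2 T Z H / qr τ + cG * A3 T Z H / qr (1 / (P:ℝ) ^ 2) + τ * (P:ℝ) ^ 2

theorem block_bound (n Z H P : ℕ) (τ : ℝ) (hn : 0 < n) (hτ : 0 < τ) (hτ1 : τ ≤ 1)
    (hH : 1 ≤ H) (hHZ : H ≤ Z) (PP : Finset ℕ)
    (hPP : ∀ p ∈ PP, p.Prime ∧ 11 ≤ p ∧ p ≤ P) (hnePP : PP.Nonempty) (Sol : Finset (ℕ × ℤ))
    (hSol1 : ∀ s ∈ Sol, s.1 ∈ Ico Z (2 * Z) ∧ |(s.2 : ℝ) - n / s.1| ≤ 4 * τ)
    (hSol2 : ∀ s ∈ Sol, ∃ x y : ℤ, x * y * s.1 + x + y + s.1 = n ∧ s.2 = x * y + 1) :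
    (#Sol : ℝ) ≤ 3 * Real.exp (16 * Real.pi) * (τ * Z / #PP + 2 * (P:ℝ) ^ 2 * K0 n τ Z H P) := by
  classical
  have hT : (0:ℝ) < n := by exact_mod_cast hn
  have hZ1 : 1 ≤ Z := le_trans hH hHZ
  have hZ0 : (0:ℝ) < Z := by exact_mod_cast hZ1
  have hH0 : (0:ℝ) < H := by exact_mod_cast hH
  obtain ⟨p₀, hp₀⟩ := hnePP
  have hP11 : 11 ≤ P := le_trans (hPP p₀ hp₀).2.1 (hPP p₀ hp₀).2.2
  have hP11' : (11:ℝ) ≤ P := by exact_mod_cast hP11
  have hcG := cG_pos
  have hm0 : 0 < m0 n Z H := by unfold m0; positivity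
  have hA1 : 0 ≤ A1 Z H := by unfold A1; positivity
  have hA2 : 0 ≤ A2 n Z H := by
    unfold A2; exact mul_nonneg (by positivity) (qr_nonneg _)
  have hA3 : 0 ≤ A3 n Z H := by
    unfold A3; exact div_nonneg (by positivity) (qr_nonneg _)
  have hδ : (0:ℝ) < 1 / (P:ℝ) ^ 2 := by positivity
  have hδ1 : 1 / (P:ℝ) ^ 2 ≤ 1 := by
    rw [div_le_one (by positivity)]
    nlinarith
  have hqδ := qr_pos hδ
  have hqτ := qr_pos hτ
  set K := K0 n τ Z H P with hK
  have hK0 : 0 ≤ K := by rw [hK]; unfold K0; positivity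
  -- diagonal
  have hdiag : ‖Ker n τ Z 0 0‖ ≤ τ * Z + K := by
    have h1 := Ker_bound n τ hT hτ hτ1 Z H hH hHZ 0 0 1 Z one_pos hZ0.le (by
      intro l
      by_cases hl : l = 0
      · right
        subst hl
        refine ⟨by simp, ?_⟩
        exact esum_triv Z _
      · left
        rw [zero_sub, abs_neg]
        have := Int.one_le_abs hl
        exact_mod_cast this)
    have h2 : cG * A3 n Z H / qr 1 ≤ cG * A3 n Z H / qr (1 / (P:ℝ) ^ 2) :=
      div_le_div_of_nonneg_left (by positivity) hqδ (qr_mono hδ1)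
    have h3 : 0 ≤ τ * (P:ℝ) ^ 2 := by positivity
    rw [hK]; unfold K0
    linarith
  -- off-diagonal
  have hoff : ∀ r ∈ Rset PP, ∀ r' ∈ Rset PP, r ≠ r' →
      ‖Ker n τ Z (al r - al r') (be r - be r')‖ ≤ K := by
    rintro ⟨p, h, k⟩ hr ⟨p', h', k'⟩ hr' hrr
    simp only [Rset, Finset.mem_sigma, Finset.mem_erase, Finset.mem_product, Finset.mem_range] at hr hr'
    obtain ⟨hpPP, h0, hh, hk⟩ := hr
    obtain ⟨hpPP', h0', hh', hk'⟩ := hr'
    obtain ⟨hpp, hp11, hpP⟩ := hPP p hpPP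
    obtain ⟨hpp', hp11', hpP'⟩ := hPP p' hpPP'
    have hp0 : (0:ℝ) < p := by exact_mod_cast hpp.pos
    have hp0' : (0:ℝ) < p' := by exact_mod_cast hpp'.pos
    simp only [al, be]
    refine Ker_bound n τ hT hτ hτ1 Z H hH hHZ _ _ (1 / (P:ℝ) ^ 2) ((P:ℝ) ^ 2) hδ (by positivity) ?_
    intro l
    by_cases hkk : k * p' = k' * p
    · have hα : (k:ℝ) / p - (k':ℝ) / p' = 0 := by
        rw [sub_eq_zero, div_eq_div_iff hp0.ne' hp0'.ne']
        exact_mod_cast hkk
      by_cases hl : l = 0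
      · right
        subst hl
        refine ⟨by rw [hα]; simp, ?_⟩
        have hne' := cross_ne hpp hpp' hh hh' hk hk' h0 (by
          rintro ⟨e1, e2, e3⟩
          apply hrr
          subst e1; subst e2; subst e3
          rfl) hkk
        have hm : ((h * p' : ℤ) - h' * p) ≠ 0 := by
          intro e
          apply hne'
          have : (h * p' : ℤ) = h' * p := by linarith
          exact_mod_cast this
        have hmN : |((h * p' : ℤ) - h' * p)| < ((p * p' : ℕ) : ℤ) := by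
          have h1 : (h * p' : ℤ) < p * p' := by exact_mod_cast Nat.mul_lt_mul_of_pos_right hh hpp'.pos
          have h2 : (h' * p : ℤ) < p * p' := by
            have := Nat.mul_lt_mul_of_pos_right hh' hpp.pos
            rw [mul_comm p' p] at this
            exact_mod_cast this
          have h3 : (0:ℤ) ≤ h * p' := by positivity
          have h4 : (0:ℤ) ≤ h' * p := by positivity
          rw [abs_lt]
          push_cast
          constructor <;> linarith
        have h5 := lin_sum_bound (p * p') (by nlinarith) _ hm hmN Z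
        have h6 : (((p * p' : ℕ)) : ℝ) ≤ (P:ℝ) ^ 2 := by
          have hpP1 : (p:ℝ) ≤ P := by exact_mod_cast hpP
          have hpP2 : (p':ℝ) ≤ P := by exact_mod_cast hpP'
          push_cast
          rw [sq]; gcongr
        refine le_trans (le_of_eq ?_) (le_trans h5 h6)
        congr 1
        refine Finset.sum_congr rfl (fun z _ => ?_)
        congr 3
        push_cast
        field_simp
      · left
        rw [hα, zero_sub, abs_neg]
        have := Int.one_le_abs hl
        have h7 : (1:ℝ) ≤ |(l:ℝ)| := by exact_mod_cast this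
        linarith
    · left
      exact frac_sep p p' k k' P hpp.pos hpp'.pos hpP hpP' hk hk' hkk l
  -- upper bound
  have hup := large_sieve n τ hτ Z (Rset PP) al be (τ * Z + K) K hK0 hdiag hoff Sol hSol1
  -- lower bound
  have hlow : #PP * ((#Sol : ℝ) ^ 2 / 3) ≤
      ∑ r ∈ Rset PP, ‖∑ s ∈ Sol, ei (2 * Real.pi * (be r * s.1 + al r * s.2))‖ ^ 2 := by
    unfold Rset
    rw [Finset.sum_sigma, ← nsmul_eq_mul, ← Finset.sum_const]
    refine Finset.sum_le_sum (fun p hp => ?_)
    obtain ⟨hpp, hp11, hpP⟩ := hPP p hp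
    have : Fact p.Prime := ⟨hpp⟩
    have := local_lower p Sol (Om p (n : ZMod p)) (by
      intro s hs
      obtain ⟨x, y, hxy, hD⟩ := hSol2 s hs
      unfold Om
      rw [Finset.mem_image]
      refine ⟨((x : ZMod p), (y : ZMod p), (s.1 : ZMod p)), ?_, ?_⟩
      · simp only [surf, Finset.mem_filter, Finset.mem_univ, true_and]
        have := congrArg (fun t : ℤ => (t : ZMod p)) hxy
        push_cast at this
        exact this
      · rw [hD]; push_cast; rfl) (Om_card_le p _ hp11)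
    exact this
  have hR : (#(Rset PP) : ℝ) ≤ #PP * (P:ℝ) ^ 2 := by
    unfold Rset
    rw [Finset.card_sigma]
    push_cast
    rw [← nsmul_eq_mul, ← Finset.sum_const]
    refine Finset.sum_le_sum (fun p hp => ?_)
    obtain ⟨hpp, hp11, hpP⟩ := hPP p hp
    have h1 : #((range p ×ˢ range p).erase (0, 0)) ≤ p * p := by
      refine le_trans (Finset.card_erase_le) ?_
      rw [Finset.card_product, Finset.card_range]
    have h2 : (#((range p ×ˢ range p).erase (0, 0)) : ℝ) ≤ p * p := by exact_mod_cast h1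
    have hpP1 : (p:ℝ) ≤ P := by exact_mod_cast hpP
    refine le_trans h2 ?_
    rw [sq]; gcongr
  have hPP0 : (0:ℝ) < #PP := by
    have : 0 < #PP := Finset.card_pos.2 ⟨p₀, hp₀⟩
    exact_mod_cast this
  have hPP1 : (1:ℝ) ≤ #PP := by
    have : 0 < #PP := Finset.card_pos.2 ⟨p₀, hp₀⟩
    exact_mod_cast this
  have hcomb := le_trans hlow hup
  have hE : 0 < Real.exp (16 * Real.pi) := Real.exp_pos _
  rcases Nat.eq_zero_or_pos (#Sol) with hS0 | hS0
  · rw [hS0]
    push_cast
    positivity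
  have hS : (0:ℝ) < #Sol := by exact_mod_cast hS0
  have h8 : #PP * (#Sol : ℝ) / 3 ≤ Real.exp (16 * Real.pi) * (τ * Z + K + #(Rset PP) * K) := by
    have : (#PP * (#Sol : ℝ) / 3) * #Sol ≤
        (Real.exp (16 * Real.pi) * (τ * Z + K + #(Rset PP) * K)) * #Sol := by
      calc (#PP * (#Sol : ℝ) / 3) * #Sol = #PP * ((#Sol : ℝ) ^ 2 / 3) := by ring
        _ ≤ _ := hcomb
    exact le_of_mul_le_mul_right this hS
  have h9 : τ * Z + K + #(Rset PP) * K ≤ τ * Z + 2 * (#PP * (P:ℝ) ^ 2 * K) := by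
    have h10 : K ≤ #PP * (P:ℝ) ^ 2 * K := by
      have : 1 ≤ #PP * (P:ℝ) ^ 2 := by nlinarith
      nlinarith
    have h11 : #(Rset PP) * K ≤ #PP * (P:ℝ) ^ 2 * K := by gcongr
    linarith
  have h12 : (#Sol : ℝ) ≤ 3 * (Real.exp (16 * Real.pi) * (τ * Z + 2 * (#PP * (P:ℝ) ^ 2 * K))) / #PP := by
    rw [le_div_iff₀ hPP0]
    have := mul_le_mul_of_nonneg_left h9 hE.le
    linarith
  refine le_trans h12 (le_of_eq ?_)
  field_simp

end Pool.Agent.Lib.MP_3ae5b0_nt
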