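import Mathlib
import Pool.Agent.Lib.MP_3ae5b0_nt.DivBound

set_option autoImplicit false

open Finset

namespace Pool.Agent.Lib.MP_3ae5b0_nt

/-- all solutions, as a finset -/
def sols (n : ℕ) : Finset (ℕ × ℕ × ℕ) :=
  ((Icc 1 n) ×ˢ (Icc 1 n) ×ˢ (Icc 1 n)).filter
    (fun p => n = p.1 * p.2.1 * p.2.2 + p.1 + p.2.1 + p.2.2)

lemma mem_sols {n : ℕ} {p : ℕ × ℕ × ℕ} : p ∈ sols n ↔
    0 < p.1 ∧ 0 < p.2.1 ∧ 0 < p.2.2 ∧ n = p.1 * p.2.1 * p.2.2 + p.1 + p.2.1 + p.2.2 := by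
  unfold sols
  rw [Finset.mem_filter, Finset.mem_product, Finset.mem_product, Finset.mem_Icc, Finset.mem_Icc,
    Finset.mem_Icc]
  constructor
  · rintro ⟨⟨⟨h1, _⟩, ⟨h2, _⟩, ⟨h3, _⟩⟩, h⟩
    exact ⟨h1, h2, h3, h⟩
  · rintro ⟨h1, h2, h3, h⟩
    have : 0 ≤ p.1 * p.2.1 * p.2.2 := Nat.zero_le _
    exact ⟨⟨⟨h1, by omega⟩, ⟨h2, by omega⟩, ⟨h3, by omega⟩⟩, h⟩

lemma ncard_eq (n : ℕ) : {p : ℕ × ℕ × ℕ | 0 < p.1 ∧ 0 < p.2.1 ∧ 0 < p.2.2 ∧
    n = p.1 * p.2.1 * p.2.2 + p.1 + p.2.1 + p.2.2}.ncard = #(sols n) := by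
  rw [← Set.ncard_coe_finset]
  congr 1
  ext p
  rw [Finset.mem_coe, mem_sols]
  rfl

lemma sols_card_le (n : ℕ) : #(sols n) ≤ n ^ 3 := by
  unfold sols
  refine le_trans (Finset.card_filter_le _ _) ?_
  rw [Finset.card_product, Finset.card_product, Nat.card_Icc]
  simp only [Nat.add_sub_cancel]
  exact le_of_eq (by ring)

/-- ordered solutions -/
def osols (n : ℕ) : Finset (ℕ × ℕ × ℕ) :=
  (sols n).filter (fun p => p.1 ≤ p.2.1 ∧ p.2.1 ≤ p.2.2)

lemma mem_osols {n x y z : ℕ} : (x, y, z) ∈ osols n ↔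
    0 < x ∧ 0 < y ∧ 0 < z ∧ n = x * y * z + x + y + z ∧ x ≤ y ∧ y ≤ z := by
  unfold osols
  rw [Finset.mem_filter, mem_sols]
  constructor
  · rintro ⟨⟨h1, h2, h3, h4⟩, h5, h6⟩
    exact ⟨h1, h2, h3, h4, h5, h6⟩
  · rintro ⟨h1, h2, h3, h4, h5, h6⟩
    exact ⟨⟨h1, h2, h3, h4⟩, h5, h6⟩

lemma sols_le (n : ℕ) : #(sols n) ≤ 6 * #(osols n) := by
  classical
  have hsub : sols n ⊆ (osols n).image (fun p => (p.1, p.2.1, p.2.2)) ∪
      ((osols n).image (fun p => (p.1, p.2.2, p.2.1)) ∪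
      ((osols n).image (fun p => (p.2.1, p.1, p.2.2)) ∪
      ((osols n).image (fun p => (p.2.2, p.1, p.2.1)) ∪
      ((osols n).image (fun p => (p.2.1, p.2.2, p.1)) ∪
      (osols n).image (fun p => (p.2.2, p.2.1, p.1)))))) := by
    rintro ⟨x, y, z⟩ h
    rw [mem_sols] at h
    obtain ⟨h1, h2, h3, h4⟩ := h
    simp only at h1 h2 h3 h4
    simp only [Finset.mem_union, Finset.mem_image, Prod.exists]
    rcases le_total x y with a | a
    · rcases le_total y z with b | b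
      · left
        exact ⟨x, y, z, mem_osols.2 ⟨h1, h2, h3, h4, a, b⟩, rfl⟩
      · rcases le_total x z with c | c
        · right; left
          exact ⟨x, z, y, mem_osols.2 ⟨h1, h3, h2, by rw [h4]; ring, c, b⟩, rfl⟩
        · right; right; right; right; left
          exact ⟨z, x, y, mem_osols.2 ⟨h3, h1, h2, by rw [h4]; ring, c, a⟩, rfl⟩
    · rcases le_total x z with b | b
      · right; right; left
        exact ⟨y, x, z, mem_osols.2 ⟨h2, h1, h3, by rw [h4]; ring, a, b⟩, rfl⟩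
      · rcases le_total y z with c | c
        · right; right; right; left
          exact ⟨y, z, x, mem_osols.2 ⟨h2, h3, h1, by rw [h4]; ring, c, b⟩, rfl⟩
        · right; right; right; right; right
          exact ⟨z, y, x, mem_osols.2 ⟨h3, h2, h1, by rw [h4]; ring, c, a⟩, rfl⟩
  refine le_trans (Finset.card_le_card hsub) ?_
  refine le_trans (Finset.card_union_le _ _) ?_
  refine le_trans (Nat.add_le_add Finset.card_image_le (Finset.card_union_le _ _)) ?_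
  refine le_trans (Nat.add_le_add le_rfl (Nat.add_le_add Finset.card_image_le
    (Finset.card_union_le _ _))) ?_
  refine le_trans (Nat.add_le_add le_rfl (Nat.add_le_add le_rfl
    (Nat.add_le_add Finset.card_image_le (Finset.card_union_le _ _)))) ?_
  refine le_trans (Nat.add_le_add le_rfl (Nat.add_le_add le_rfl
    (Nat.add_le_add le_rfl (Nat.add_le_add Finset.card_image_le (Finset.card_union_le _ _))))) ?_
  refine le_trans (Nat.add_le_add le_rfl (Nat.add_le_add le_rfl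
    (Nat.add_le_add le_rfl (Nat.add_le_add le_rfl
      (Nat.add_le_add Finset.card_image_le Finset.card_image_le))))) ?_
  omega

/-- Solutions with small smallest variable. -/
noncomputable def smallS (n : ℕ) (X : ℝ) : Finset (ℕ × ℕ × ℕ) :=
  (osols n).filter (fun p => (p.1 : ℝ) ≤ X)

lemma smallS_le (ε : ℝ) (hε : 0 < ε) : ∃ C : ℝ, 0 ≤ C ∧ ∀ n : ℕ, 1 ≤ n → ∀ X : ℝ, 0 ≤ X →
    (#(smallS n X) : ℝ) ≤ C * X * (n : ℝ) ^ (2 * ε) := by
  classical
  obtain ⟨C, hC1, hC⟩ := divisor_bound ε hε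
  refine ⟨C * 2 ^ ε, by positivity, ?_⟩
  intro n hn X hX
  have hn' : (1:ℝ) ≤ n := by exact_mod_cast hn
  set M : ℝ := C * 2 ^ ε * (n : ℝ) ^ (2 * ε) with hM
  have hM0 : 0 ≤ M := by positivity
  have hmaps : ∀ p ∈ smallS n X, p.1 ∈ Icc 1 ⌊X⌋₊ := by
    rintro ⟨x, y, z⟩ hp
    unfold smallS at hp
    rw [Finset.mem_filter, mem_osols] at hp
    rw [Finset.mem_Icc]
    exact ⟨hp.1.1, Nat.le_floor hp.2⟩
  have hfib : ∀ x ∈ Icc 1 ⌊X⌋₊, #((smallS n X).filter (fun p => p.1 = x)) ≤ ⌊M⌋₊ := by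
    intro x hx
    rcases ((smallS n X).filter (fun p => p.1 = x)).eq_empty_or_nonempty with he | ⟨p₀, hp₀⟩
    · rw [he]; simp
    have hx1 : 1 ≤ x := (Finset.mem_Icc.1 hx).1
    have hxn : x ≤ n := by
      rw [Finset.mem_filter] at hp₀
      obtain ⟨hp, hpx⟩ := hp₀
      unfold smallS at hp
      rw [Finset.mem_filter] at hp
      obtain ⟨x', y', z'⟩ := p₀
      have := mem_osols.1 hp.1
      simp only at hpx
      have h0 : 0 ≤ x' * y' * z' := Nat.zero_le _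
      omega
    apply Nat.le_floor
    have hne : x * (n - x) + 1 ≠ 0 := Nat.succ_ne_zero _
    have hinj : #((smallS n X).filter (fun p => p.1 = x)) ≤ #(x * (n - x) + 1).divisors := by
      refine Finset.card_le_card_of_injOn (fun p => p.1 * p.2.1 + 1) ?_ ?_
      · rintro ⟨x', y', z'⟩ hp
        rw [Finset.mem_coe, Finset.mem_filter] at hp
        obtain ⟨hp, hpx⟩ := hp
        simp only at hpx
        subst hpx
        unfold smallS at hp
        rw [Finset.mem_filter, mem_osols] at hp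
        obtain ⟨⟨h1, h2, h3, h4, _, _⟩, _⟩ := hp
        rw [Finset.mem_coe, Nat.mem_divisors]
        refine ⟨⟨x' * z' + 1, ?_⟩, hne⟩
        have e : n - x' = x' * y' * z' + y' + z' := by omega
        rw [e]
        ring
      · rintro ⟨x₁, y₁, z₁⟩ hp₁ ⟨x₂, y₂, z₂⟩ hp₂ h12
        rw [Finset.mem_coe, Finset.mem_filter] at hp₁ hp₂
        obtain ⟨hp₁, hpx₁⟩ := hp₁
        obtain ⟨hp₂, hpx₂⟩ := hp₂
        simp only at hpx₁ hpx₂ h12
        subst hpx₁
        subst hpx₂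
        unfold smallS at hp₁ hp₂
        rw [Finset.mem_filter, mem_osols] at hp₁ hp₂
        obtain ⟨⟨_, _, _, h4, _, _⟩, _⟩ := hp₁
        obtain ⟨⟨_, _, _, h4', _, _⟩, _⟩ := hp₂
        have hy : y₁ = y₂ := by
          have : x₂ * y₁ = x₂ * y₂ := by omega
          exact Nat.eq_of_mul_eq_mul_left hx1 this
        subst hy
        have hz : z₁ = z₂ := by
          have : (x₂ * y₁ + 1) * z₁ = (x₂ * y₁ + 1) * z₂ := by
            have e1 : (x₂ * y₁ + 1) * z₁ + x₂ + y₁ = (x₂ * y₁ + 1) * z₂ + x₂ + y₁ := by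
              calc (x₂ * y₁ + 1) * z₁ + x₂ + y₁ = n := by rw [h4]; ring
                _ = (x₂ * y₁ + 1) * z₂ + x₂ + y₁ := by rw [h4']; ring
            omega
          exact Nat.eq_of_mul_eq_mul_left (Nat.succ_pos _) this
        rw [hz]
    have h1 : (#((smallS n X).filter (fun p => p.1 = x)) : ℝ) ≤ #(x * (n - x) + 1).divisors := by
      exact_mod_cast hinj
    refine le_trans h1 (le_trans (hC _ hne) ?_)
    have h2 : ((x * (n - x) + 1 : ℕ) : ℝ) ≤ 2 * (n:ℝ) ^ 2 := by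
      have h3 : x * (n - x) + 1 ≤ n * n + 1 :=
        Nat.add_le_add_right (Nat.mul_le_mul hxn (Nat.sub_le n x)) 1
      have h4 : ((x * (n - x) + 1 : ℕ) : ℝ) ≤ n * n + 1 := by exact_mod_cast h3
      nlinarith
    have h5 : ((x * (n - x) + 1 : ℕ) : ℝ) ^ ε ≤ (2 * (n:ℝ) ^ 2) ^ ε :=
      Real.rpow_le_rpow (Nat.cast_nonneg _) h2 hε.le
    have h6 : (2 * (n:ℝ) ^ 2) ^ ε = 2 ^ ε * (n:ℝ) ^ (2 * ε) := by
      rw [Real.mul_rpow (by norm_num) (by positivity), ← Real.rpow_natCast (n:ℝ) 2,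
        ← Real.rpow_mul (by positivity)]
      norm_num
    rw [hM, mul_assoc, ← h6]
    exact mul_le_mul_of_nonneg_left h5 (by linarith)
  have hcard := Finset.card_le_mul_card_image_of_maps_to hmaps ⌊M⌋₊ hfib
  rw [Nat.card_Icc, Nat.add_sub_cancel] at hcard
  calc (#(smallS n X) : ℝ) ≤ ((⌊M⌋₊ * ⌊X⌋₊ : ℕ) : ℝ) := by exact_mod_cast hcard
    _ = (⌊M⌋₊ : ℝ) * ⌊X⌋₊ := by push_cast; rfl
    _ ≤ M * X := mul_le_mul (Nat.floor_le hM0) (Nat.floor_le hX) (Nat.cast_nonneg _) hM0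
    _ = C * 2 ^ ε * X * (n : ℝ) ^ (2 * ε) := by rw [hM]; ring

end Pool.Agent.Lib.MP_3ae5b0_nt
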