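import Mathlib
import Pool.Agent.Lib.MP_3ae5b0_nt.Block

set_option autoImplicit false

open Finset

namespace Pool.Agent.Lib.MP_3ae5b0_nt

open Pool.Agent.Lib.MP_6bc78b_nt

lemma qr_exp (u : ℝ) : qr (Real.exp u) = Real.exp (u / 4) := by
  unfold qr
  rw [← Real.exp_half, ← Real.exp_half]
  congr 1
  ring

lemma qr_two_mul_exp (u : ℝ) : qr (2 * Real.exp u) ≤ 2 * Real.exp (u / 4) := by
  rw [qr_mul (by norm_num), qr_exp]
  have : qr 2 ≤ 2 := by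
    unfold qr
    rw [Real.sqrt_le_left (by norm_num), Real.sqrt_le_left (by norm_num)]
    norm_num
  gcongr

lemma qr_half_mul_exp (u : ℝ) : 1 / 2 * Real.exp (u / 4) ≤ qr (1 / 2 * Real.exp u) := by
  rw [qr_mul (by norm_num), qr_exp]
  have : (1:ℝ) / 2 ≤ qr (1 / 2) := by
    unfold qr
    apply Real.le_sqrt_of_sq_le
    apply Real.le_sqrt_of_sq_le
    norm_num
  gcongr

/-- The kernel bound in exponential parameters, `ρ = 8/25`. -/
lemma K0_exp (L η ζ τ : ℝ) (n Z H P : ℕ) (hn : (n:ℝ) = Real.exp L) (hL : 0 ≤ L)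
    (hZ : (Z:ℝ) = Real.exp ζ) (hτ : τ = Real.exp (η - ζ)) (hP1 : 1 ≤ P)
    (hP : (P:ℝ) ≤ Real.exp (η - 8 / 25 * L))
    (hH1 : Real.exp ((η + 3 * ζ - L) / 3) ≤ H) (hH2 : (H:ℝ) ≤ 2 * Real.exp ((η + 3 * ζ - L) / 3))
    (hηζ : η ≤ ζ) (hsum : η + ζ ≤ 17 / 25 * L) :
    2 * (P:ℝ) ^ 2 * K0 n τ Z H P ≤ (500 * cG + 2) * Real.exp (8 / 25 * L) := by
  have hcG := cG_pos
  have hP0 : (0:ℝ) < P := by exact_mod_cast hP1
  set h := Real.exp ((η + 3 * ζ - L) / 3) with hh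
  have hh0 : 0 < h := Real.exp_pos _
  have hH0 : (0:ℝ) < H := lt_of_lt_of_le hh0 hH1
  have hpi := Real.pi_gt_three
  have hpi2 := Real.pi_lt_four
  set v : ℝ := (2 * L + η - 9 * ζ) / 3 with hv
  -- the size of m0
  have hm : (n:ℝ) * h / (Z:ℝ) ^ 4 = Real.exp v := by
    rw [hn, hh, hZ, ← Real.exp_add, ← Real.exp_nat_mul, ← Real.exp_sub]
    congr 1
    rw [hv]; push_cast; ring
  have hZ4 : (0:ℝ) < (Z:ℝ) ^ 4 := by rw [hZ]; positivity
  have hn0 : (0:ℝ) < n := by rw [hn]; positivity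
  have hm_le : m0 n Z H ≤ 2 * Real.exp v := by
    rw [← hm]
    unfold m0
    calc 3 / 32 * (2 * Real.pi * n) * H / (Z:ℝ) ^ 4
        ≤ 3 / 32 * (2 * 4 * n) * (2 * h) / (Z:ℝ) ^ 4 := by gcongr
      _ = 3 / 2 * (n * h / (Z:ℝ) ^ 4) := by ring
      _ ≤ 2 * (n * h / (Z:ℝ) ^ 4) := by
          have : 0 < n * h / (Z:ℝ) ^ 4 := by positivity
          linarith
  have hm_ge : 1 / 2 * Real.exp v ≤ m0 n Z H := by
    rw [← hm]
    unfold m0
    calc 1 / 2 * (n * h / (Z:ℝ) ^ 4) ≤ 9 / 16 * (n * h / (Z:ℝ) ^ 4) := by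
          have : 0 < n * h / (Z:ℝ) ^ 4 := by positivity
          linarith
      _ = 3 / 32 * (2 * 3 * n) * h / (Z:ℝ) ^ 4 := by ring
      _ ≤ 3 / 32 * (2 * Real.pi * n) * H / (Z:ℝ) ^ 4 := by gcongr
  have hq_le : qr (m0 n Z H) ≤ 2 * Real.exp (v / 4) :=
    le_trans (qr_mono hm_le) (qr_two_mul_exp v)
  have hq_ge : 1 / 2 * Real.exp (v / 4) ≤ qr (m0 n Z H) :=
    le_trans (qr_half_mul_exp v) (qr_mono hm_ge)
  set u₁ : ℝ := L / 6 + ζ / 2 - η / 6 with hu₁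
  set u₂ : ℝ := 5 / 4 * ζ - L / 6 - η / 12 + (η - 8 / 25 * L) / 2 with hu₂
  have hA1 : A1 Z H ≤ 2 * Real.exp u₁ := by
    unfold A1
    have h1 : Real.exp ((η + 3 * ζ - L) / 6) ≤ Real.sqrt H := by
      have : Real.exp ((η + 3 * ζ - L) / 6) = Real.sqrt h := by
        rw [hh, ← Real.exp_half]; congr 1; ring
      rw [this]
      exact Real.sqrt_le_sqrt hH1
    calc 2 * (Z:ℝ) / Real.sqrt H ≤ 2 * (Z:ℝ) / Real.exp ((η + 3 * ζ - L) / 6) := by gcongr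
      _ = 2 * Real.exp u₁ := by
          rw [hZ, mul_div_assoc, ← Real.exp_sub]
          congr 2
          rw [hu₁]; ring
  have hA2 : A2 n Z H / qr τ ≤ 92 * Real.exp u₁ := by
    unfold A2
    rw [hτ, qr_exp]
    calc 46 * (Z:ℝ) * qr (m0 n Z H) / Real.exp ((η - ζ) / 4)
        ≤ 46 * (Z:ℝ) * (2 * Real.exp (v / 4)) / Real.exp ((η - ζ) / 4) := by gcongr
      _ = 92 * (Real.exp ζ * Real.exp (v / 4) / Real.exp ((η - ζ) / 4)) := by rw [hZ]; ring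
      _ = 92 * Real.exp u₁ := by
          rw [← Real.exp_add, ← Real.exp_sub]
          congr 2
          rw [hu₁, hv]; ring
  have hA3 : A3 n Z H / qr (1 / (P:ℝ) ^ 2) ≤ 28 * Real.exp u₂ := by
    unfold A3
    have h1 : qr (1 / (P:ℝ) ^ 2) = 1 / Real.sqrt P := by
      unfold qr
      rw [Real.sqrt_div (by norm_num), Real.sqrt_one, Real.sqrt_sq hP0.le,
        Real.sqrt_div (by norm_num), Real.sqrt_one]
    have h2 : Real.sqrt P ≤ Real.exp ((η - 8 / 25 * L) / 2) := by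
      rw [Real.exp_half]; exact Real.sqrt_le_sqrt hP
    have h3 : Real.sqrt Z = Real.exp (ζ / 2) := by rw [hZ, Real.exp_half]
    rw [h1, div_div_eq_mul_div, div_one, h3]
    have hq0 : 0 < 1 / 2 * Real.exp (v / 4) := by positivity
    calc 14 * Real.exp (ζ / 2) / qr (m0 n Z H) * Real.sqrt P
        ≤ 14 * Real.exp (ζ / 2) / (1 / 2 * Real.exp (v / 4)) *
          Real.exp ((η - 8 / 25 * L) / 2) := by gcongr
      _ = 28 * (Real.exp (ζ / 2) / Real.exp (v / 4) * Real.exp ((η - 8 / 25 * L) / 2)) := by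
          field_simp; ring
      _ = 28 * Real.exp u₂ := by
          rw [← Real.exp_sub, ← Real.exp_add]
          congr 2
          rw [hu₂, hv]; ring
  have hP2 : (P:ℝ) ^ 2 ≤ Real.exp (2 * (η - 8 / 25 * L)) := by
    calc (P:ℝ) ^ 2 ≤ Real.exp (η - 8 / 25 * L) ^ 2 := by gcongr
      _ = _ := by rw [← Real.exp_nat_mul]; push_cast; rfl
  have hτ1 : τ ≤ 1 := by
    rw [hτ]; exact Real.exp_le_one_iff.2 (by linarith)
  have hτ0 : 0 < τ := by rw [hτ]; positivity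
  have hη : η ≤ 17 / 50 * L := by linarith
  have e1 : (P:ℝ) ^ 2 * Real.exp u₁ ≤ Real.exp (8 / 25 * L) := by
    calc (P:ℝ) ^ 2 * Real.exp u₁ ≤ Real.exp (2 * (η - 8 / 25 * L)) * Real.exp u₁ := by gcongr
      _ = Real.exp (2 * (η - 8 / 25 * L) + u₁) := by rw [← Real.exp_add]
      _ ≤ Real.exp (8 / 25 * L) := by
          apply Real.exp_le_exp.2
          rw [hu₁]; linarith
  have e2 : (P:ℝ) ^ 2 * Real.exp u₂ ≤ Real.exp (8 / 25 * L) := by
    calc (P:ℝ) ^ 2 * Real.exp u₂ ≤ Real.exp (2 * (η - 8 / 25 * L)) * Real.exp u₂ := by gcongr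
      _ = Real.exp (2 * (η - 8 / 25 * L) + u₂) := by rw [← Real.exp_add]
      _ ≤ Real.exp (8 / 25 * L) := by
          apply Real.exp_le_exp.2
          rw [hu₂]; linarith
  have e3 : (P:ℝ) ^ 2 * (P:ℝ) ^ 2 ≤ Real.exp (8 / 25 * L) := by
    calc (P:ℝ) ^ 2 * (P:ℝ) ^ 2 ≤ Real.exp (2 * (η - 8 / 25 * L)) *
          Real.exp (2 * (η - 8 / 25 * L)) := by gcongr
      _ = Real.exp (2 * (η - 8 / 25 * L) + 2 * (η - 8 / 25 * L)) := by rw [← Real.exp_add]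
      _ ≤ Real.exp (8 / 25 * L) := by
          apply Real.exp_le_exp.2
          linarith
  have hK : K0 n τ Z H P ≤ cG * (2 * Real.exp u₁) + 2 * cG * (92 * Real.exp u₁) +
      cG * (28 * Real.exp u₂) + (P:ℝ) ^ 2 := by
    unfold K0
    have a1 : cG * A1 Z H ≤ cG * (2 * Real.exp u₁) := by gcongr
    have a2 : 2 * cG * A2 n Z H / qr τ ≤ 2 * cG * (92 * Real.exp u₁) := by
      rw [mul_div_assoc]; gcongr
    have a3 : cG * A3 n Z H / qr (1 / (P:ℝ) ^ 2) ≤ cG * (28 * Real.exp u₂) := by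
      rw [mul_div_assoc]; gcongr
    have a4 : τ * (P:ℝ) ^ 2 ≤ (P:ℝ) ^ 2 := by
      have : 0 < (P:ℝ) ^ 2 := by positivity
      nlinarith
    linarith
  calc 2 * (P:ℝ) ^ 2 * K0 n τ Z H P ≤ 2 * (P:ℝ) ^ 2 * (cG * (2 * Real.exp u₁) +
        2 * cG * (92 * Real.exp u₁) + cG * (28 * Real.exp u₂) + (P:ℝ) ^ 2) := by gcongr
    _ = 372 * cG * ((P:ℝ) ^ 2 * Real.exp u₁) + 56 * cG * ((P:ℝ) ^ 2 * Real.exp u₂) +
        2 * ((P:ℝ) ^ 2 * (P:ℝ) ^ 2) := by ring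
    _ ≤ 372 * cG * Real.exp (8 / 25 * L) + 56 * cG * Real.exp (8 / 25 * L) +
        2 * Real.exp (8 / 25 * L) := by gcongr
    _ ≤ (500 * cG + 2) * Real.exp (8 / 25 * L) := by
        have : 0 < cG * Real.exp (8 / 25 * L) := by positivity
        nlinarith

end Pool.Agent.Lib.MP_3ae5b0_nt
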