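import Mathlib

set_option autoImplicit false

open Finset

namespace Pool.Agent.Lib.MP_3ae5b0_nt

/-- primes between 11 and `P` -/
def prs (P : ℕ) : Finset ℕ := (Finset.range (P + 1)).filter (fun p => p.Prime ∧ 11 ≤ p)

lemma prs_mem {P p : ℕ} (h : p ∈ prs P) : p.Prime ∧ 11 ≤ p ∧ p ≤ P := by
  unfold prs at h
  rw [Finset.mem_filter, Finset.mem_range] at h
  exact ⟨h.2.1, h.2.2, by omega⟩

lemma prs_card_ge : ∃ P₀ : ℕ, ∀ P : ℕ, P₀ ≤ P → (P:ℝ) / (4 * Real.log P) ≤ #(prs P) := by
  have h1 : ∀ᶠ x : ℝ in Filter.atTop, Real.log x ≤ 1 / 100 * x := by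
    have h := Real.isLittleO_log_id_atTop.bound (show (0:ℝ) < 1 / 100 by norm_num)
    filter_upwards [h, Filter.eventually_ge_atTop (1:ℝ)] with x hx hx1
    have h2 : 0 ≤ Real.log x := Real.log_nonneg hx1
    rw [Real.norm_eq_abs, abs_of_nonneg h2] at hx
    simpa [abs_of_nonneg (le_trans zero_le_one hx1)] using hx
  obtain ⟨x₀, hx₀⟩ := Filter.eventually_atTop.1 h1
  obtain ⟨P₁, hP₁⟩ := exists_nat_ge x₀
  refine ⟨max P₁ 100, fun P hP => ?_⟩
  have hPx : P₁ ≤ P := le_trans (le_max_left _ _) hP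
  have hP100 : 100 ≤ P := le_trans (le_max_right _ _) hP
  have hP100' : (100:ℝ) ≤ P := by exact_mod_cast hP100
  have hP1' : x₀ ≤ (P:ℝ) := le_trans hP₁ (by exact_mod_cast hPx)
  have l1 := hx₀ P hP1'
  have l2 := hx₀ (P + 1) (by linarith)
  have hlogpos : 0 < Real.log P := Real.log_pos (by linarith)
  have hpi := Chebyshev.pi_ge P
  have hcount : P.primeCounting ≤ #(prs P) + 10 := by
    rw [Nat.primeCounting, Nat.primeCounting', Nat.count_eq_card_filter_range]
    have hsub : (Finset.range (P + 1)).filter Nat.Prime ⊆ prs P ∪ Finset.Ico 1 11 := by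
      intro p hp
      rw [Finset.mem_filter] at hp
      rw [Finset.mem_union]
      by_cases h11 : 11 ≤ p
      · left
        unfold prs
        rw [Finset.mem_filter]
        exact ⟨hp.1, hp.2, h11⟩
      · right
        rw [Finset.mem_Ico]
        exact ⟨hp.2.one_lt.le, by omega⟩
    refine le_trans (Finset.card_le_card hsub) (le_trans (Finset.card_union_le _ _) ?_)
    rw [Nat.card_Ico]
  have hcount' : (P.primeCounting : ℝ) ≤ #(prs P) + 10 := by exact_mod_cast hcount
  have h2 := le_trans hpi hcount'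
  rw [div_le_iff₀ hlogpos] at h2
  rw [div_le_iff₀ (by positivity)]
  have hl2 : 0.6931471803 < Real.log 2 := Real.log_two_gt_d9
  nlinarith

end Pool.Agent.Lib.MP_3ae5b0_nt
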