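import Mathlib
import Pool.Agent.Lib.MP_3ae5b0_nt.Params
import Pool.Agent.Lib.MP_3ae5b0_nt.Primes
import Pool.Agent.Lib.MP_3ae5b0_nt.Count

set_option autoImplicit false

open Finset

namespace Pool.Agent.Lib.MP_3ae5b0_nt

/-- dyadic block of ordered solutions with smallest variable larger than `X`. -/
noncomputable def largeB (n : ℕ) (X : ℝ) (i : ℕ) : Finset (ℕ × ℕ × ℕ) :=
  (osols n).filter (fun p => X < (p.1 : ℝ) ∧ 2 ^ i ≤ p.2.2 ∧ p.2.2 < 2 * 2 ^ i)

lemma mem_largeB {n i x y z : ℕ} {X : ℝ} : (x, y, z) ∈ largeB n X i ↔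
    (0 < x ∧ 0 < y ∧ 0 < z ∧ n = x * y * z + x + y + z ∧ x ≤ y ∧ y ≤ z) ∧
      X < (x : ℝ) ∧ 2 ^ i ≤ z ∧ z < 2 * 2 ^ i := by
  unfold largeB
  rw [Finset.mem_filter, mem_osols]

lemma aux_frac (x y z : ℝ) (hz : z ≠ 0) :
    x * y + 1 - (x * y * z + x + y + z) / z = -((x + y) / z) := by
  field_simp
  ring

lemma largeB_bound (ε : ℝ) (hε : 0 < ε) : ∃ C : ℝ, ∃ L₀ : ℝ, 1 ≤ L₀ ∧ 0 ≤ C ∧ ∀ (n : ℕ) (L : ℝ),
    (n : ℝ) = Real.exp L → L₀ ≤ L → ∀ i : ℕ,
    (#(largeB n (Real.exp ((8 / 25 + ε) * L)) i) : ℝ) ≤ C * L * Real.exp (8 / 25 * L) := by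
  classical
  obtain ⟨P₀, hP₀⟩ := prs_card_ge
  have hcG := cG_pos
  set E : ℝ := Real.exp (16 * Real.pi) with hE
  have hE0 : 0 < E := Real.exp_pos _
  refine ⟨3 * E * (8 + (500 * cG + 2)), max 20 ((Real.log (2 * (P₀ + 100)) + 1) / ε), ?_, ?_, ?_⟩
  · exact le_trans (by norm_num) (le_max_left _ _)
  · positivity
  intro n L hn hL i
  have hL20 : 20 ≤ L := le_trans (le_max_left _ _) hL
  have hLε : (Real.log (2 * (P₀ + 100)) + 1) / ε ≤ L := le_trans (le_max_right _ _) hL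
  have hLε' : Real.log (2 * (P₀ + 100)) + 1 ≤ ε * L := by
    rw [div_le_iff₀ hε] at hLε; linarith
  have hl2 : Real.log 2 < 0.6931471808 := Real.log_two_lt_d9
  have hl2' : 0.6931471803 < Real.log 2 := Real.log_two_gt_d9
  set X : ℝ := Real.exp ((8 / 25 + ε) * L) with hX
  have hX0 : 0 < X := Real.exp_pos _
  rcases (largeB n X i).eq_empty_or_nonempty with he | ⟨⟨x₀, y₀, z₀⟩, hp₀⟩
  · rw [he]
    simp only [Finset.card_empty, Nat.cast_zero]
    positivity
  set Z : ℕ := 2 ^ i with hZdef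
  have hZpos : 0 < Z := by rw [hZdef]; positivity
  have hZ0 : (0:ℝ) < Z := by exact_mod_cast hZpos
  have hn0 : (0:ℝ) < n := by rw [hn]; exact Real.exp_pos _
  have hnpos : 0 < n := by exact_mod_cast hn0
  set ζ : ℝ := Real.log Z with hζ
  have hZexp : (Z:ℝ) = Real.exp ζ := by rw [hζ, Real.exp_log hZ0]
  -- general inequalities
  have hgen : ∀ x y z : ℕ, (x, y, z) ∈ largeB n X i →
      (y:ℝ) < 2 * Real.exp ζ ∧ (y:ℝ) < Real.exp ((17 / 25 - ε) * L - ζ) := by
    intro x y z h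
    obtain ⟨⟨h1, h2, h3, h4, h5, h6⟩, h7, h8, h9⟩ := mem_largeB.1 h
    constructor
    · have : y < 2 * Z := lt_of_le_of_lt h6 h9
      have h10 : (y:ℝ) < 2 * Z := by exact_mod_cast this
      rw [← hZexp]; exact h10
    · have h10 : x * y * z < n := by omega
      have h11 : (x:ℝ) * y * z < n := by exact_mod_cast h10
      have h12 : (Z:ℝ) ≤ z := by exact_mod_cast h8
      have hy0 : (0:ℝ) < y := by exact_mod_cast h2
      have h13 : X * y * Z < n := by
        refine lt_of_le_of_lt ?_ h11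
        gcongr
      have h14 : (y:ℝ) * Real.exp ((8 / 25 + ε) * L + ζ) < Real.exp L := by
        rw [Real.exp_add, ← hZexp, ← hX, ← hn]
        linarith
      have h15 : Real.exp ((17 / 25 - ε) * L - ζ) * Real.exp ((8 / 25 + ε) * L + ζ) = Real.exp L := by
        rw [← Real.exp_add]; congr 1; ring
      rw [← h15] at h14
      exact lt_of_mul_lt_mul_right h14 (Real.exp_pos _).le
  set η : ℝ := min ζ ((17 / 25 - ε) * L - ζ) with hη
  have hη1 : η ≤ ζ := min_le_left _ _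
  have hη2 : η ≤ (17 / 25 - ε) * L - ζ := min_le_right _ _
  have hεL : 0 < ε * L := by positivity
  have hsum : η + ζ ≤ 17 / 25 * L := by nlinarith
  have hy2 : ∀ x y z : ℕ, (x, y, z) ∈ largeB n X i → (y:ℝ) < 2 * Real.exp η := by
    intro x y z h
    obtain ⟨a, b⟩ := hgen x y z h
    rw [hη]
    rcases min_choice ζ ((17 / 25 - ε) * L - ζ) with h' | h' <;> rw [h']
    · exact a
    · have := Real.exp_pos ((17 / 25 - ε) * L - ζ)
      linarith
  -- size of eta
  obtain ⟨⟨g1, g2, g3, g4, g5, g6⟩, g7, g8, g9⟩ := mem_largeB.1 hp₀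
  have hηlow : (8 / 25 + ε) * L - Real.log 2 < η := by
    have h1 := hy2 x₀ y₀ z₀ hp₀
    have h2 : (x₀:ℝ) ≤ y₀ := by exact_mod_cast g5
    have h3 : X < 2 * Real.exp η := by linarith
    have h4 : Real.exp ((8 / 25 + ε) * L) < Real.exp (Real.log 2 + η) := by
      rw [Real.exp_add, Real.exp_log (by norm_num)]; exact h3
    have := Real.exp_lt_exp.1 h4
    linarith
  -- n < 32 Z^3
  have hζlow : L < Real.log 32 + 3 * ζ := by
    have h1 : n ≤ 4 * z₀ ^ 3 := by
      have hx : x₀ ≤ z₀ := le_trans g5 g6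
      have h2 : x₀ * y₀ * z₀ ≤ z₀ * z₀ * z₀ := Nat.mul_le_mul (Nat.mul_le_mul hx g6) le_rfl
      have h3 : z₀ ≤ z₀ * z₀ * z₀ := by nlinarith [Nat.mul_le_mul g3 g3]
      have h4 : z₀ ^ 3 = z₀ * z₀ * z₀ := by ring
      omega
    have h2 : z₀ ^ 3 < (2 * Z) ^ 3 := Nat.pow_lt_pow_left g9 (by norm_num)
    have h3 : n < 32 * Z ^ 3 := by
      calc n ≤ 4 * z₀ ^ 3 := h1
        _ < 4 * (2 * Z) ^ 3 := by omega
        _ = 32 * Z ^ 3 := by ring
    have h4 : (n:ℝ) < 32 * (Z:ℝ) ^ 3 := by exact_mod_cast h3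
    rw [hn, hZexp, ← Real.exp_nat_mul] at h4
    have h5 : Real.exp L < Real.exp (Real.log 32 + ((3:ℕ):ℝ) * ζ) := by
      rw [Real.exp_add, Real.exp_log (by norm_num)]; exact h4
    have := Real.exp_lt_exp.1 h5
    push_cast at this
    exact this
  have hlog32 : Real.log 32 = 5 * Real.log 2 := by
    rw [show (32:ℝ) = 2 ^ 5 by norm_num, Real.log_pow]; push_cast; ring
  -- H
  set h : ℝ := Real.exp ((η + 3 * ζ - L) / 3) with hh
  have hh1 : 1 ≤ h := by
    rw [hh]; apply Real.one_le_exp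
    have : 0 ≤ η + 3 * ζ - L := by nlinarith
    linarith
  set H : ℕ := ⌈h⌉₊ with hH
  have hH1 : h ≤ H := Nat.le_ceil h
  have hH2 : (H:ℝ) ≤ 2 * h := by
    have := Nat.ceil_lt_add_one (by linarith : (0:ℝ) ≤ h)
    rw [← hH] at this
    linarith
  have hH1' : 1 ≤ H := by
    have : (1:ℝ) ≤ H := le_trans hh1 hH1
    exact_mod_cast this
  have hHZ : H ≤ Z := by
    have h1 : 2 * h ≤ Z := by
      rw [hZexp, hh]
      calc 2 * Real.exp ((η + 3 * ζ - L) / 3) =
          Real.exp (Real.log 2 + (η + 3 * ζ - L) / 3) := by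
            rw [Real.exp_add, Real.exp_log (by norm_num)]
        _ ≤ Real.exp ζ := by
            apply Real.exp_le_exp.2
            have : η ≤ 17 / 50 * L := by linarith
            linarith
    have h2 : (H:ℝ) ≤ Z := le_trans hH2 h1
    exact_mod_cast h2
  -- P
  set P : ℕ := ⌊Real.exp (η - 8 / 25 * L)⌋₊ with hP
  have hPle : (P:ℝ) ≤ Real.exp (η - 8 / 25 * L) := Nat.floor_le (Real.exp_pos _).le
  have hPbig : (P₀:ℝ) + 100 ≤ Real.exp (η - 8 / 25 * L) := by
    have h1 : Real.log (P₀ + 100) ≤ η - 8 / 25 * L := by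
      have e : Real.log (2 * (P₀ + 100)) = Real.log 2 + Real.log (P₀ + 100) :=
        Real.log_mul (by norm_num) (by positivity)
      rw [e] at hLε'
      linarith
    calc (P₀:ℝ) + 100 = Real.exp (Real.log (P₀ + 100)) := by
          rw [Real.exp_log (by positivity)]
      _ ≤ _ := Real.exp_le_exp.2 h1
  have hPP₀ : P₀ + 100 ≤ P := by
    apply Nat.le_floor
    push_cast
    exact hPbig
  have hP100 : 100 ≤ P := by omega
  have hP100' : (100:ℝ) ≤ P := by exact_mod_cast hP100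
  have hPge : Real.exp (η - 8 / 25 * L) ≤ 2 * P := by
    have := Nat.lt_floor_add_one (Real.exp (η - 8 / 25 * L))
    rw [← hP] at this
    linarith
  have hprs := hP₀ P (by omega)
  have hlogP0 : 0 < Real.log P := Real.log_pos (by linarith)
  have hlogP : Real.log P ≤ L := by
    have h1 : Real.log P ≤ η - 8 / 25 * L := by
      have := Real.log_le_log (by linarith) hPle
      rwa [Real.log_exp] at this
    have : η ≤ 17 / 50 * L := by linarith
    linarith
  have hprs0 : (0:ℝ) < #(prs P) := lt_of_lt_of_le (by positivity) hprs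
  have hprsne : (prs P).Nonempty := by
    rw [← Finset.card_pos]; exact_mod_cast hprs0
  -- tau
  set τ : ℝ := Real.exp (η - ζ) with hτ
  have hτ0 : 0 < τ := Real.exp_pos _
  have hτ1 : τ ≤ 1 := Real.exp_le_one_iff.2 (by linarith)
  -- the set of pairs
  set Sol : Finset (ℕ × ℤ) := (largeB n X i).image (fun p => (p.2.2, ((p.1 * p.2.1 + 1 : ℕ) : ℤ)))
    with hSol
  have hcard : #Sol = #(largeB n X i) := by
    rw [hSol]
    apply Finset.card_image_of_injOn
    rintro ⟨x, y, z⟩ hp ⟨x', y', z'⟩ hp' heq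
    rw [Finset.mem_coe] at hp hp'
    obtain ⟨⟨a1, a2, a3, a4, a5, a6⟩, _, _, _⟩ := mem_largeB.1 hp
    obtain ⟨⟨b1, b2, b3, b4, b5, b6⟩, _, _, _⟩ := mem_largeB.1 hp'
    simp only [Prod.mk.injEq] at heq
    obtain ⟨e1, e2⟩ := heq
    have e2' : x * y + 1 = x' * y' + 1 := by exact_mod_cast e2
    subst e1
    have e3 : x * y = x' * y' := by omega
    have e4 : x + y = x' + y' := by
      rw [a4, e3] at b4
      omega
    -- x ≤ y, x' ≤ y'
    have e5 : x = x' := by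
      zify at e3 e4 a5 b5 ⊢
      have h1 : ((x:ℤ) - x') * ((x:ℤ) - y') = 0 := by
        have : (y:ℤ) = x' + y' - x := by linarith
        rw [this] at e3
        linear_combination (-1) * e3
      rcases mul_eq_zero.1 h1 with h2 | h2
      · linarith
      · linarith
    subst e5
    have : y = y' := by omega
    rw [this]
  have hSol1 : ∀ s ∈ Sol, s.1 ∈ Ico Z (2 * Z) ∧ |(s.2 : ℝ) - n / s.1| ≤ 4 * τ := by
    intro s hs
    rw [hSol, Finset.mem_image] at hs
    obtain ⟨⟨x, y, z⟩, hp, rfl⟩ := hs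
    obtain ⟨⟨a1, a2, a3, a4, a5, a6⟩, a7, a8, a9⟩ := mem_largeB.1 hp
    have hy := hy2 x y z hp
    refine ⟨Finset.mem_Ico.2 ⟨a8, a9⟩, ?_⟩
    simp only
    have hz0 : (0:ℝ) < z := by exact_mod_cast a3
    have hzZ : (Z:ℝ) ≤ z := by exact_mod_cast a8
    have hxy : (x:ℝ) ≤ y := by exact_mod_cast a5
    have hn' : (n:ℝ) = (x:ℝ) * y * z + x + y + z := by exact_mod_cast a4
    have e : (((x * y + 1 : ℕ) : ℤ) : ℝ) - n / z = -((x + y) / z) := by
      rw [hn']
      push_cast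
      exact aux_frac x y z hz0.ne'
    rw [e, abs_neg, abs_of_nonneg (by positivity)]
    have hτZ : τ = Real.exp η / Z := by
      rw [hτ, Real.exp_sub, hZexp]
    rw [hτZ]
    calc ((x:ℝ) + y) / z ≤ (4 * Real.exp η) / Z := by
          apply div_le_div₀ (by positivity) (by linarith) hZ0 hzZ
      _ = 4 * (Real.exp η / Z) := by ring
  have hSol2 : ∀ s ∈ Sol, ∃ x y : ℤ, x * y * s.1 + x + y + s.1 = n ∧ s.2 = x * y + 1 := by
    intro s hs
    rw [hSol, Finset.mem_image] at hs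
    obtain ⟨⟨x, y, z⟩, hp, rfl⟩ := hs
    obtain ⟨⟨a1, a2, a3, a4, a5, a6⟩, a7, a8, a9⟩ := mem_largeB.1 hp
    refine ⟨x, y, ?_, ?_⟩
    · have : ((n:ℕ):ℤ) = (x:ℤ) * y * z + x + y + z := by exact_mod_cast a4
      rw [this]
    · push_cast; rfl
  have hmain := block_bound n Z H P τ hnpos hτ0 hτ1 hH1' hHZ (prs P) (fun p hp => prs_mem hp)
    hprsne Sol hSol1 hSol2
  rw [hcard] at hmain
  have hK := K0_exp L η ζ τ n Z H P hn (by linarith) hZexp hτ (by omega) hPle hH1 hH2 hη1 hsum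
  -- first term
  have hτZ' : τ * Z = Real.exp η := by
    rw [hτ, Real.exp_sub, ← hZexp]; field_simp
  have hfirst : τ * Z / #(prs P) ≤ 8 * L * Real.exp (8 / 25 * L) := by
    rw [hτZ', div_le_iff₀ hprs0]
    have h1 : Real.exp η = Real.exp (η - 8 / 25 * L) * Real.exp (8 / 25 * L) := by
      rw [← Real.exp_add]; congr 1; ring
    have h2 : (P:ℝ) ≤ #(prs P) * (4 * Real.log P) := by
      rwa [div_le_iff₀ (by positivity)] at hprs
    calc Real.exp η = Real.exp (η - 8 / 25 * L) * Real.exp (8 / 25 * L) := h1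
      _ ≤ (2 * P) * Real.exp (8 / 25 * L) := by gcongr
      _ ≤ (2 * (#(prs P) * (4 * Real.log P))) * Real.exp (8 / 25 * L) := by gcongr
      _ ≤ (2 * (#(prs P) * (4 * L))) * Real.exp (8 / 25 * L) := by
          have h3 : (#(prs P) : ℝ) * (4 * Real.log P) ≤ #(prs P) * (4 * L) :=
            mul_le_mul_of_nonneg_left (by linarith) hprs0.le
          exact mul_le_mul_of_nonneg_right (by linarith) (Real.exp_pos _).le
      _ = 8 * L * Real.exp (8 / 25 * L) * #(prs P) := by ring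
  have hpos2 : 0 < Real.exp (8 / 25 * L) := Real.exp_pos _
  calc (#(largeB n X i) : ℝ) ≤ 3 * E * (τ * Z / #(prs P) + 2 * (P:ℝ) ^ 2 * K0 n τ Z H P) := hmain
    _ ≤ 3 * E * (8 * L * Real.exp (8 / 25 * L) + (500 * cG + 2) * Real.exp (8 / 25 * L)) := by
        gcongr
    _ ≤ 3 * E * (8 * L * Real.exp (8 / 25 * L) + (500 * cG + 2) * (L * Real.exp (8 / 25 * L))) := by
        gcongr
        nlinarith
    _ = 3 * E * (8 + (500 * cG + 2)) * L * Real.exp (8 / 25 * L) := by ring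

end Pool.Agent.Lib.MP_3ae5b0_nt
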