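import Mathlib
import Pool.Agent.Lib.MP_3ae5b0_nt.Large

set_option autoImplicit false

open Finset

namespace Pool.Agent.Lib.MP_3ae5b0_nt

lemma osols_cover (n : ℕ) (X : ℝ) :
    osols n ⊆ smallS n X ∪ (range (Nat.log 2 n + 1)).biUnion (fun i => largeB n X i) := by
  rintro ⟨x, y, z⟩ h
  have h' := mem_osols.1 h
  obtain ⟨h1, h2, h3, h4, h5, h6⟩ := h'
  rw [Finset.mem_union]
  by_cases hx : (x : ℝ) ≤ X
  · left
    unfold smallS
    rw [Finset.mem_filter]
    exact ⟨h, hx⟩
  · right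
    rw [Finset.mem_biUnion]
    have hzn : z ≤ n := by
      have : 0 ≤ x * y * z := Nat.zero_le _
      omega
    refine ⟨Nat.log 2 z, ?_, ?_⟩
    · rw [Finset.mem_range]
      have := Nat.log_mono_right (b := 2) hzn
      omega
    · rw [mem_largeB]
      refine ⟨⟨h1, h2, h3, h4, h5, h6⟩, not_le.1 hx, Nat.pow_log_le_self 2 (by omega), ?_⟩
      have := Nat.lt_pow_succ_log_self (b := 2) (by norm_num) z
      rw [Nat.succ_eq_add_one, pow_succ] at this
      linarith

theorem main_bound (ε : ℝ) (hε : 0 < ε) : ∃ C : ℝ, ∀ n : ℕ, 1 ≤ n →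
    (#(sols n) : ℝ) ≤ C * (n : ℝ) ^ (8 / 25 + ε) := by
  classical
  set δ : ℝ := ε / 4 with hδ
  have hδ0 : 0 < δ := by positivity
  obtain ⟨CB, L₀, hL₀, hCB, hB⟩ := largeB_bound δ hδ0
  obtain ⟨CS, hCS, hS⟩ := smallS_le δ hδ0
  refine ⟨6 * (CS + 3 * CB / δ ^ 2) + Real.exp (3 * L₀), ?_⟩
  intro n hn
  have hn' : (1:ℝ) ≤ n := by exact_mod_cast hn
  have hn0 : (0:ℝ) < n := by linarith
  set L : ℝ := Real.log n with hL
  have hL0 : 0 ≤ L := Real.log_nonneg hn'
  have hnL : (n:ℝ) = Real.exp L := by rw [hL, Real.exp_log hn0]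
  have hpow : ∀ u : ℝ, (n:ℝ) ^ u = Real.exp (u * L) := by
    intro u
    rw [Real.rpow_def_of_pos hn0, mul_comm]
  have hbig : 1 ≤ (n:ℝ) ^ (8 / 25 + ε) := Real.one_le_rpow hn' (by positivity)
  have hc1 : 0 ≤ 6 * (CS + 3 * CB / δ ^ 2) := by positivity
  rcases lt_or_ge L L₀ with h | h
  · have h1 : (#(sols n) : ℝ) ≤ (n:ℝ) ^ 3 := by exact_mod_cast sols_card_le n
    have h2 : (n:ℝ) ^ 3 ≤ Real.exp (3 * L₀) := by
      rw [hnL, ← Real.exp_nat_mul]
      apply Real.exp_le_exp.2
      push_cast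
      linarith
    have h3 : 0 < Real.exp (3 * L₀) := Real.exp_pos _
    nlinarith
  · have hL1 : 1 ≤ L := le_trans hL₀ h
    set X : ℝ := Real.exp ((8 / 25 + δ) * L) with hX
    have hX0 : 0 < X := Real.exp_pos _
    have hcov := osols_cover n X
    have h1 : #(osols n) ≤ #(smallS n X) + ∑ i ∈ range (Nat.log 2 n + 1), #(largeB n X i) := by
      refine le_trans (Finset.card_le_card hcov) (le_trans (Finset.card_union_le _ _) ?_)
      exact Nat.add_le_add le_rfl Finset.card_biUnion_le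
    have h1' : (#(osols n) : ℝ) ≤ #(smallS n X) +
        ∑ i ∈ range (Nat.log 2 n + 1), (#(largeB n X i) : ℝ) := by exact_mod_cast h1
    have h2 : (#(smallS n X) : ℝ) ≤ CS * Real.exp ((8 / 25 + ε) * L) := by
      have h3 := hS n hn X hX0.le
      rw [hpow] at h3
      refine le_trans h3 ?_
      rw [mul_assoc]
      refine mul_le_mul_of_nonneg_left ?_ hCS
      rw [hX, ← Real.exp_add]
      apply Real.exp_le_exp.2
      have : ε = 4 * δ := by rw [hδ]; ring
      rw [this]
      nlinarith [mul_pos hδ0 (lt_of_lt_of_le one_pos hL1)]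
    have h3 : ∑ i ∈ range (Nat.log 2 n + 1), (#(largeB n X i) : ℝ) ≤
        3 * CB / δ ^ 2 * Real.exp ((8 / 25 + ε) * L) := by
      have h4 : ∑ i ∈ range (Nat.log 2 n + 1), (#(largeB n X i) : ℝ) ≤
          ∑ i ∈ range (Nat.log 2 n + 1), CB * L * Real.exp (8 / 25 * L) :=
        Finset.sum_le_sum (fun i _ => hB n L hnL h i)
      rw [Finset.sum_const, Finset.card_range, nsmul_eq_mul] at h4
      have h5 : ((Nat.log 2 n + 1 : ℕ) : ℝ) ≤ 3 * L := by
        have h6 : 2 ^ Nat.log 2 n ≤ n := Nat.pow_log_le_self 2 (by omega)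
        have h7 : (2:ℝ) ^ Nat.log 2 n ≤ n := by exact_mod_cast h6
        have h8 : (Nat.log 2 n : ℝ) * Real.log 2 ≤ L := by
          have := Real.log_le_log (by positivity) h7
          rwa [Real.log_pow] at this
        have h9 : 0.6931471803 < Real.log 2 := Real.log_two_gt_d9
        have h10 : (0:ℝ) ≤ (Nat.log 2 n : ℝ) := Nat.cast_nonneg _
        push_cast
        nlinarith
      have h6 : L ^ 2 ≤ 1 / δ ^ 2 * Real.exp (2 * δ * L) := by
        have h7 : δ * L ≤ Real.exp (δ * L) := by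
          have := Real.add_one_le_exp (δ * L)
          linarith
        have h8 : (δ * L) ^ 2 ≤ Real.exp (δ * L) ^ 2 := by
          have : 0 ≤ δ * L := by positivity
          gcongr
        have h9 : Real.exp (δ * L) ^ 2 = Real.exp (2 * δ * L) := by
          rw [← Real.exp_nat_mul]; congr 1; push_cast; ring
        rw [h9, mul_pow] at h8
        rw [one_div, ← div_eq_inv_mul, le_div_iff₀ (by positivity)]
        linarith
      refine le_trans h4 ?_
      calc ((Nat.log 2 n + 1 : ℕ) : ℝ) * (CB * L * Real.exp (8 / 25 * L))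
          ≤ (3 * L) * (CB * L * Real.exp (8 / 25 * L)) := by gcongr
        _ = 3 * CB * L ^ 2 * Real.exp (8 / 25 * L) := by ring
        _ ≤ 3 * CB * (1 / δ ^ 2 * Real.exp (2 * δ * L)) * Real.exp (8 / 25 * L) := by gcongr
        _ = 3 * CB / δ ^ 2 * Real.exp (2 * δ * L + 8 / 25 * L) := by rw [Real.exp_add]; ring
        _ ≤ 3 * CB / δ ^ 2 * Real.exp ((8 / 25 + ε) * L) := by
            refine mul_le_mul_of_nonneg_left ?_ (by positivity)
            apply Real.exp_le_exp.2
            have : ε = 4 * δ := by rw [hδ]; ring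
            rw [this]
            nlinarith [mul_pos hδ0 (lt_of_lt_of_le one_pos hL1)]
    have h4 : (#(sols n) : ℝ) ≤ 6 * #(osols n) := by exact_mod_cast sols_le n
    rw [hpow]
    have h5 : 0 < Real.exp (3 * L₀) := Real.exp_pos _
    have h6 : 0 < Real.exp ((8 / 25 + ε) * L) := Real.exp_pos _
    calc (#(sols n) : ℝ) ≤ 6 * #(osols n) := h4
      _ ≤ 6 * (CS * Real.exp ((8 / 25 + ε) * L) +
          3 * CB / δ ^ 2 * Real.exp ((8 / 25 + ε) * L)) := by linarith
      _ = 6 * (CS + 3 * CB / δ ^ 2) * Real.exp ((8 / 25 + ε) * L) := by ring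
      _ ≤ (6 * (CS + 3 * CB / δ ^ 2) + Real.exp (3 * L₀)) * Real.exp ((8 / 25 + ε) * L) := by
          gcongr
          linarith

end Pool.Agent.Lib.MP_3ae5b0_nt
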