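import Mathlib
import Pool.Agent.Lib.MP_3ae5b0_nt.DivBound

set_option autoImplicit false

/-!
# The second moment: counting pairs of representations
-/

namespace Pool.Agent.Lib.MP_3ae5b0_nt.Mo

/-- the form -/
def ff (x y z : ℕ) : ℕ := x * y * z + x + y + z

/-- the pairs of representations, `x` smallest in the first triple, `w` largest of all -/
structure Pr (X x y z u v w : ℕ) : Prop where
  x1 : 1 ≤ x
  u1 : 1 ≤ u
  v1 : 1 ≤ v
  xy : x ≤ y
  xz : x ≤ z
  yw : y ≤ w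
  zw : z ≤ w
  uw : u ≤ w
  vw : v ≤ w
  eq : ff x y z = ff u v w
  le : ff x y z ≤ X

/-- Dirichlet -/
theorem dirichlet {x D T : ℕ} (hD : 1 ≤ D) (hT : 1 ≤ T) :
    ∃ (t : ℕ) (a b : ℤ), 1 ≤ t ∧ t ≤ T ∧ (t : ℤ) * x = a + b * D ∧ |a| * (T + 1) ≤ D := by
  obtain ⟨j, k, hk0, hkT, h⟩ := Real.exists_int_int_abs_mul_sub_le ((x : ℝ) / D) (n := T) (by omega)
  refine ⟨k.toNat, k * x - j * D, j, by omega, by omega, ?_, ?_⟩
  · rw [Int.toNat_of_nonneg hk0.le]; ring
  · have hD' : (0 : ℝ) < D := by exact_mod_cast hD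
    have h1 : |((k * x - j * D : ℤ) : ℝ)| * ((T : ℝ) + 1) ≤ D := by
      have e : ((k * x - j * D : ℤ) : ℝ) = ((k : ℝ) * ((x : ℝ) / D) - j) * D := by
        push_cast; field_simp
      rw [e, abs_mul, abs_of_pos hD']
      have h2 : |(k : ℝ) * ((x : ℝ) / D) - j| * ((T : ℝ) + 1) ≤ 1 := by
        rw [le_div_iff₀ (by positivity)] at h
        exact h
      nlinarith
    exact_mod_cast h1

/-- the parameters for `x`, `D` -/
theorem param {x D : ℕ} (hx : 1 ≤ x) (hD : 1 ≤ D) (h1 : x ≤ D ^ 2) (h2 : Nat.gcd x D ^ 2 < x) :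
    ∃ (t : ℕ) (a b : ℤ), 1 ≤ t ∧ t ^ 2 * x ≤ D ^ 2 ∧ (t : ℤ) * x = a + b * D ∧ a ^ 2 < x ∧
      a ≠ 0 := by
  set T := Nat.sqrt (D ^ 2 / x) with hT
  have hT1 : T ^ 2 * x ≤ D ^ 2 := by
    have h3 : T ^ 2 ≤ D ^ 2 / x := by rw [pow_two]; exact Nat.sqrt_le _
    exact (Nat.mul_le_mul_right x h3).trans (Nat.div_mul_le_self _ _)
  have hT2 : D ^ 2 < (T + 1) ^ 2 * x := by
    have h3 : D ^ 2 / x < (T + 1) * (T + 1) := Nat.lt_succ_sqrt _
    rw [← pow_two] at h3
    exact (Nat.div_lt_iff_lt_mul (by omega)).1 h3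
  have hT0 : 1 ≤ T := by
    rw [hT, Nat.one_le_iff_ne_zero]
    intro h
    rw [Nat.sqrt_eq_zero] at h
    have := (Nat.div_eq_zero_iff).1 h
    omega
  obtain ⟨t, a, b, ht1, htT, he, ha⟩ := dirichlet (x := x) hD hT0
  refine ⟨t, a, b, ht1, ?_, he, ?_, ?_⟩
  · exact (Nat.mul_le_mul_right x (Nat.pow_le_pow_left htT 2)).trans hT1
  · have h3 : (|a| * (T + 1)) ^ 2 ≤ (D : ℤ) ^ 2 := by
      have : (0 : ℤ) ≤ |a| * (T + 1) := by positivity
      nlinarith
    have h4 : (D : ℤ) ^ 2 < ((T : ℤ) + 1) ^ 2 * x := by exact_mod_cast hT2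
    rw [mul_pow, sq_abs] at h3
    have h5 : a ^ 2 * ((T : ℤ) + 1) ^ 2 < x * ((T : ℤ) + 1) ^ 2 := by linarith
    exact lt_of_mul_lt_mul_right h5 (by positivity)
  · rintro rfl
    rw [zero_add] at he
    have h3 : D ∣ t * x := by
      have : (D : ℤ) ∣ ((t * x : ℕ) : ℤ) := ⟨b, by push_cast; rw [he]; ring⟩
      exact_mod_cast this
    have h4 : D ≤ t * Nat.gcd x D := by
      have h5 : D ∣ t * Nat.gcd x D := by
        rw [← Nat.gcd_mul_left]
        exact Nat.dvd_gcd h3 (Dvd.intro_left t rfl)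
      exact Nat.le_of_dvd (Nat.mul_pos (by omega) (Nat.gcd_pos_of_pos_left _ (by omega))) h5
    have h5 : D ^ 2 ≤ T ^ 2 * Nat.gcd x D ^ 2 := by
      calc D ^ 2 ≤ (t * Nat.gcd x D) ^ 2 := Nat.pow_le_pow_left h4 2
        _ ≤ (T * Nat.gcd x D) ^ 2 := Nat.pow_le_pow_left (Nat.mul_le_mul_right _ htT) 2
        _ = _ := mul_pow _ _ _
    have h6 : T ^ 2 * Nat.gcd x D ^ 2 < T ^ 2 * x := Nat.mul_lt_mul_of_pos_left h2 (by positivity)
    omega

/-- the identity -/
theorem ident {x y z u v w t : ℕ} {a b : ℤ} (he : (t : ℤ) * x = a + b * (u * v + 1 : ℕ))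
    (h : ff x y z = ff u v w) :
    a * y * z + t * (y + z + ((x : ℤ) - u - v)) =
      (t * w - b * y * z) * (u * v + 1 : ℕ) := by
  have h1 : (x : ℤ) * y * z + x + y + z = u * v * w + u + v + w := by
    have := h
    unfold ff at this
    exact_mod_cast this
  have h2 : a = t * x - b * (u * v + 1 : ℕ) := by rw [he]; ring
  rw [h2]
  push_cast
  linear_combination (t : ℤ) * h1

theorem ident2 {y z t : ℤ} {a c k D : ℤ} (h : a * y * z + t * (y + z + c) = k * D) :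
    (a * y + t) * (a * z + t) = a * (k * D - t * c) + t ^ 2 := by
  linear_combination a * h

/-- the bound for `k` -/
theorem kbound {X x y z u v w t : ℕ} {a k : ℤ} (hP : Pr X x y z u v w)
    (ht : t ^ 2 * x ≤ (u * v + 1) ^ 2) (ha : a ^ 2 < x)
    (h : a * y * z + t * (y + z + ((x : ℤ) - u - v)) = k * (u * v + 1 : ℕ)) :
    (|k| : ℝ) ≤ 11 * X / (Real.sqrt x * (u * v + 1 : ℕ)) := by
  obtain ⟨hx1, hu1, hv1, hxy, hxz, hyw, hzw, huw, hvw, heq, hle⟩ := hP
  have hle' : ff u v w ≤ X := heq ▸ hle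
  unfold ff at hle hle'
  set D : ℝ := ((u * v + 1 : ℕ) : ℝ) with hD
  have hD0 : 0 < D := by rw [hD]; positivity
  set s := Real.sqrt x with hs
  have hx0 : (0 : ℝ) < x := by exact_mod_cast hx1
  have hs0 : 0 < s := Real.sqrt_pos.2 hx0
  have hss : s * s = x := Real.mul_self_sqrt hx0.le
  -- a
  have ha' : |(a : ℝ)| ≤ s := by
    rw [hs]
    apply Real.abs_le_sqrt
    exact_mod_cast ha.le
  -- t
  have ht' : (t : ℝ) * s ≤ D := by
    have h1 : ((t : ℝ) * s) ^ 2 ≤ D ^ 2 := by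
      have h2 : ((t : ℝ)) ^ 2 * x ≤ D ^ 2 := by rw [hD]; exact_mod_cast ht
      calc ((t : ℝ) * s) ^ 2 = (t : ℝ) ^ 2 * (s * s) := by ring
        _ = (t : ℝ) ^ 2 * x := by rw [hss]
        _ ≤ _ := h2
    exact le_of_sq_le_sq h1 hD0.le
  -- y z x <= X
  have hyz : (x : ℝ) * (y * z) ≤ X := by
    have : x * (y * z) ≤ X := by
      have : x * (y * z) = x * y * z := by ring
      omega
    exact_mod_cast this
  -- w D <= 2 X
  have hwD : (w : ℝ) * D ≤ 2 * X := by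
    have h1 : w * (u * v + 1) ≤ 2 * X := by
      have h2 : w * (u * v + 1) = u * v * w + w := by ring
      omega
    rw [hD]; exact_mod_cast h1
  have hyzw : |((y : ℝ) + z + ((x : ℝ) - u - v))| ≤ 5 * w := by
    have a1 : (y : ℝ) ≤ w := by exact_mod_cast hyw
    have a2 : (z : ℝ) ≤ w := by exact_mod_cast hzw
    have a3 : (u : ℝ) ≤ w := by exact_mod_cast huw
    have a4 : (v : ℝ) ≤ w := by exact_mod_cast hvw
    have a5 : (x : ℝ) ≤ w := by exact_mod_cast hxz.trans hzw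
    have a6 : (0 : ℝ) ≤ y := by positivity
    have a7 : (0 : ℝ) ≤ z := by positivity
    have a8 : (0 : ℝ) ≤ u := by positivity
    have a9 : (0 : ℝ) ≤ v := by positivity
    rw [abs_le]
    constructor <;> linarith
  have hk : (|(k : ℝ)|) * D ≤ s * (y * z) + t * (5 * w) := by
    have h1 : (a : ℝ) * y * z + t * (y + z + ((x : ℝ) - u - v)) = k * D := by
      rw [hD]; exact_mod_cast h
    calc |(k : ℝ)| * D = |(k : ℝ) * D| := by rw [abs_mul, abs_of_pos hD0]
      _ = |(a : ℝ) * y * z + t * (y + z + ((x : ℝ) - u - v))| := by rw [h1]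
      _ ≤ |(a : ℝ) * y * z| + |(t : ℝ) * (y + z + ((x : ℝ) - u - v))| := abs_add_le _ _
      _ ≤ s * (y * z) + t * (5 * w) := by
          refine add_le_add ?_ ?_
          · rw [mul_assoc, abs_mul, abs_of_nonneg (by positivity : (0 : ℝ) ≤ (y : ℝ) * z)]
            exact mul_le_mul_of_nonneg_right ha' (by positivity)
          · rw [abs_mul, abs_of_nonneg (by positivity : (0 : ℝ) ≤ (t : ℝ))]
            exact mul_le_mul_of_nonneg_left hyzw (by positivity)
  rw [le_div_iff₀ (by positivity)]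
  have h2 : |(k : ℝ)| * (s * D) ≤ 11 * X := by
    calc |(k : ℝ)| * (s * D) = s * (|(k : ℝ)| * D) := by ring
      _ ≤ s * (s * (y * z) + t * (5 * w)) := mul_le_mul_of_nonneg_left hk hs0.le
      _ = (s * s) * (y * z) + 5 * ((t * s) * w) := by ring
      _ ≤ X + 5 * (D * w) := by
          rw [hss]
          have : (t : ℝ) * s * w ≤ D * w := mul_le_mul_of_nonneg_right ht' (by positivity)
          linarith
      _ ≤ 11 * X := by nlinarith
  have e : ((|k| : ℤ) : ℝ) = |(k : ℝ)| := by push_cast; rfl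
  simpa using h2

/-! ### Fibres -/

/-- six numbers -/
abbrev P6 := ℕ × ℕ × ℕ × ℕ × ℕ × ℕ

/-- the property of a sextuple -/
def Pp (X : ℕ) (p : P6) : Prop := Pr X p.1 p.2.1 p.2.2.1 p.2.2.2.1 p.2.2.2.2.1 p.2.2.2.2.2

/-- the degenerate sextuples -/
def Bad (p : P6) : Prop :=
  (∃ a : ℕ, 1 ≤ a ∧ a ^ 2 < p.1 ∧ ((p.2.2.2.1 * p.2.2.2.2.1 + 1) ∣ a * (p.1 * p.2.1 + 1) ∨
    (p.2.2.2.1 * p.2.2.2.2.1 + 1) ∣ a * (p.1 * p.2.2.1 + 1))) ∨
  (p.2.2.2.1 * p.2.2.2.2.1 + 1) ^ 2 < p.1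

theorem bounds {X x y z u v w : ℕ} (h : Pr X x y z u v w) :
    x ≤ X ∧ y ≤ X ∧ z ≤ X ∧ u ≤ X ∧ v ≤ X ∧ w ≤ X ∧ u * v + 1 ≤ X ∧ w * (u * v + 1) ≤ X ∧
      x * y * z ≤ X ∧ x ^ 3 ≤ X ∧ (u * v) ^ 3 ≤ X ^ 2 := by
  obtain ⟨hx1, hu1, hv1, hxy, hxz, hyw, hzw, huw, hvw, heq, hle⟩ := h
  have hle' : ff u v w ≤ X := heq ▸ hle
  unfold ff at hle hle'
  have e1 : w * (u * v + 1) = u * v * w + w := by ring
  have h1 : w * (u * v + 1) ≤ X := by omega
  have h2 : u * v + 1 ≤ X := by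
    have : 1 * (u * v + 1) ≤ w * (u * v + 1) := Nat.mul_le_mul_right _ (by omega)
    omega
  refine ⟨by omega, by omega, by omega, by omega, by omega, by omega, h2, h1, by omega, ?_, ?_⟩
  · calc x ^ 3 = x * x * x := by ring
      _ ≤ x * y * z := Nat.mul_le_mul (Nat.mul_le_mul_left x hxy) hxz
      _ ≤ X := by omega
  · have h3 : u * v ≤ w * w := Nat.mul_le_mul huw hvw
    calc (u * v) ^ 3 = (u * v) ^ 2 * (u * v) := by ring
      _ ≤ (u * v) ^ 2 * (w * w) := Nat.mul_le_mul_left _ h3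
      _ = (u * v * w) ^ 2 := by ring
      _ ≤ X ^ 2 := Nat.pow_le_pow_left (by omega) 2

open Finset

open scoped Classical in
/-- the set of all sextuples -/
noncomputable def QQ (X : ℕ) : Finset P6 :=
  ((Finset.Icc 1 X) ×ˢ (Finset.Icc 1 X) ×ˢ (Finset.Icc 1 X) ×ˢ (Finset.Icc 1 X) ×ˢ
    (Finset.Icc 1 X) ×ˢ (Finset.Icc 1 X)).filter (Pp X)

theorem mem_QQ {X : ℕ} {p : P6} : p ∈ QQ X ↔ Pp X p := by
  classical
  unfold QQ
  rw [Finset.mem_filter]
  refine ⟨fun h => h.2, fun h => ⟨?_, h⟩⟩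
  obtain ⟨x, y, z, u, v, w⟩ := p
  have h1 : Pr X x y z u v w := h
  obtain ⟨b1, b2, b3, b4, b5, b6, -⟩ := bounds h1
  obtain ⟨hx1, hu1, hv1, hxy, hxz, hyw, hzw, huw, hvw, heq, hle⟩ := h1
  simp only [Finset.mem_product, Finset.mem_Icc]
  omega

theorem fib2 {X B x u v : ℕ} (hB : ∀ m, m ≤ 16 * X ^ 4 → m.divisors.card ≤ B) (s : Finset P6)
    (hs : ∀ p ∈ s, Pp X p) (h1 : ∀ p ∈ s, p.1 = x ∧ p.2.2.2.1 = u ∧ p.2.2.2.2.1 = v) :
    s.card ≤ B * (X / (u * v + 1)) := by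
  classical
  have h2 := Finset.card_le_mul_card_image_of_maps_to (s := s) (f := fun p => p.2.2.2.2.2)
    (t := Finset.Icc 1 (X / (u * v + 1))) ?_ B ?_
  · rwa [Nat.card_Icc, Nat.add_sub_cancel] at h2
  · rintro ⟨x', y, z, u', v', w⟩ hp
    obtain ⟨rfl, rfl, rfl⟩ := h1 _ hp
    have h := hs _ hp
    obtain ⟨-, -, -, -, -, -, -, h3, -⟩ := bounds h
    rw [Finset.mem_Icc]
    refine ⟨h.u1.trans h.uw, (Nat.le_div_iff_mul_le (by omega)).2 h3⟩
  · intro w hw
    have h3 : (s.filter fun p => p.2.2.2.2.2 = w).card ≤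
        (x * ff u v w + 1 - x * x).divisors.card := by
      refine Finset.card_le_card_of_injOn (fun p => p.1 * p.2.1 + 1) ?_ ?_
      · rintro ⟨x', y, z, u', v', w'⟩ hp
        rw [Finset.mem_coe, Finset.mem_filter] at hp
        obtain ⟨hp1, hp2⟩ := hp
        obtain ⟨rfl, rfl, rfl⟩ := h1 _ hp1
        have hp2' : w' = w := hp2
        subst hp2'
        have h := hs _ hp1
        have heq : ff x' y z = ff u' v' w' := h.eq
        show x' * y + 1 ∈ _
        rw [Finset.mem_coe, Nat.mem_divisors, ← heq]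
        have e : x' * ff x' y z + 1 - x' * x' = (x' * y + 1) * (x' * z + 1) := by
          have : x' * ff x' y z + 1 = (x' * y + 1) * (x' * z + 1) + x' * x' := by
            unfold ff; ring
          omega
        rw [e]
        exact ⟨Dvd.intro _ rfl, by positivity⟩
      · rintro ⟨x', y, z, u', v', w'⟩ hp ⟨x'', y', z', u'', v'', w''⟩ hq heq
        rw [Finset.mem_coe, Finset.mem_filter] at hp hq
        obtain ⟨hp1, hp2⟩ := hp
        obtain ⟨hq1, hq2⟩ := hq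
        have hp2' : w' = w := hp2
        have hq2' : w'' = w := hq2
        have a1 := h1 _ hp1
        have a2 := h1 _ hq1
        simp only at a1 a2 heq
        obtain ⟨b1, b2, b3⟩ := a1
        obtain ⟨c1, c2, c3⟩ := a2
        subst b1 b2 b3 hp2'
        subst c1 c2 c3 hq2'
        have hx1 : 1 ≤ x'' := (hs _ hp1).x1
        have hy : y = y' := Nat.eq_of_mul_eq_mul_left (by omega) (by omega : x'' * y = x'' * y')
        subst hy
        have h3 : ff x'' y z = ff x'' y z' := ((hs _ hp1).eq).trans ((hs _ hq1).eq).symm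
        have hz : z = z' := by
          unfold ff at h3
          have : (x'' * y + 1) * z = (x'' * y + 1) * z' := by
            have e1 : (x'' * y + 1) * z = x'' * y * z + z := by ring
            have e2 : (x'' * y + 1) * z' = x'' * y * z' + z' := by ring
            omega
          exact Nat.eq_of_mul_eq_mul_left (by omega) this
        rw [hz]
    rcases Finset.eq_empty_or_nonempty (s.filter fun p => p.2.2.2.2.2 = w) with he | ⟨p, hp⟩
    · rw [he, Finset.card_empty]; exact Nat.zero_le _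
    · refine h3.trans (hB _ ?_)
      rw [Finset.mem_filter] at hp
      obtain ⟨hp1, hp2⟩ := hp
      obtain ⟨x', y, z, u', v', w'⟩ := p
      obtain ⟨rfl, rfl, rfl⟩ := h1 _ hp1
      have hp2' : w' = w := hp2
      subst hp2'
      have h := hs _ hp1
      have h4 : ff u' v' w' ≤ X := h.eq ▸ h.le
      have h5 := (bounds h).1
      simp only at h5
      have hX : 1 ≤ X := h.x1.trans h5
      calc x' * ff u' v' w' + 1 - x' * x' ≤ x' * ff u' v' w' + 1 := Nat.sub_le _ _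
        _ ≤ X * X + 1 := Nat.add_le_add_right (Nat.mul_le_mul h5 h4) 1
        _ ≤ 16 * X ^ 4 := by
            have e1 : X ^ 2 ≤ X ^ 4 := Nat.pow_le_pow_right hX (by norm_num)
            have e2 : 1 ≤ X ^ 4 := Nat.one_le_pow _ _ hX
            have e3 : X * X = X ^ 2 := by ring
            omega

end Pool.Agent.Lib.MP_3ae5b0_nt.Mo
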