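import Pool.Agent.Lib.MP_3ae5b0_nt.Moment

set_option autoImplicit false

/-!
# The second moment: the main fibres and the degenerate sextuples
-/

namespace Pool.Agent.Lib.MP_3ae5b0_nt.Mo
open Finset

/-- the divisors of an integer -/
noncomputable def dvs (N : ℤ) : Finset ℤ :=
  (N.natAbs.divisors.image fun d : ℕ => (d : ℤ)) ∪ (N.natAbs.divisors.image fun d : ℕ => -(d : ℤ))

theorem dvs_card (N : ℤ) : (dvs N).card ≤ 2 * N.natAbs.divisors.card := by
  unfold dvs
  refine (Finset.card_union_le _ _).trans ?_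
  have h1 := Finset.card_image_le (s := N.natAbs.divisors) (f := fun d : ℕ => (d : ℤ))
  have h2 := Finset.card_image_le (s := N.natAbs.divisors) (f := fun d : ℕ => -(d : ℤ))
  omega

theorem mem_dvs {u v N : ℤ} (h : u * v = N) (hN : N ≠ 0) : u ∈ dvs N := by
  unfold dvs
  rw [Finset.mem_union, Finset.mem_image, Finset.mem_image]
  have h1 : u.natAbs ∈ N.natAbs.divisors := by
    rw [Nat.mem_divisors]
    refine ⟨Int.natAbs_dvd_natAbs.2 ⟨v, h.symm⟩, by omega⟩
  rcases le_total 0 u with hu | hu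
  · left; exact ⟨u.natAbs, h1, by omega⟩
  · right; exact ⟨u.natAbs, h1, by omega⟩

theorem fib4 {X B x u v : ℕ} (hB : ∀ m, m ≤ 16 * X ^ 4 → m.divisors.card ≤ B) (s : Finset P6)
    (hs : ∀ p ∈ s, Pp X p) (hbad : ∀ p ∈ s, ¬ Bad p)
    (h1 : ∀ p ∈ s, p.1 = x ∧ p.2.2.2.1 = u ∧ p.2.2.2.2.1 = v)
    (hg : Nat.gcd x (u * v + 1) ^ 2 < x) :
    s.card ≤ 2 * B * (2 * ⌊11 * (X : ℝ) / (Real.sqrt x * (u * v + 1 : ℕ))⌋₊ + 1) := by
  classical
  rcases Finset.eq_empty_or_nonempty s with he | ⟨p0, hp0⟩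
  · rw [he, Finset.card_empty]; exact Nat.zero_le _
  have hD2 : x ≤ (u * v + 1) ^ 2 := by
    by_contra h
    push Not at h
    obtain ⟨a1, a2, a3⟩ := h1 _ hp0
    exact hbad _ hp0 (Or.inr (by rw [a1, a2, a3]; exact h))
  have hx1 : 1 ≤ x := by
    have := (hs _ hp0).x1
    rwa [(h1 _ hp0).1] at this
  obtain ⟨t, a, b, ht1, ht2, he, ha, ha0⟩ := param hx1 (by omega : 1 ≤ u * v + 1) hD2 hg
  set K := ⌊11 * (X : ℝ) / (Real.sqrt x * (u * v + 1 : ℕ))⌋₊ with hK
  -- the equation for a member
  have hmem : ∀ y z w : ℕ, ((x, y, z, u, v, w) : P6) ∈ s →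
      a * y * z + t * (y + z + ((x : ℤ) - u - v)) = (t * w - b * y * z) * (u * v + 1 : ℕ) ∧
      (a * y + t) ≠ 0 ∧ (a * z + t) ≠ 0 := by
    intro y z w hp
    have h := hs _ hp
    have hP : Pr X x y z u v w := h
    have hi := ident he hP.eq
    refine ⟨hi, ?_, ?_⟩
    · intro h0
      refine hbad _ hp (Or.inl ⟨a.natAbs, by omega, ?_, Or.inl ?_⟩)
      · show a.natAbs ^ 2 < x
        have : ((a.natAbs ^ 2 : ℕ) : ℤ) < x := by rw [Nat.cast_pow, Int.natAbs_sq]; exact ha
        exact_mod_cast this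
      · show u * v + 1 ∣ a.natAbs * (x * y + 1)
        have h2 : ((u * v + 1 : ℕ) : ℤ) ∣ a * (x * y + 1) := by
          refine ⟨-b, ?_⟩
          have e : (t : ℤ) = -(a * y) := by linarith
          rw [e] at he
          linear_combination -he
        have h3 := Int.natAbs_dvd_natAbs.2 h2
        rw [Int.natAbs_mul] at h3
        have e2 : ((x : ℤ) * y + 1).natAbs = x * y + 1 := by
          have : ((x : ℤ) * y + 1) = ((x * y + 1 : ℕ) : ℤ) := by push_cast; ring
          rw [this, Int.natAbs_natCast]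
        rwa [e2, Int.natAbs_natCast] at h3
    · intro h0
      refine hbad _ hp (Or.inl ⟨a.natAbs, by omega, ?_, Or.inr ?_⟩)
      · show a.natAbs ^ 2 < x
        have : ((a.natAbs ^ 2 : ℕ) : ℤ) < x := by rw [Nat.cast_pow, Int.natAbs_sq]; exact ha
        exact_mod_cast this
      · show u * v + 1 ∣ a.natAbs * (x * z + 1)
        have h2 : ((u * v + 1 : ℕ) : ℤ) ∣ a * (x * z + 1) := by
          refine ⟨-b, ?_⟩
          have e : (t : ℤ) = -(a * z) := by linarith
          rw [e] at he
          linear_combination -he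
        have h3 := Int.natAbs_dvd_natAbs.2 h2
        rw [Int.natAbs_mul] at h3
        have e2 : ((x : ℤ) * z + 1).natAbs = x * z + 1 := by
          have : ((x : ℤ) * z + 1) = ((x * z + 1 : ℕ) : ℤ) := by push_cast; ring
          rw [this, Int.natAbs_natCast]
        rwa [e2, Int.natAbs_natCast] at h3
  have h2 := Finset.card_le_mul_card_image_of_maps_to (s := s)
    (f := fun p : P6 => (t : ℤ) * p.2.2.2.2.2 - b * p.2.1 * p.2.2.1)
    (t := Finset.Icc (-(K : ℤ)) K) ?_ (2 * B) ?_
  · rw [Int.card_Icc] at h2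
    have e : ((K : ℤ) + 1 - (-(K : ℤ))).toNat = 2 * K + 1 := by omega
    rwa [e] at h2
  · rintro ⟨x', y, z, u', v', w⟩ hp
    obtain ⟨b1, b2, b3⟩ := h1 _ hp
    simp only at b1 b2 b3
    subst b1 b2 b3
    have hP : Pr X x' y z u' v' w := hs _ hp
    obtain ⟨hi, -, -⟩ := hmem y z w hp
    have hk := kbound hP ht2 ha hi
    set k : ℤ := t * w - b * y * z with hk'
    show k ∈ _
    have h3 : |k|.toNat ≤ K := by
      rw [hK]
      refine Nat.le_floor ?_
      have e : ((|k|.toNat : ℕ) : ℝ) = |(k : ℝ)| := by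
        have : ((|k|.toNat : ℤ)) = |k| := Int.toNat_of_nonneg (abs_nonneg k)
        have h5 : (((|k|.toNat : ℕ) : ℤ) : ℝ) = ((|k| : ℤ) : ℝ) := by rw [this]
        rw [Int.cast_natCast] at h5
        rw [h5]
        push_cast
        rfl
      rw [e]
      exact hk
    have h4 : |k| ≤ K := by
      have : (|k|.toNat : ℤ) = |k| := Int.toNat_of_nonneg (abs_nonneg k)
      omega
    rw [Finset.mem_Icc]
    exact abs_le.1 h4
  · intro k hk
    set N : ℤ := a * (k * (u * v + 1 : ℕ) - t * ((x : ℤ) - u - v)) + (t : ℤ) ^ 2 with hN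
    have hfib : ∀ y z w : ℕ, ((x, y, z, u, v, w) : P6) ∈ s →
        (t : ℤ) * w - b * y * z = k → (a * y + t) * (a * z + t) = N := by
      intro y z w hp hk1
      obtain ⟨hi, -, -⟩ := hmem y z w hp
      rw [hk1] at hi
      exact ident2 hi
    have h3 : (s.filter fun p : P6 => (t : ℤ) * p.2.2.2.2.2 - b * p.2.1 * p.2.2.1 = k).card ≤
        (dvs N).card := by
      refine Finset.card_le_card_of_injOn (fun p => a * p.2.1 + t) ?_ ?_
      · rintro ⟨x', y, z, u', v', w⟩ hp
        rw [Finset.mem_coe, Finset.mem_filter] at hp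
        obtain ⟨hp1, hp2⟩ := hp
        obtain ⟨b1, b2, b3⟩ := h1 _ hp1
        simp only at b1 b2 b3 hp2
        subst b1 b2 b3
        have h4 := hfib y z w hp1 hp2
        obtain ⟨-, h5, h6⟩ := hmem y z w hp1
        exact Finset.mem_coe.2 (mem_dvs h4 (by rw [← h4]; exact mul_ne_zero h5 h6))
      · rintro ⟨x', y, z, u', v', w⟩ hp ⟨x'', y', z', u'', v'', w'⟩ hq heq
        rw [Finset.mem_coe, Finset.mem_filter] at hp hq
        obtain ⟨hp1, hp2⟩ := hp
        obtain ⟨hq1, hq2⟩ := hq
        have a1 := h1 _ hp1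
        have a2 := h1 _ hq1
        simp only at a1 a2 heq hp2 hq2
        obtain ⟨b1, b2, b3⟩ := a1
        obtain ⟨c1, c2, c3⟩ := a2
        subst b1 b2 b3
        subst c1 c2 c3
        have hy : y = y' := by
          have : a * ((y : ℤ) - y') = 0 := by linear_combination heq
          have := (mul_eq_zero.1 this).resolve_left ha0
          omega
        subst hy
        have g1 := hfib y z w hp1 hp2
        have g2 := hfib y z' w' hq1 hq2
        obtain ⟨-, g3, -⟩ := hmem y z w hp1
        have hz : z = z' := by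
          have e1 : (a * y + t) * (a * ((z : ℤ) - z')) = 0 := by linear_combination g1 - g2
          have e2 := (mul_eq_zero.1 ((mul_eq_zero.1 e1).resolve_left g3)).resolve_left ha0
          omega
        subst hz
        have g4 : ff u'' v'' w = ff u'' v'' w' :=
          ((hs _ hp1).eq).symm.trans ((hs _ hq1).eq)
        have hw : w = w' := by
          unfold ff at g4
          have : (u'' * v'' + 1) * w = (u'' * v'' + 1) * w' := by
            have e1 : (u'' * v'' + 1) * w = u'' * v'' * w + w := by ring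
            have e2 : (u'' * v'' + 1) * w' = u'' * v'' * w' + w' := by ring
            omega
          exact Nat.eq_of_mul_eq_mul_left (by omega) this
        rw [hw]
    rcases Finset.eq_empty_or_nonempty
      (s.filter fun p : P6 => (t : ℤ) * p.2.2.2.2.2 - b * p.2.1 * p.2.2.1 = k) with he' | ⟨p, hp⟩
    · rw [he', Finset.card_empty]; exact Nat.zero_le _
    · refine h3.trans ((dvs_card N).trans (Nat.mul_le_mul_left 2 (hB _ ?_)))
      rw [Finset.mem_filter] at hp
      obtain ⟨hp1, hp2⟩ := hp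
      obtain ⟨x', y, z, u', v', w⟩ := p
      obtain ⟨b1, b2, b3⟩ := h1 _ hp1
      simp only at b1 b2 b3 hp2
      subst b1 b2 b3
      have hP : Pr X x' y z u' v' w := hs _ hp1
      obtain ⟨c1, c2, c3, -, -, -, c7, -⟩ := bounds hP
      rw [← hfib y z w hp1 hp2, Int.natAbs_mul]
      have hX1 : 1 ≤ X := hP.x1.trans c1
      have haX : a.natAbs ≤ X := by
        have h5 : (a.natAbs : ℤ) ^ 2 < x' := by rw [Int.natAbs_sq]; exact ha
        have h6 : a.natAbs ^ 2 < x' := by exact_mod_cast h5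
        have h7 : a.natAbs ≤ a.natAbs ^ 2 := Nat.le_self_pow (by norm_num) _
        omega
      have htX : t ≤ X := by
        have h5 : t ^ 2 ≤ (u' * v' + 1) ^ 2 := by
          calc t ^ 2 = t ^ 2 * 1 := by ring
            _ ≤ t ^ 2 * x' := Nat.mul_le_mul_left _ hx1
            _ ≤ _ := ht2
        have h6 : t ≤ u' * v' + 1 := (Nat.pow_le_pow_iff_left (by norm_num)).1 h5
        omega
      have hb : ∀ r : ℕ, r ≤ X → (a * r + t).natAbs ≤ 2 * X ^ 2 := by
        intro r hr
        have h5 : (a * r + t).natAbs ≤ (a * r).natAbs + (t : ℤ).natAbs := Int.natAbs_add_le _ _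
        rw [Int.natAbs_mul, Int.natAbs_natCast, Int.natAbs_natCast] at h5
        have h6 : a.natAbs * r ≤ X * X := Nat.mul_le_mul haX hr
        have h7 : X ≤ X ^ 2 := Nat.le_self_pow (by norm_num) _
        have h8 : X * X = X ^ 2 := by ring
        omega
      calc (a * y + t).natAbs * (a * z + t).natAbs ≤ (2 * X ^ 2) * (2 * X ^ 2) :=
            Nat.mul_le_mul (hb y c2) (hb z c3)
        _ = 4 * X ^ 4 := by ring
        _ ≤ 16 * X ^ 4 := Nat.mul_le_mul_right _ (by norm_num)

end Pool.Agent.Lib.MP_3ae5b0_nt.Mo
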