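import Pool.Agent.Lib.MP_3ae5b0_nt.MomentB

set_option autoImplicit false

/-!
# The second moment: degenerate sextuples, summation
-/

namespace Pool.Agent.Lib.MP_3ae5b0_nt.Mo
open Finset

/-- the triples with product at most `X` -/
def T3 (X : ℕ) : Finset (ℕ × ℕ × ℕ) :=
  ((Finset.Icc 1 X) ×ˢ (Finset.Icc 1 X) ×ˢ (Finset.Icc 1 X)).filter
    fun t => t.1 * t.2.1 * t.2.2 ≤ X

theorem T3_card {X B : ℕ} (hX : 1 ≤ X) (hB : ∀ m, m ≤ 16 * X ^ 4 → m.divisors.card ≤ B) :
    (T3 X).card ≤ B * B * X := by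
  classical
  have h2 := Finset.card_le_mul_card_image_of_maps_to (s := T3 X)
    (f := fun t : ℕ × ℕ × ℕ => t.1 * t.2.1 * t.2.2) (t := Finset.Icc 1 X) ?_ (B * B) ?_
  · rwa [Nat.card_Icc, Nat.add_sub_cancel] at h2
  · rintro ⟨x, y, z⟩ hp
    unfold T3 at hp
    simp only [Finset.mem_filter, Finset.mem_product, Finset.mem_Icc] at hp
    obtain ⟨⟨⟨a1, -⟩, ⟨a2, -⟩, a3, -⟩, a4⟩ := hp
    rw [Finset.mem_Icc]
    exact ⟨Nat.mul_pos (Nat.mul_pos a1 a2) a3, a4⟩
  · intro m hm
    rw [Finset.mem_Icc] at hm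
    have h3 : ((T3 X).filter fun t : ℕ × ℕ × ℕ => t.1 * t.2.1 * t.2.2 = m).card ≤
        (m.divisors ×ˢ m.divisors).card := by
      refine Finset.card_le_card_of_injOn (fun t => (t.1, t.2.1)) ?_ ?_
      · rintro ⟨x, y, z⟩ hp
        rw [Finset.mem_coe, Finset.mem_filter] at hp
        have h4 : x * y * z = m := hp.2
        rw [Finset.mem_coe, Finset.mem_product, Nat.mem_divisors, Nat.mem_divisors]
        exact ⟨⟨⟨y * z, by rw [← h4]; ring⟩, by omega⟩, ⟨x * z, by rw [← h4]; ring⟩, by omega⟩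
      · rintro ⟨x, y, z⟩ hp ⟨x', y', z'⟩ hq heq
        rw [Finset.mem_coe, Finset.mem_filter] at hp hq
        have h4 : x * y * z = m := hp.2
        have h5 : x' * y' * z' = m := hq.2
        simp only [Prod.mk.injEq] at heq
        obtain ⟨rfl, rfl⟩ := heq
        have h6 : z = z' := by
          have h7 : 0 < x * y := by
            rcases Nat.eq_zero_or_pos (x * y) with h8 | h8
            · rw [h8, zero_mul] at h4; omega
            · exact h8
          exact Nat.eq_of_mul_eq_mul_left h7 (h4.trans h5.symm)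
        rw [h6]
    rw [Finset.card_product] at h3
    have h4 : m.divisors.card ≤ B := hB m (by
      have e1 : X ≤ X ^ 4 := Nat.le_self_pow (by norm_num) _
      omega)
    exact h3.trans (Nat.mul_le_mul h4 h4)

theorem deg {X B R : ℕ} (hX : 1 ≤ X) (hB : ∀ m, m ≤ 16 * X ^ 4 → m.divisors.card ≤ B)
    (hR : ∀ x, x ^ 3 ≤ X → x ≤ R) (s : Finset P6) (hs : ∀ p ∈ s, Pp X p)
    (hbad : ∀ p ∈ s, Bad p) :
    s.card ≤ ((Nat.sqrt R + 1) * ((2 * B + 1) * B)) * (B * B * X) := by
  classical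
  refine (Finset.card_le_mul_card_image_of_maps_to (s := s)
    (f := fun p : P6 => (p.1, p.2.1, p.2.2.1)) (t := T3 X) ?_
    ((Nat.sqrt R + 1) * ((2 * B + 1) * B)) ?_).trans (Nat.mul_le_mul_left _ (T3_card hX hB))
  · rintro ⟨x, y, z, u, v, w⟩ hp
    have hP : Pr X x y z u v w := hs _ hp
    obtain ⟨c1, c2, c3, -, -, -, -, -, c9, -⟩ := bounds hP
    obtain ⟨hx1, hu1, hv1, hxy, hxz, hyw, hzw, huw, hvw, heq, hle⟩ := hP
    unfold T3
    simp only [Finset.mem_filter, Finset.mem_product, Finset.mem_Icc]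
    omega
  · rintro ⟨x, y, z⟩ hxyz
    unfold T3 at hxyz
    simp only [Finset.mem_filter, Finset.mem_product, Finset.mem_Icc] at hxyz
    obtain ⟨⟨⟨a1, a1'⟩, ⟨a2, a2'⟩, a3, a3'⟩, a4⟩ := hxyz
    rcases Finset.eq_empty_or_nonempty
      (s.filter fun p : P6 => (p.1, p.2.1, p.2.2.1) = (x, y, z)) with he' | ⟨p0, hp0⟩
    · rw [he', Finset.card_empty]; exact Nat.zero_le _
    have hxR : x ≤ R := by
      rw [Finset.mem_filter] at hp0
      obtain ⟨hp1, hp2⟩ := hp0
      obtain ⟨x', y', z', u, v, w⟩ := p0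
      simp only [Prod.mk.injEq] at hp2
      obtain ⟨rfl, rfl, rfl⟩ := hp2
      obtain ⟨-, -, -, -, -, -, -, -, -, c10, -⟩ := bounds (hs _ hp1)
      exact hR _ c10
    set E : Finset (ℕ × ℕ) := (Finset.range (Nat.sqrt x + 1)).biUnion fun a =>
      ((((a * (x * y + 1)).divisors ∪ (a * (x * z + 1)).divisors) ∪ {a}).filter
        fun d => d - 1 ≤ 16 * X ^ 4).biUnion fun d =>
        (d - 1).divisors.image fun u => (u, (d - 1) / u) with hE
    have hxy : x * y ≤ X := by
      calc x * y = x * y * 1 := by ring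
        _ ≤ x * y * z := Nat.mul_le_mul_left _ a3
        _ ≤ X := a4
    have hxz : x * z ≤ X := by
      calc x * z = x * 1 * z := by ring
        _ ≤ x * y * z := Nat.mul_le_mul_right _ (Nat.mul_le_mul_left _ a2)
        _ ≤ X := a4
    have hbig : ∀ a m, a ≤ X → m ≤ X → a * (m + 1) ≤ 16 * X ^ 4 := by
      intro a m ha hm
      calc a * (m + 1) ≤ X * (X + 1) := Nat.mul_le_mul ha (by omega)
        _ ≤ X * (2 * X) := Nat.mul_le_mul_left _ (by omega)
        _ = 2 * X ^ 2 := by ring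
        _ ≤ 2 * X ^ 4 := Nat.mul_le_mul_left _ (Nat.pow_le_pow_right hX (by norm_num))
        _ ≤ 16 * X ^ 4 := Nat.mul_le_mul_right _ (by norm_num)
    have hsx : Nat.sqrt x ≤ X := (Nat.sqrt_le_self x).trans a1'
    have hEc : E.card ≤ (Nat.sqrt R + 1) * ((2 * B + 1) * B) := by
      have h5 : E.card ≤ (Finset.range (Nat.sqrt x + 1)).card * ((2 * B + 1) * B) := by
        refine Finset.card_biUnion_le_card_mul _ _ _ fun a ha => ?_
        have haX : a ≤ X := by have := Finset.mem_range.1 ha; omega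
        refine (Finset.card_biUnion_le_card_mul _ _ B fun d hd => ?_).trans ?_
        · exact Finset.card_image_le.trans (hB _ (Finset.mem_filter.1 hd).2)
        · refine Nat.mul_le_mul_right _ ((Finset.card_filter_le _ _).trans ?_)
          refine (Finset.card_union_le _ _).trans ?_
          have h6 := Finset.card_union_le (a * (x * y + 1)).divisors (a * (x * z + 1)).divisors
          have h7 := hB _ (hbig a (x * y) haX hxy)
          have h8 := hB _ (hbig a (x * z) haX hxz)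
          rw [Finset.card_singleton]
          omega
      rw [Finset.card_range] at h5
      exact h5.trans (Nat.mul_le_mul_right _ (Nat.succ_le_succ (Nat.sqrt_le_sqrt hxR)))
    refine le_trans ?_ hEc
    refine Finset.card_le_card_of_injOn (fun p => (p.2.2.2.1, p.2.2.2.2.1)) ?_ ?_
    · rintro ⟨x', y', z', u, v, w⟩ hp
      rw [Finset.mem_coe, Finset.mem_filter] at hp
      obtain ⟨hp1, hp2⟩ := hp
      simp only [Prod.mk.injEq] at hp2
      obtain ⟨rfl, rfl, rfl⟩ := hp2
      have hP : Pr X x' y' z' u v w := hs _ hp1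
      obtain ⟨-, -, -, -, -, -, c7, -⟩ := bounds hP
      have hu1 := hP.u1
      have hv1 := hP.v1
      have huv : 0 < u * v := Nat.mul_pos hu1 hv1
      have hfin : ∀ a, a < Nat.sqrt x' + 1 → (u * v + 1) ∈
          (((a * (x' * y' + 1)).divisors ∪ (a * (x' * z' + 1)).divisors) ∪ {a}) →
          (u, v) ∈ E := by
        intro a ha hd
        rw [hE, Finset.mem_biUnion]
        refine ⟨a, Finset.mem_range.2 ha, Finset.mem_biUnion.2 ⟨u * v + 1,
          Finset.mem_filter.2 ⟨hd, ?_⟩, ?_⟩⟩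
        · have e1 : X ≤ X ^ 4 := Nat.le_self_pow (by norm_num) _
          omega
        · rw [Nat.add_sub_cancel, Finset.mem_image]
          refine ⟨u, Nat.mem_divisors.2 ⟨Dvd.intro _ rfl, huv.ne'⟩, ?_⟩
          rw [Nat.mul_div_cancel_left _ (by omega)]
      show (u, v) ∈ E
      rcases hbad _ hp1 with ⟨a, ha1, ha2, h5 | h5⟩ | h5
      · have ha2' : a ^ 2 < x' := ha2
        refine hfin a (Nat.lt_succ_of_le (Nat.le_sqrt.2 (by rw [← pow_two]; exact ha2'.le))) ?_
        refine Finset.mem_union_left _ (Finset.mem_union_left _ (Nat.mem_divisors.2 ⟨h5, ?_⟩))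
        positivity
      · have ha2' : a ^ 2 < x' := ha2
        refine hfin a (Nat.lt_succ_of_le (Nat.le_sqrt.2 (by rw [← pow_two]; exact ha2'.le))) ?_
        refine Finset.mem_union_left _ (Finset.mem_union_right _ (Nat.mem_divisors.2 ⟨h5, ?_⟩))
        positivity
      · have h5' : (u * v + 1) ^ 2 < x' := h5
        refine hfin (u * v + 1)
          (Nat.lt_succ_of_le (Nat.le_sqrt.2 (by rw [← pow_two]; exact h5'.le))) ?_
        exact Finset.mem_union_right _ (Finset.mem_singleton_self _)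
    · rintro ⟨x', y', z', u, v, w⟩ hp ⟨x'', y'', z'', u', v', w'⟩ hq heq
      rw [Finset.mem_coe, Finset.mem_filter] at hp hq
      obtain ⟨hp1, hp2⟩ := hp
      obtain ⟨hq1, hq2⟩ := hq
      simp only [Prod.mk.injEq] at hp2 hq2 heq
      obtain ⟨rfl, rfl, rfl⟩ := hp2
      obtain ⟨rfl, rfl, rfl⟩ := hq2
      obtain ⟨rfl, rfl⟩ := heq
      have g4 : ff u v w = ff u v w' := ((hs _ hp1).eq).symm.trans ((hs _ hq1).eq)
      have hw : w = w' := by
        unfold ff at g4
        have : (u * v + 1) * w = (u * v + 1) * w' := by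
          have e1 : (u * v + 1) * w = u * v * w + w := by ring
          have e2 : (u * v + 1) * w' = u * v * w' + w' := by ring
          omega
        exact Nat.eq_of_mul_eq_mul_left (by omega) this
      rw [hw]

/-- the fibre over `x` and `m = u v` -/
theorem fib {X B x m : ℕ} (hB : ∀ m, m ≤ 16 * X ^ 4 → m.divisors.card ≤ B)
    (hmX : m ≤ 16 * X ^ 4) (hm : 1 ≤ m) (s : Finset P6)
    (hs : ∀ p ∈ s, Pp X p) (hbad : ∀ p ∈ s, ¬ Bad p)
    (h1 : ∀ p ∈ s, p.1 = x ∧ p.2.2.2.1 * p.2.2.2.2.1 = m) :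
    s.card ≤ B * (if x ≤ Nat.gcd x (m + 1) ^ 2 then B * (X / (m + 1)) else
      2 * B * (2 * ⌊11 * (X : ℝ) / (Real.sqrt x * (m + 1 : ℕ))⌋₊ + 1)) := by
  classical
  have h2 := Finset.card_le_mul_card_image_of_maps_to (s := s)
    (f := fun p : P6 => p.2.2.2.1) (t := m.divisors) ?_
    (if x ≤ Nat.gcd x (m + 1) ^ 2 then B * (X / (m + 1)) else
      2 * B * (2 * ⌊11 * (X : ℝ) / (Real.sqrt x * (m + 1 : ℕ))⌋₊ + 1)) ?_
  · refine h2.trans ?_
    rw [mul_comm]
    exact Nat.mul_le_mul_right _ (hB m hmX)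
  · rintro p hp
    obtain ⟨-, h3⟩ := h1 p hp
    exact Nat.mem_divisors.2 ⟨Dvd.intro _ h3, by omega⟩
  · intro u hu
    have hum : u ∣ m := (Nat.mem_divisors.1 hu).1
    have hu0 : 0 < u := Nat.pos_of_dvd_of_pos hum (by omega)
    set s' := s.filter fun p : P6 => p.2.2.2.1 = u with hs'
    have g1 : ∀ p ∈ s', Pp X p := fun p hp => hs p (Finset.mem_filter.1 hp).1
    have g2 : ∀ p ∈ s', ¬ Bad p := fun p hp => hbad p (Finset.mem_filter.1 hp).1
    have g3 : ∀ p ∈ s', p.1 = x ∧ p.2.2.2.1 = u ∧ p.2.2.2.2.1 = m / u := by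
      intro p hp
      obtain ⟨hp1, hp2⟩ := Finset.mem_filter.1 hp
      obtain ⟨e1, e2⟩ := h1 p hp1
      refine ⟨e1, hp2, ?_⟩
      rw [hp2] at e2
      rw [← e2, Nat.mul_div_cancel_left _ hu0]
    have e : u * (m / u) = m := Nat.mul_div_cancel' hum
    split_ifs with hg
    · have := fib2 hB s' g1 g3
      rwa [e] at this
    · have := fib4 hB s' g1 g2 g3 (by rw [e]; exact not_le.1 hg)
      rwa [e] at this

end Pool.Agent.Lib.MP_3ae5b0_nt.Mo
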