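import Mathlib
import Pool.Agent.Lib.MP_3ae5b0_nt.Moment

set_option autoImplicit false

/-!
# The second moment: two sums
-/

namespace Pool.Agent.Lib.MP_3ae5b0_nt.Mo
open Finset

theorem sum_inv_sqrt (R : ℕ) :
    ∑ x ∈ Finset.Icc 1 R, (1 : ℝ) / Real.sqrt x ≤ 2 * Real.sqrt R := by
  induction R with
  | zero => simp
  | succ R ih =>
    rw [Finset.sum_Icc_succ_top (by omega)]
    have h0 : (0 : ℝ) < ((R + 1 : ℕ) : ℝ) := by positivity
    have h1 : 0 < Real.sqrt ((R + 1 : ℕ) : ℝ) := Real.sqrt_pos.2 h0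
    have h2 : 0 ≤ Real.sqrt (R : ℝ) := Real.sqrt_nonneg _
    have h3 : Real.sqrt ((R + 1 : ℕ) : ℝ) ^ 2 = R + 1 := by
      rw [Real.sq_sqrt h0.le]
      push_cast
      ring
    have h4 : Real.sqrt (R : ℝ) ^ 2 = R := Real.sq_sqrt (Nat.cast_nonneg _)
    have h5 : Real.sqrt (R : ℝ) ≤ Real.sqrt ((R + 1 : ℕ) : ℝ) := Real.sqrt_le_sqrt (by
      push_cast
      linarith)
    have h6 : (1 : ℝ) / Real.sqrt ((R + 1 : ℕ) : ℝ) ≤
        2 * Real.sqrt ((R + 1 : ℕ) : ℝ) - 2 * Real.sqrt (R : ℝ) := by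
      rw [div_le_iff₀ h1]
      nlinarith [sq_nonneg (Real.sqrt ((R + 1 : ℕ) : ℝ) - Real.sqrt (R : ℝ))]
    linarith

theorem step_log (M : ℕ) : (1 : ℝ) / ((M : ℝ) + 2) ≤ Real.log (M + 2) - Real.log (M + 1) := by
  have h1 : (0 : ℝ) < (M : ℝ) + 1 := by positivity
  have h2 : (0 : ℝ) < (M : ℝ) + 2 := by positivity
  rw [← Real.log_div h2.ne' h1.ne']
  have h3 := Real.one_sub_inv_le_log_of_pos (div_pos h2 h1)
  refine le_trans (le_of_eq ?_) h3
  rw [inv_div]
  field_simp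
  ring

theorem sum_inv_succ (M : ℕ) :
    ∑ m ∈ Finset.Icc 1 M, (1 : ℝ) / (m + 1) ≤ Real.log (M + 1) := by
  induction M with
  | zero => simp
  | succ M ih =>
    rw [Finset.sum_Icc_succ_top (by omega)]
    have h := step_log M
    have e1 : (((M + 1 : ℕ) : ℝ) + 1) = (M : ℝ) + 2 := by
      push_cast
      ring
    rw [e1]
    linarith

theorem sum_inv (M : ℕ) :
    ∑ j ∈ Finset.Icc 1 (M + 1), (1 : ℝ) / j ≤ 1 + Real.log (M + 1) := by
  induction M with
  | zero => simp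
  | succ M ih =>
    rw [Finset.sum_Icc_succ_top (by omega)]
    have h := step_log M
    have e1 : ((M + 1 + 1 : ℕ) : ℝ) = (M : ℝ) + 2 := by
      push_cast
      ring
    have e2 : (((M + 1 : ℕ) : ℝ) + 1) = (M : ℝ) + 2 := by
      push_cast
      ring
    rw [e1, e2]
    linarith

theorem sqrt_le_rpow {X R : ℕ} (hR : R ^ 3 ≤ X) : Real.sqrt R ≤ (X : ℝ) ^ (1 / 6 : ℝ) := by
  have h1 : (R : ℝ) ^ (3 : ℕ) ≤ X := by exact_mod_cast hR
  have h2 : Real.sqrt R = ((R : ℝ) ^ (3 : ℕ)) ^ (1 / 6 : ℝ) := by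
    rw [Real.sqrt_eq_rpow, ← Real.rpow_natCast, ← Real.rpow_mul (Nat.cast_nonneg _)]
    norm_num
  rw [h2]
  exact Real.rpow_le_rpow (by positivity) h1 (by norm_num)

theorem M_le {X M : ℕ} (hX : 1 ≤ X) (hM : M ^ 3 ≤ X ^ 2) : M ≤ X := by
  by_contra h
  push Not at h
  have h1 : X ^ 3 < M ^ 3 := Nat.pow_lt_pow_left h (by norm_num)
  have h2 : X ^ 2 ≤ X ^ 3 := Nat.pow_le_pow_right hX (by norm_num)
  omega

theorem log_le {X M : ℕ} (hX : 1 ≤ X) (hM : M ^ 3 ≤ X ^ 2) :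
    Real.log (M + 1) ≤ Real.log (X + 1) := by
  refine Real.log_le_log (by positivity) ?_
  have : (M : ℝ) ≤ X := by exact_mod_cast M_le hX hM
  linarith

theorem sumA (X R M : ℕ) (hX : 1 ≤ X) (hR : R ^ 3 ≤ X) (hM : M ^ 3 ≤ X ^ 2) :
    ∑ x ∈ Finset.Icc 1 R, ∑ m ∈ Finset.Icc 1 M, (1 : ℝ) / (Real.sqrt x * (m + 1)) ≤
      2 * (X : ℝ) ^ (1 / 6 : ℝ) * (1 + Real.log (X + 1)) := by
  have h1 : ∑ x ∈ Finset.Icc 1 R, ∑ m ∈ Finset.Icc 1 M, (1 : ℝ) / (Real.sqrt x * (m + 1)) =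
      (∑ x ∈ Finset.Icc 1 R, (1 : ℝ) / Real.sqrt x) *
        ∑ m ∈ Finset.Icc 1 M, (1 : ℝ) / ((m : ℝ) + 1) := by
    rw [Finset.sum_mul_sum]
    refine Finset.sum_congr rfl fun x _ => Finset.sum_congr rfl fun m _ => ?_
    rw [div_mul_div_comm, one_mul]
  rw [h1]
  have h2 : ∑ x ∈ Finset.Icc 1 R, (1 : ℝ) / Real.sqrt x ≤ 2 * (X : ℝ) ^ (1 / 6 : ℝ) :=
    (sum_inv_sqrt R).trans (mul_le_mul_of_nonneg_left (sqrt_le_rpow hR) (by norm_num))
  have h3 : ∑ m ∈ Finset.Icc 1 M, (1 : ℝ) / ((m : ℝ) + 1) ≤ 1 + Real.log (X + 1) := by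
    have h4 := (sum_inv_succ M).trans (log_le hX hM)
    linarith
  have h5 : (0 : ℝ) ≤ ∑ m ∈ Finset.Icc 1 M, (1 : ℝ) / ((m : ℝ) + 1) :=
    Finset.sum_nonneg fun m _ => by positivity
  exact mul_le_mul h2 h3 h5 (by positivity)

theorem inner {x M B : ℕ} (hx : 1 ≤ x) (hB : x.divisors.card ≤ B) :
    ∑ m ∈ Finset.Icc 1 M, (if x ≤ Nat.gcd x (m + 1) ^ 2 then (1 : ℝ) / (m + 1) else 0) ≤
      B * ((1 / Real.sqrt x) * (1 + Real.log (M + 1))) := by
  set D := x.divisors.filter fun g => x ≤ g ^ 2 with hD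
  have hx0 : (0 : ℝ) < x := by exact_mod_cast hx
  have hsx : 0 < Real.sqrt x := Real.sqrt_pos.2 hx0
  have hlog : 0 ≤ Real.log ((M : ℝ) + 1) := Real.log_nonneg (by
    have : (0 : ℝ) ≤ M := Nat.cast_nonneg _
    linarith)
  calc ∑ m ∈ Finset.Icc 1 M, (if x ≤ Nat.gcd x (m + 1) ^ 2 then (1 : ℝ) / (m + 1) else 0)
      ≤ ∑ m ∈ Finset.Icc 1 M, ∑ g ∈ D, ∑ j ∈ Finset.Icc 1 (M + 1),
          (if m + 1 = g * j then (1 : ℝ) / (g * j) else 0) := by
        refine Finset.sum_le_sum fun m hm => ?_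
        have hnn : ∀ g ∈ D, (0 : ℝ) ≤ ∑ j ∈ Finset.Icc 1 (M + 1),
            (if m + 1 = g * j then (1 : ℝ) / (g * j) else 0) := fun g _ =>
          Finset.sum_nonneg fun j _ => by split_ifs <;> positivity
        split_ifs with h
        · set g := Nat.gcd x (m + 1) with hg
          have hgx : g ∣ x := Nat.gcd_dvd_left _ _
          obtain ⟨j, hj⟩ : g ∣ m + 1 := Nat.gcd_dvd_right _ _
          have hg1 : 1 ≤ g := Nat.gcd_pos_of_pos_left _ hx
          have hj1 : 1 ≤ j := by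
            rcases Nat.eq_zero_or_pos j with h0 | h0
            · rw [h0, mul_zero] at hj
              omega
            · exact h0
          have hjM : j ≤ M + 1 := by
            have h1 : j ≤ g * j := Nat.le_mul_of_pos_left _ hg1
            have h2 := (Finset.mem_Icc.1 hm).2
            omega
          have hgD : g ∈ D := Finset.mem_filter.2 ⟨Nat.mem_divisors.2 ⟨hgx, by omega⟩, h⟩
          refine le_trans ?_ (Finset.single_le_sum hnn hgD)
          refine le_trans ?_ (Finset.single_le_sum (f := fun j : ℕ =>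
            (if m + 1 = g * j then (1 : ℝ) / (g * j) else 0))
            (fun j _ => by split_ifs <;> positivity) (Finset.mem_Icc.2 ⟨hj1, hjM⟩))
          rw [if_pos hj]
          have h3 : ((m : ℝ) + 1) = (g : ℝ) * j := by exact_mod_cast hj
          rw [h3]
        · exact Finset.sum_nonneg hnn
    _ = ∑ g ∈ D, ∑ j ∈ Finset.Icc 1 (M + 1), ∑ m ∈ Finset.Icc 1 M,
          (if m + 1 = g * j then (1 : ℝ) / (g * j) else 0) := by
        rw [Finset.sum_comm]
        exact Finset.sum_congr rfl fun g _ => Finset.sum_comm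
    _ ≤ ∑ g ∈ D, ∑ j ∈ Finset.Icc 1 (M + 1), (1 / Real.sqrt x) * ((1 : ℝ) / j) := by
        refine Finset.sum_le_sum fun g hg => Finset.sum_le_sum fun j hj => ?_
        obtain ⟨hg1, hg2⟩ := Finset.mem_filter.1 hg
        have hgp : 1 ≤ g := Nat.pos_of_mem_divisors hg1
        have hjp : 1 ≤ j := (Finset.mem_Icc.1 hj).1
        have hgj : 1 ≤ g * j := Nat.mul_pos hgp hjp
        have hj0 : (0 : ℝ) < j := by exact_mod_cast hjp
        have hg0 : (0 : ℝ) < g := by exact_mod_cast hgp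
        have h1 : ∑ m ∈ Finset.Icc 1 M, (if m + 1 = g * j then (1 : ℝ) / (g * j) else 0) ≤
            1 / (g * j) := by
          have h2 : ∀ m : ℕ, (if m + 1 = g * j then (1 : ℝ) / (g * j) else 0) =
              if m = g * j - 1 then (1 : ℝ) / (g * j) else 0 := by
            intro m
            by_cases h : m + 1 = g * j
            · rw [if_pos h, if_pos (by omega)]
            · rw [if_neg h, if_neg (by omega)]
          rw [Finset.sum_congr rfl fun m _ => h2 m, Finset.sum_ite_eq']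
          split_ifs
          · exact le_rfl
          · positivity
        refine h1.trans ?_
        rw [div_mul_div_comm, one_mul]
        refine one_div_le_one_div_of_le (mul_pos hsx hj0) ?_
        refine mul_le_mul_of_nonneg_right ?_ hj0.le
        refine (Real.sqrt_le_left hg0.le).2 ?_
        exact_mod_cast hg2
    _ = D.card * ((1 / Real.sqrt x) * ∑ j ∈ Finset.Icc 1 (M + 1), (1 : ℝ) / j) := by
        rw [Finset.sum_const, nsmul_eq_mul, ← Finset.mul_sum]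
    _ ≤ B * ((1 / Real.sqrt x) * (1 + Real.log (M + 1))) := by
        have h1 : (D.card : ℝ) ≤ B := by
          exact_mod_cast (Finset.card_filter_le _ _).trans hB
        have h2 : (1 / Real.sqrt x) * ∑ j ∈ Finset.Icc 1 (M + 1), (1 : ℝ) / j ≤
            (1 / Real.sqrt x) * (1 + Real.log (M + 1)) :=
          mul_le_mul_of_nonneg_left (sum_inv M) (by positivity)
        have h3 : (0 : ℝ) ≤ (1 / Real.sqrt x) * ∑ j ∈ Finset.Icc 1 (M + 1), (1 : ℝ) / j :=
          mul_nonneg (by positivity) (Finset.sum_nonneg fun j _ => by positivity)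
        exact mul_le_mul h1 h2 h3 (Nat.cast_nonneg _)

theorem sumB (X R M B : ℕ) (hX : 1 ≤ X) (hR : R ^ 3 ≤ X) (hM : M ^ 3 ≤ X ^ 2)
    (hB : ∀ m, m ≤ 16 * X ^ 4 → m.divisors.card ≤ B) :
    ∑ x ∈ Finset.Icc 1 R, ∑ m ∈ Finset.Icc 1 M,
      (if x ≤ Nat.gcd x (m + 1) ^ 2 then (1 : ℝ) / (m + 1) else 0) ≤
      B * (2 * (X : ℝ) ^ (1 / 6 : ℝ) * (1 + Real.log (X + 1))) := by
  have hRX : R ≤ X := by
    rcases Nat.eq_zero_or_pos R with h | h
    · omega
    · exact (Nat.le_self_pow (by norm_num) R).trans hR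
  have hlog : 0 ≤ Real.log ((M : ℝ) + 1) := Real.log_nonneg (by
    have : (0 : ℝ) ≤ M := Nat.cast_nonneg _
    linarith)
  calc ∑ x ∈ Finset.Icc 1 R, ∑ m ∈ Finset.Icc 1 M,
      (if x ≤ Nat.gcd x (m + 1) ^ 2 then (1 : ℝ) / (m + 1) else 0)
      ≤ ∑ x ∈ Finset.Icc 1 R, B * ((1 / Real.sqrt x) * (1 + Real.log (M + 1))) := by
        refine Finset.sum_le_sum fun x hx => ?_
        obtain ⟨h1, h2⟩ := Finset.mem_Icc.1 hx
        refine inner h1 (hB x ?_)
        calc x ≤ X := h2.trans hRX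
          _ = X ^ 1 := (pow_one X).symm
          _ ≤ X ^ 4 := Nat.pow_le_pow_right hX (by norm_num)
          _ ≤ 16 * X ^ 4 := Nat.le_mul_of_pos_left _ (by norm_num)
    _ = B * ((∑ x ∈ Finset.Icc 1 R, (1 : ℝ) / Real.sqrt x) * (1 + Real.log (M + 1))) := by
        rw [← Finset.mul_sum, ← Finset.sum_mul]
    _ ≤ B * (2 * (X : ℝ) ^ (1 / 6 : ℝ) * (1 + Real.log (X + 1))) := by
        refine mul_le_mul_of_nonneg_left ?_ (Nat.cast_nonneg _)
        have h2 : ∑ x ∈ Finset.Icc 1 R, (1 : ℝ) / Real.sqrt x ≤ 2 * (X : ℝ) ^ (1 / 6 : ℝ) :=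
          (sum_inv_sqrt R).trans (mul_le_mul_of_nonneg_left (sqrt_le_rpow hR) (by norm_num))
        have h3 := log_le hX hM
        refine mul_le_mul h2 (by linarith) (by linarith) (by positivity)

end Pool.Agent.Lib.MP_3ae5b0_nt.Mo
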