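import Pool.Agent.Lib.MP_3ae5b0_nt.MomentC
import Pool.Agent.Lib.MP_3ae5b0_nt.Sum60

set_option autoImplicit false

/-!
# The second moment: the bound for the number of sextuples
-/

namespace Pool.Agent.Lib.MP_3ae5b0_nt.Mo
open Finset

theorem good_card {X R M B : ℕ} (hX : 1 ≤ X)
    (hB : ∀ m, m ≤ 16 * X ^ 4 → m.divisors.card ≤ B)
    (hR : R ^ 3 ≤ X) (hR' : ∀ x, x ^ 3 ≤ X → x ≤ R) (hM : M ^ 3 ≤ X ^ 2)
    (hM' : ∀ m, m ^ 3 ≤ X ^ 2 → m ≤ M) (s : Finset P6)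
    (hs : ∀ p ∈ s, Pp X p) (hbad : ∀ p ∈ s, ¬ Bad p) :
    (s.card : ℝ) ≤ (B : ℝ) ^ 2 * X * (B * (2 * (X : ℝ) ^ (1 / 6 : ℝ) * (1 + Real.log (X + 1)))) +
      2 * (B : ℝ) ^ 2 * (22 * X * (2 * (X : ℝ) ^ (1 / 6 : ℝ) * (1 + Real.log (X + 1))) + X) := by
  classical
  have hMX : M ≤ X := M_le hX hM
  have hRM : R * M ≤ X := by
    refine (Nat.pow_le_pow_iff_left (n := 3) (by norm_num)).1 ?_
    calc (R * M) ^ 3 = R ^ 3 * M ^ 3 := mul_pow _ _ _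
      _ ≤ X * X ^ 2 := Nat.mul_le_mul hR hM
      _ = X ^ 3 := by ring
  have h1 := Finset.card_eq_sum_card_fiberwise (s := s)
    (f := fun p : P6 => (p.1, p.2.2.2.1 * p.2.2.2.2.1)) (t := Finset.Icc 1 R ×ˢ Finset.Icc 1 M) ?_
  swap
  · rintro ⟨x, y, z, u, v, w⟩ hp
    have hP : Pr X x y z u v w := hs _ hp
    obtain ⟨-, -, -, -, -, -, -, -, -, c10, c11⟩ := bounds hP
    have hx1 := hP.x1
    have huv : 1 ≤ u * v := Nat.mul_pos hP.u1 hP.v1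
    simp only [Finset.coe_product, Set.mem_prod, Finset.coe_Icc, Set.mem_Icc]
    exact ⟨⟨hx1, hR' _ c10⟩, huv, hM' _ c11⟩
  have h2 : (s.card : ℝ) ≤ ∑ q ∈ Finset.Icc 1 R ×ˢ Finset.Icc 1 M,
      ((B : ℝ) ^ 2 * X * (if q.1 ≤ Nat.gcd q.1 (q.2 + 1) ^ 2 then (1 : ℝ) / (q.2 + 1) else 0) +
        2 * (B : ℝ) ^ 2 * (22 * X * ((1 : ℝ) / (Real.sqrt q.1 * (q.2 + 1))) + 1)) := by
    rw [h1, Nat.cast_sum]
    refine Finset.sum_le_sum ?_
    rintro ⟨x, m⟩ hq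
    rw [Finset.mem_product, Finset.mem_Icc, Finset.mem_Icc] at hq
    obtain ⟨⟨hx1, hxR⟩, hm1, hmM⟩ := hq
    simp only at hx1 hxR hm1 hmM
    have hmX : m ≤ 16 * X ^ 4 := by
      have e1 : X ≤ X ^ 4 := Nat.le_self_pow (by norm_num) _
      omega
    have h3 := fib (x := x) hB hmX hm1
      (s.filter fun p : P6 => (p.1, p.2.2.2.1 * p.2.2.2.2.1) = (x, m))
      (fun p hp => hs p (Finset.mem_filter.1 hp).1) (fun p hp => hbad p (Finset.mem_filter.1 hp).1)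
      (fun p hp => by
        have := (Finset.mem_filter.1 hp).2
        rw [Prod.mk.injEq] at this
        exact this)
    have h3' : ((s.filter fun p : P6 => (p.1, p.2.2.2.1 * p.2.2.2.2.1) = (x, m)).card : ℝ) ≤
        ((B * (if x ≤ Nat.gcd x (m + 1) ^ 2 then B * (X / (m + 1)) else
          2 * B * (2 * ⌊11 * (X : ℝ) / (Real.sqrt x * (m + 1 : ℕ))⌋₊ + 1)) : ℕ) : ℝ) := by
      exact_mod_cast h3
    refine h3'.trans ?_
    have hB0 : (0 : ℝ) ≤ B := Nat.cast_nonneg _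
    have hX0 : (0 : ℝ) ≤ X := Nat.cast_nonneg _
    show _ ≤ ((B : ℝ) ^ 2 * X * (if x ≤ Nat.gcd x (m + 1) ^ 2 then (1 : ℝ) / (m + 1) else 0) +
        2 * (B : ℝ) ^ 2 * (22 * X * ((1 : ℝ) / (Real.sqrt x * (m + 1))) + 1))
    split_ifs with hg
    · have h4 : ((X / (m + 1) : ℕ) : ℝ) ≤ (X : ℝ) / (m + 1) := by
        have := Nat.cast_div_le (α := ℝ) (m := X) (n := m + 1)
        rwa [Nat.cast_add, Nat.cast_one] at this
      have h5 : (0 : ℝ) ≤ 2 * (B : ℝ) ^ 2 * (22 * X * ((1 : ℝ) / (Real.sqrt x * (m + 1))) + 1) := by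
        positivity
      rw [Nat.cast_mul, Nat.cast_mul]
      have h6 : (B : ℝ) * (B * ((X / (m + 1) : ℕ) : ℝ)) ≤ (B : ℝ) * (B * ((X : ℝ) / (m + 1))) :=
        mul_le_mul_of_nonneg_left (mul_le_mul_of_nonneg_left h4 hB0) hB0
      have h7 : (B : ℝ) * (B * ((X : ℝ) / (m + 1))) = (B : ℝ) ^ 2 * X * ((1 : ℝ) / (m + 1)) := by
        ring
      linarith
    · have h4 : ((⌊11 * (X : ℝ) / (Real.sqrt x * (m + 1 : ℕ))⌋₊ : ℕ) : ℝ) ≤
          11 * (X : ℝ) / (Real.sqrt x * (m + 1 : ℕ)) := Nat.floor_le (by positivity)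
      have h5 : 11 * (X : ℝ) / (Real.sqrt x * (m + 1 : ℕ)) =
          11 * X * ((1 : ℝ) / (Real.sqrt x * (m + 1))) := by
        rw [Nat.cast_add, Nat.cast_one]; ring
      rw [h5] at h4
      rw [h5]
      push_cast
      have h6 : (0 : ℝ) ≤ (B : ℝ) ^ 2 := by positivity
      have h7 := mul_le_mul_of_nonneg_left h4 h6
      nlinarith
  refine h2.trans ?_
  rw [Finset.sum_add_distrib, ← Finset.mul_sum, ← Finset.mul_sum, Finset.sum_add_distrib,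
    ← Finset.mul_sum, Finset.sum_product, Finset.sum_product, Finset.sum_const,
    Finset.card_product, Nat.card_Icc, Nat.card_Icc, Nat.add_sub_cancel, Nat.add_sub_cancel,
    nsmul_eq_mul, mul_one]
  have hA := sumA X R M hX hR hM
  have hBB := sumB X R M B hX hR hM hB
  have hRM' : ((R * M : ℕ) : ℝ) ≤ X := by exact_mod_cast hRM
  refine add_le_add (mul_le_mul_of_nonneg_left hBB (by positivity))
    (mul_le_mul_of_nonneg_left (add_le_add (mul_le_mul_of_nonneg_left hA (by positivity)) hRM')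
      (by positivity))

theorem QQ_card {X R M B : ℕ} (hX : 1 ≤ X) (hB1 : 1 ≤ B)
    (hB : ∀ m, m ≤ 16 * X ^ 4 → m.divisors.card ≤ B)
    (hR : R ^ 3 ≤ X) (hR' : ∀ x, x ^ 3 ≤ X → x ≤ R) (hM : M ^ 3 ≤ X ^ 2)
    (hM' : ∀ m, m ^ 3 ≤ X ^ 2 → m ≤ M) :
    ((QQ X).card : ℝ) ≤
      98 * (B : ℝ) ^ 4 * (X * (X : ℝ) ^ (1 / 6 : ℝ)) * (1 + Real.log (X + 1)) := by
  classical
  have h0 := Finset.card_filter_add_card_filter_not (s := QQ X) Bad
  have h1 := good_card hX hB hR hR' hM hM' ((QQ X).filter fun p => ¬ Bad p)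
    (fun p hp => mem_QQ.1 (Finset.mem_filter.1 hp).1) (fun p hp => (Finset.mem_filter.1 hp).2)
  have h2 := deg hX hB hR' ((QQ X).filter Bad)
    (fun p hp => mem_QQ.1 (Finset.mem_filter.1 hp).1) (fun p hp => (Finset.mem_filter.1 hp).2)
  have h3 : ((QQ X).card : ℝ) = (((QQ X).filter Bad).card : ℝ) +
      (((QQ X).filter fun p => ¬ Bad p).card : ℝ) := by
    rw [← h0]; push_cast; ring
  set S : ℝ := (X : ℝ) ^ (1 / 6 : ℝ) with hS
  set L : ℝ := Real.log (X + 1) with hL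
  have hX1 : (1 : ℝ) ≤ X := by exact_mod_cast hX
  have hB1' : (1 : ℝ) ≤ B := by exact_mod_cast hB1
  have hS1 : 1 ≤ S := Real.one_le_rpow hX1 (by norm_num)
  have hL0 : 0 ≤ L := Real.log_nonneg (by linarith)
  have hsq : ((Nat.sqrt R : ℕ) : ℝ) ≤ S := by
    refine le_trans ?_ (sqrt_le_rpow hR)
    refine Real.le_sqrt_of_sq_le ?_
    have := Nat.sqrt_le' R
    exact_mod_cast this
  have h4 : (((QQ X).filter Bad).card : ℝ) ≤ 6 * (B : ℝ) ^ 4 * (X * S) * (1 + L) := by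
    have h5 : (((QQ X).filter Bad).card : ℝ) ≤
        (((Nat.sqrt R : ℕ) : ℝ) + 1) * ((2 * B + 1) * B) * (B * B * X) := by exact_mod_cast h2
    refine h5.trans ?_
    calc (((Nat.sqrt R : ℕ) : ℝ) + 1) * ((2 * B + 1) * B) * (B * B * X)
        ≤ (2 * S) * ((3 * B) * B) * (B * B * X) := by
          gcongr
          · linarith
          · linarith
      _ = 6 * (B : ℝ) ^ 4 * (X * S) * 1 := by ring
      _ ≤ 6 * (B : ℝ) ^ 4 * (X * S) * (1 + L) := by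
          gcongr
          linarith
  have h5 : (B : ℝ) ^ 2 * X * (B * (2 * S * (1 + L))) +
      2 * (B : ℝ) ^ 2 * (22 * X * (2 * S * (1 + L)) + X) ≤
      92 * (B : ℝ) ^ 4 * (X * S) * (1 + L) := by
    have e3 : (B : ℝ) ^ 3 ≤ (B : ℝ) ^ 4 := pow_le_pow_right₀ hB1' (by norm_num)
    have e2 : (B : ℝ) ^ 2 ≤ (B : ℝ) ^ 4 := pow_le_pow_right₀ hB1' (by norm_num)
    have hSL : 1 ≤ S * (1 + L) := by nlinarith
    have hT : 0 ≤ X * (S * (1 + L)) := by positivity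
    have h6 : (X : ℝ) ≤ X * (S * (1 + L)) := le_mul_of_one_le_right (by positivity) hSL
    calc (B : ℝ) ^ 2 * X * (B * (2 * S * (1 + L))) +
      2 * (B : ℝ) ^ 2 * (22 * X * (2 * S * (1 + L)) + X)
        = 2 * ((B : ℝ) ^ 3 * (X * (S * (1 + L)))) +
          (88 * ((B : ℝ) ^ 2 * (X * (S * (1 + L)))) + 2 * ((B : ℝ) ^ 2 * X)) := by ring
      _ ≤ 2 * ((B : ℝ) ^ 4 * (X * (S * (1 + L)))) +
          (88 * ((B : ℝ) ^ 4 * (X * (S * (1 + L)))) +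
            2 * ((B : ℝ) ^ 4 * (X * (S * (1 + L))))) := by
          gcongr
      _ = 92 * (B : ℝ) ^ 4 * (X * S) * (1 + L) := by ring
  rw [h3]
  calc _ ≤ 6 * (B : ℝ) ^ 4 * (X * S) * (1 + L) + 92 * (B : ℝ) ^ 4 * (X * S) * (1 + L) :=
        add_le_add h4 (h1.trans h5)
    _ = _ := by ring

end Pool.Agent.Lib.MP_3ae5b0_nt.Mo
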