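import Mathlib
import Pool.Agent.Lib.MP_3ae5b0_nt.Moment

set_option autoImplicit false

/-!
# The second moment: the symmetry
-/

namespace Pool.Agent.Lib.MP_3ae5b0_nt.Mo
open Finset

/-- rotations of a triple -/
def rot (a : Fin 3) (t : ℕ × ℕ × ℕ) : ℕ × ℕ × ℕ :=
  if a = 0 then t else if a = 1 then (t.2.1, t.2.2, t.1) else (t.2.2, t.1, t.2.1)

/-- a pair of triples from a sextuple -/
def gg (q : P6 × Fin 2 × Fin 3 × Fin 3) : (ℕ × ℕ × ℕ) × (ℕ × ℕ × ℕ) :=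
  if q.2.1 = 0 then
    (rot q.2.2.1 (q.1.1, q.1.2.1, q.1.2.2.1), rot q.2.2.2 (q.1.2.2.2.1, q.1.2.2.2.2.1, q.1.2.2.2.2.2))
  else
    (rot q.2.2.2 (q.1.2.2.2.1, q.1.2.2.2.2.1, q.1.2.2.2.2.2), rot q.2.2.1 (q.1.1, q.1.2.1, q.1.2.2.1))

theorem ff_rot1 (x y z : ℕ) : ff y z x = ff x y z := by
  unfold ff
  ring

theorem ff_rot2 (x y z : ℕ) : ff z x y = ff x y z := by
  unfold ff
  ring

/-- a rotation whose first entry is the smallest -/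
theorem exists_min (x y z : ℕ) : ∃ (a : Fin 3) (x' y' z' : ℕ), rot a (x', y', z') = (x, y, z) ∧
    x' ≤ y' ∧ x' ≤ z' ∧ ff x' y' z' = ff x y z ∧ max (max x' y') z' = max (max x y) z ∧
    (1 ≤ x → 1 ≤ y → 1 ≤ z → 1 ≤ x') := by
  by_cases h1 : x ≤ y ∧ x ≤ z
  · exact ⟨0, x, y, z, by simp [rot], h1.1, h1.2, rfl, rfl, fun h _ _ => h⟩
  by_cases h2 : y ≤ x ∧ y ≤ z
  · refine ⟨2, y, z, x, by simp [rot], h2.2, h2.1, ff_rot1 x y z, by omega, fun _ h _ => h⟩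
  · refine ⟨1, z, x, y, by simp [rot], by omega, by omega, ff_rot2 x y z, by omega,
      fun _ _ h => h⟩

/-- a rotation whose last entry is the largest -/
theorem exists_max (x y z : ℕ) : ∃ (a : Fin 3) (x' y' z' : ℕ), rot a (x', y', z') = (x, y, z) ∧
    x' ≤ z' ∧ y' ≤ z' ∧ ff x' y' z' = ff x y z ∧ z' = max (max x y) z ∧
    (1 ≤ x → 1 ≤ y → 1 ≤ z → 1 ≤ x' ∧ 1 ≤ y') := by
  by_cases h1 : x ≤ z ∧ y ≤ z
  · exact ⟨0, x, y, z, by simp [rot], h1.1, h1.2, rfl, by omega, fun h h' _ => ⟨h, h'⟩⟩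
  by_cases h2 : y ≤ x ∧ z ≤ x
  · refine ⟨2, y, z, x, by simp [rot], by omega, by omega, ff_rot1 x y z, by omega,
      fun _ h h' => ⟨h, h'⟩⟩
  · refine ⟨1, z, x, y, by simp [rot], by omega, by omega, ff_rot2 x y z, by omega,
      fun h _ h' => ⟨h', h⟩⟩

theorem exists_q {X : ℕ} {t t' : ℕ × ℕ × ℕ} (h1 : 1 ≤ t.1 ∧ 1 ≤ t.2.1 ∧ 1 ≤ t.2.2)
    (h1' : 1 ≤ t'.1 ∧ 1 ≤ t'.2.1 ∧ 1 ≤ t'.2.2)
    (he : ff t.1 t.2.1 t.2.2 = ff t'.1 t'.2.1 t'.2.2) (hX : ff t.1 t.2.1 t.2.2 ≤ X)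
    (hm : max (max t.1 t.2.1) t.2.2 ≤ max (max t'.1 t'.2.1) t'.2.2) :
    ∃ (p : P6) (a b : Fin 3), Pp X p ∧ rot a (p.1, p.2.1, p.2.2.1) = t ∧
      rot b (p.2.2.2.1, p.2.2.2.2.1, p.2.2.2.2.2) = t' := by
  obtain ⟨x, y, z⟩ := t
  obtain ⟨u, v, w⟩ := t'
  simp only at h1 h1' he hX hm
  obtain ⟨a, x', y', z', ha, h2, h3, h4, h5, h6⟩ := exists_min x y z
  obtain ⟨b, u', v', w', hb, g2, g3, g4, g5, g6⟩ := exists_max u v w
  have h7 := h6 h1.1 h1.2.1 h1.2.2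
  have g7 := g6 h1'.1 h1'.2.1 h1'.2.2
  have k1 : y' ≤ w' := by omega
  have k2 : z' ≤ w' := by omega
  refine ⟨(x', y', z', u', v', w'), a, b, ?_, ha, hb⟩
  exact ⟨h7, g7.1, g7.2, h2, h3, k1, k2, g2, g3, by rw [h4, g4, he], by rw [h4]; exact hX⟩

theorem symm (X : ℕ) : ∑ n ∈ Finset.Icc 1 X,
    (((Finset.Icc 1 X ×ˢ Finset.Icc 1 X ×ˢ Finset.Icc 1 X).filter
      fun t : ℕ × ℕ × ℕ => ff t.1 t.2.1 t.2.2 = n).card) ^ 2 ≤ 18 * (QQ X).card := by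
  classical
  set T := Finset.Icc 1 X ×ˢ Finset.Icc 1 X ×ˢ Finset.Icc 1 X with hT
  set P := (T ×ˢ T).filter fun p : (ℕ × ℕ × ℕ) × (ℕ × ℕ × ℕ) =>
    ff p.1.1 p.1.2.1 p.1.2.2 = ff p.2.1 p.2.2.1 p.2.2.2 ∧ ff p.1.1 p.1.2.1 p.1.2.2 ∈ Finset.Icc 1 X
    with hP
  have h1 : P.card = ∑ n ∈ Finset.Icc 1 X, (P.filter fun p => ff p.1.1 p.1.2.1 p.1.2.2 = n).card :=
    Finset.card_eq_sum_card_fiberwise fun p hp => (Finset.mem_filter.1 hp).2.2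
  have h2 : ∑ n ∈ Finset.Icc 1 X, ((T.filter fun t : ℕ × ℕ × ℕ => ff t.1 t.2.1 t.2.2 = n).card) ^ 2 ≤
      P.card := by
    rw [h1]
    refine Finset.sum_le_sum fun n hn => ?_
    rw [pow_two, ← Finset.card_product]
    refine Finset.card_le_card fun p hp => ?_
    obtain ⟨ha, hb⟩ := Finset.mem_product.1 hp
    obtain ⟨a1, a2⟩ := Finset.mem_filter.1 ha
    obtain ⟨b1, b2⟩ := Finset.mem_filter.1 hb
    refine Finset.mem_filter.2 ⟨Finset.mem_filter.2 ⟨Finset.mem_product.2 ⟨a1, b1⟩, ?_, ?_⟩, a2⟩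
    · rw [a2, b2]
    · rw [a2]
      exact hn
  refine h2.trans ?_
  have h3 : P ⊆ (QQ X ×ˢ (Finset.univ : Finset (Fin 2 × Fin 3 × Fin 3))).image gg := by
    rintro ⟨t, t'⟩ hp
    obtain ⟨hp1, hp2, hp3⟩ := Finset.mem_filter.1 hp
    obtain ⟨ha, hb⟩ := Finset.mem_product.1 hp1
    have ha' : 1 ≤ t.1 ∧ 1 ≤ t.2.1 ∧ 1 ≤ t.2.2 := by
      simp only [hT, Finset.mem_product, Finset.mem_Icc] at ha
      omega
    have hb' : 1 ≤ t'.1 ∧ 1 ≤ t'.2.1 ∧ 1 ≤ t'.2.2 := by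
      simp only [hT, Finset.mem_product, Finset.mem_Icc] at hb
      omega
    have hX := (Finset.mem_Icc.1 hp3).2
    simp only at hp2 hX
    rw [Finset.mem_image]
    rcases le_total (max (max t.1 t.2.1) t.2.2) (max (max t'.1 t'.2.1) t'.2.2) with hm | hm
    · obtain ⟨p, a, b, h4, h5, h6⟩ := exists_q ha' hb' hp2 hX hm
      refine ⟨(p, 0, a, b), Finset.mem_product.2 ⟨mem_QQ.2 h4, Finset.mem_univ _⟩, ?_⟩
      simp only [gg, if_true, h5, h6]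
    · obtain ⟨p, a, b, h4, h5, h6⟩ := exists_q hb' ha' hp2.symm (hp2 ▸ hX) hm
      refine ⟨(p, 1, a, b), Finset.mem_product.2 ⟨mem_QQ.2 h4, Finset.mem_univ _⟩, ?_⟩
      have h10 : ¬ ((1 : Fin 2) = 0) := by decide
      simp only [gg, if_neg h10, h5, h6]
  calc P.card ≤ _ := Finset.card_le_card h3
    _ ≤ (QQ X ×ˢ (Finset.univ : Finset (Fin 2 × Fin 3 × Fin 3))).card := Finset.card_image_le
    _ = 18 * (QQ X).card := by
        rw [Finset.card_product, Finset.card_univ, Fintype.card_prod, Fintype.card_prod,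
          Fintype.card_fin, Fintype.card_fin]
        ring

end Pool.Agent.Lib.MP_3ae5b0_nt.Mo
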