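import Pool.Agent.Lib.MP_3ae5b0_nt.MomentD
import Pool.Agent.Lib.MP_3ae5b0_nt.DivBound
import Pool.Agent.Lib.MP_3ae5b0_nt.Symm60

set_option autoImplicit false

/-!
# The second moment: the final bound
-/

namespace Pool.Agent.Lib.MP_3ae5b0_nt.Mo
open Finset

theorem exists_root (X k j : ℕ) (hk : 1 ≤ k) :
    ∃ R : ℕ, R ^ k ≤ X ^ j ∧ ∀ x, x ^ k ≤ X ^ j → x ≤ R := by
  refine ⟨Nat.findGreatest (fun r => r ^ k ≤ X ^ j) (X ^ j), ?_, ?_⟩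
  · have := Nat.findGreatest_spec (P := fun r => r ^ k ≤ X ^ j) (m := 0) (n := X ^ j) (Nat.zero_le _)
      (by rw [zero_pow (by omega)]; exact Nat.zero_le _)
    exact this
  · intro x hx
    exact Nat.le_findGreatest ((Nat.le_self_pow (by omega) x).trans hx) hx

theorem QQ_bound (ε : ℝ) (hε : 0 < ε) :
    ∃ C : ℝ, ∀ X : ℕ, 1 ≤ X → ((QQ X).card : ℝ) ≤ C * (X : ℝ) ^ (7 / 6 + ε : ℝ) := by
  set δ : ℝ := ε / 17 with hδ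
  have hδ0 : 0 < δ := by positivity
  obtain ⟨C, hC1, hC⟩ := divisor_bound δ hδ0
  refine ⟨98 * (C * (16 : ℝ) ^ δ) ^ 4 * (1 + 2 ^ δ / δ), fun X hX => ?_⟩
  obtain ⟨R, hR, hR'⟩ := exists_root X 3 1 (by norm_num)
  obtain ⟨M, hM, hM'⟩ := exists_root X 3 2 (by norm_num)
  rw [pow_one] at hR hR'
  have hX1 : (1 : ℝ) ≤ X := by exact_mod_cast hX
  have hX0 : (0 : ℝ) < X := by linarith
  set b : ℝ := C * ((16 : ℝ) * (X : ℝ) ^ 4) ^ δ with hb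
  have hb1 : 1 ≤ b := by
    have h1 : (1 : ℝ) ≤ ((16 : ℝ) * (X : ℝ) ^ 4) ^ δ := by
      refine Real.one_le_rpow ?_ hδ0.le
      have : (1 : ℝ) ≤ (X : ℝ) ^ 4 := one_le_pow₀ hX1
      linarith
    rw [hb]
    nlinarith
  set B : ℕ := ⌊b⌋₊ with hBdef
  have hB1 : 1 ≤ B := by rw [hBdef]; exact Nat.le_floor (by rw [Nat.cast_one]; exact hb1)
  have hBb : (B : ℝ) ≤ b := Nat.floor_le (by linarith)
  have hB : ∀ m, m ≤ 16 * X ^ 4 → m.divisors.card ≤ B := by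
    intro m hm
    rcases Nat.eq_zero_or_pos m with rfl | hm0
    · rw [Nat.divisors_zero, Finset.card_empty]; exact Nat.zero_le _
    · refine Nat.le_floor ((hC m hm0.ne').trans ?_)
      refine mul_le_mul_of_nonneg_left (Real.rpow_le_rpow (Nat.cast_nonneg _) ?_ hδ0.le)
        (by linarith)
      exact_mod_cast hm
  have h := QQ_card hX hB1 hB hR hR' hM hM'
  have hlog : 1 + Real.log (X + 1) ≤ (1 + 2 ^ δ / δ) * (X : ℝ) ^ δ := by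
    have h1 : Real.log ((X : ℝ) + 1) ≤ ((X : ℝ) + 1) ^ δ / δ :=
      Real.log_le_rpow_div (by positivity) hδ0
    have h2 : ((X : ℝ) + 1) ^ δ ≤ (2 * (X : ℝ)) ^ δ :=
      Real.rpow_le_rpow (by positivity) (by linarith) hδ0.le
    rw [Real.mul_rpow (by norm_num) hX0.le] at h2
    have h3 : (1 : ℝ) ≤ (X : ℝ) ^ δ := Real.one_le_rpow hX1 hδ0.le
    have h4 : ((X : ℝ) + 1) ^ δ / δ ≤ 2 ^ δ * (X : ℝ) ^ δ / δ := by gcongr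
    have h5 : (1 + 2 ^ δ / δ) * (X : ℝ) ^ δ = (X : ℝ) ^ δ + 2 ^ δ * (X : ℝ) ^ δ / δ := by ring
    linarith
  have hb4 : b ^ 4 = (C * (16 : ℝ) ^ δ) ^ 4 * (X : ℝ) ^ (16 * δ) := by
    rw [hb, Real.mul_rpow (by norm_num) (by positivity), ← mul_assoc, mul_pow (C * (16 : ℝ) ^ δ)]
    congr 1
    rw [← Real.rpow_natCast (X : ℝ) 4, ← Real.rpow_mul hX0.le, ← Real.rpow_natCast,
      ← Real.rpow_mul hX0.le]
    congr 1
    push_cast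
    ring
  calc ((QQ X).card : ℝ) ≤ 98 * (B : ℝ) ^ 4 * (X * (X : ℝ) ^ (1 / 6 : ℝ)) *
        (1 + Real.log (X + 1)) := h
    _ ≤ 98 * b ^ 4 * (X * (X : ℝ) ^ (1 / 6 : ℝ)) * ((1 + 2 ^ δ / δ) * (X : ℝ) ^ δ) := by
        have h0 : 0 ≤ 1 + Real.log ((X : ℝ) + 1) := by
          have := Real.log_nonneg (by linarith : (1 : ℝ) ≤ (X : ℝ) + 1)
          linarith
        gcongr
    _ = 98 * (C * (16 : ℝ) ^ δ) ^ 4 * (1 + 2 ^ δ / δ) *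
        ((X : ℝ) ^ (16 * δ) * (X * (X : ℝ) ^ (1 / 6 : ℝ)) * (X : ℝ) ^ δ) := by
        rw [hb4]; ring
    _ = 98 * (C * (16 : ℝ) ^ δ) ^ 4 * (1 + 2 ^ δ / δ) * (X : ℝ) ^ (7 / 6 + ε : ℝ) := by
        congr 1
        have e1 : (X : ℝ) * (X : ℝ) ^ (1 / 6 : ℝ) = (X : ℝ) ^ (7 / 6 : ℝ) := by
          rw [← Real.rpow_one_add' hX0.le (by norm_num)]
          norm_num
        rw [e1, ← Real.rpow_add hX0, ← Real.rpow_add hX0]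
        congr 1
        rw [hδ]
        ring

theorem ncard_filter {X n : ℕ} (hn : n ∈ Finset.Icc 1 X) :
    {p : ℕ × ℕ × ℕ | 0 < p.1 ∧ 0 < p.2.1 ∧ 0 < p.2.2 ∧
      n = p.1 * p.2.1 * p.2.2 + p.1 + p.2.1 + p.2.2}.ncard =
    ((Finset.Icc 1 X ×ˢ Finset.Icc 1 X ×ˢ Finset.Icc 1 X).filter
      fun t : ℕ × ℕ × ℕ => ff t.1 t.2.1 t.2.2 = n).card := by
  rw [← Set.ncard_coe_finset]
  congr 1
  ext ⟨x, y, z⟩
  rw [Finset.mem_Icc] at hn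
  unfold ff
  simp only [Set.mem_ofPred_eq, Finset.coe_filter, Finset.mem_product, Finset.mem_Icc]
  constructor
  · rintro ⟨h1, h2, h3, h4⟩
    have h5 : 0 < x * y * z := Nat.mul_pos (Nat.mul_pos h1 h2) h3
    omega
  · rintro ⟨⟨⟨h1, -⟩, ⟨h2, -⟩, h3, -⟩, h4⟩
    omega

theorem second_moment (ε : ℝ) (hε : 0 < ε) :
    ∃ C : ℝ, ∀ X : ℕ, 1 ≤ X →
      ∑ n ∈ Finset.Icc 1 X,
        (({p : ℕ × ℕ × ℕ | 0 < p.1 ∧ 0 < p.2.1 ∧ 0 < p.2.2 ∧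
          n = p.1 * p.2.1 * p.2.2 + p.1 + p.2.1 + p.2.2}.ncard : ℝ)) ^ 2
        ≤ C * (X : ℝ) ^ (7 / 6 + ε) := by
  obtain ⟨C, hC⟩ := QQ_bound ε hε
  refine ⟨18 * C, fun X hX => ?_⟩
  have h1 : ∑ n ∈ Finset.Icc 1 X,
        (({p : ℕ × ℕ × ℕ | 0 < p.1 ∧ 0 < p.2.1 ∧ 0 < p.2.2 ∧
          n = p.1 * p.2.1 * p.2.2 + p.1 + p.2.1 + p.2.2}.ncard : ℝ)) ^ 2 =
      ((∑ n ∈ Finset.Icc 1 X,
        (((Finset.Icc 1 X ×ˢ Finset.Icc 1 X ×ˢ Finset.Icc 1 X).filter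
          fun t : ℕ × ℕ × ℕ => ff t.1 t.2.1 t.2.2 = n).card) ^ 2 : ℕ) : ℝ) := by
    rw [Nat.cast_sum]
    refine Finset.sum_congr rfl fun n hn => ?_
    rw [ncard_filter hn, Nat.cast_pow]
  rw [h1]
  have h2 : ((∑ n ∈ Finset.Icc 1 X,
        (((Finset.Icc 1 X ×ˢ Finset.Icc 1 X ×ˢ Finset.Icc 1 X).filter
          fun t : ℕ × ℕ × ℕ => ff t.1 t.2.1 t.2.2 = n).card) ^ 2 : ℕ) : ℝ) ≤
      18 * ((QQ X).card : ℝ) := by
    exact_mod_cast symm X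
  refine h2.trans ?_
  rw [mul_assoc]
  exact mul_le_mul_of_nonneg_left (hC X hX) (by norm_num)

end Pool.Agent.Lib.MP_3ae5b0_nt.Mo
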